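import Pool.Agent.LibBE36M.M11
import Pool.Agent.LibBE36F.FA2
import Pool.Agent.LibBE36F.FA3

/-! ROW M12 : the block families are families `CH`. -/

open MeasureTheory Set Filter Topology
open scoped ContDiff unitInterval

namespace F36

open BGS BR B35
open Pool.BGR (upI)

variable {Γ : Type} [Group Γ] [MulAction Γ Pl] {D : Set Pl} {P : Dt} {κ : ℝ}

private theorem M12_bdd {f : ℕ → ℝ} (h : Tendsto f atTop (𝓝 0)) : ∃ C : ℝ, ∀ k, f k ≤ C := by
  obtain ⟨C, hC⟩ := h.bddAbove_range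
  exact ⟨C, fun k => hC ⟨k, rfl⟩⟩

private theorem M12_e (p : Pr) (k : ℕ) : 0 < p.e k := Real.rpow_pos_of_pos (by norm_num) _

/-- The path of the block. -/
theorem CH_path (hP : Ok Γ D P) (hκ : 0 < κ) : ∃ (k0 : ℕ) (b : ℝ),
    BE36.CH Γ D P.m (κ / 2) b (fun q : Bi P Γ D κ k0 => sP P q.p Γ D q.k q.ξ q.η)
      (fun q => Real.log (1 / q.p.e q.k)) := by
  obtain ⟨k0, b, cf⟩ := CF_path hP hκ
  refine ⟨k0, b, ?_⟩
  have hX := hP.cx.hX
  obtain ⟨C1, hC1, h1⟩ := FA0_ex hP.cx 0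
  obtain ⟨C2, hC2, h2⟩ := FA0_sum hX P.L 0
  obtain ⟨C3, h3⟩ := M12_bdd (c_half hP 2)
  have hform := fun q : Bi P Γ D κ k0 => sP_form hP q.p q.k q.ξ q.η
  have hm := hP.eq
  have hb : ∀ (ξ : Dir → I), ∀ z ∈ closure D, |BGM.ex Γ P.ψ P.L P.c ξ z| ≤ C1 + C2 * C3 := by
    intro ξ z hz
    have h4 := h1 0 le_rfl ξ z hz
    rw [norm_iteratedFDeriv_zero, Real.norm_eq_abs] at h4
    have h5 : 0 ≤ C2 * C3 := mul_nonneg hC2.le ((by positivity : (0 : ℝ) ≤ _).trans (h3 0))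
    linarith
  rw [hm] at cf ⊢
  refine B36.CH_Mo hX hP.hyp (P := fun q : Bi P Γ D κ k0 => q.p.n) (e := fun q => q.p.e q.k)
    (b := fun q => BGM.ex Γ P.ψ P.L P.c (zer (bk q.k) q.ξ))
    (d := fun q => Sg0 Γ P.L (bk q.k) fun c => √(P.c (bk q.k)) * ((q.η (bk q.k, c) : I) : ℝ))
    (C := C1 + C2 * C3) (fun q => M12_e _ _) (fun q => q.hξ.1) (fun q => ex_test hP _)
    (fun q => Sg0_test hX _ _ _) (fun q z hz => hb _ z hz) (fun q z hz => ?_) (fun q x => ?_) cf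
  · have h4 := h2 (bk q.k) (fun c => √(P.c (bk q.k)) * ((q.η (bk q.k, c) : I) : ℝ))
      (√(P.c (bk q.k))) (fun c => ?_) 0 le_rfl z hz
    · rw [norm_iteratedFDeriv_zero, Real.norm_eq_abs] at h4
      refine h4.trans ?_
      have h5 := h3 q.k
      have h6 : C2 * ((bk q.k : ℝ) + 1) ^ (0 + 2) * √(P.c (bk q.k)) ≤ C2 * C3 := by
        rw [mul_assoc]
        exact mul_le_mul_of_nonneg_left h5 hC2.le
      linarith
    · rw [abs_mul, abs_of_nonneg (Real.sqrt_nonneg _)]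
      have h5 := (q.η (bk q.k, c)).2
      rw [abs_of_nonneg h5.1]
      exact mul_le_of_le_one_right (Real.sqrt_nonneg _) h5.2
  · rw [hform q, hm]
    rfl

/-- The dependence on one coefficient. -/
theorem CH_cell (hP : Ok Γ D P) (hκ : 0 < κ) : ∃ (k0 : ℕ) (b : ℝ),
    BE36.CH Γ D P.m (κ / 2) b (fun q : Bc P Γ D κ k0 => sC P q.p Γ D q.k q.ξ q.η q.c q.w)
      (fun q => Real.log (1 / q.p.e q.k)) := by
  obtain ⟨k0, b, cf⟩ := CF_cell hP hκ
  refine ⟨k0, b, ?_⟩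
  have hX := hP.cx.hX
  obtain ⟨C1, hC1, h1⟩ := FA0_ex hP.cx 0
  obtain ⟨C2, hC2, h2⟩ := FA0_sum hX P.L 0
  obtain ⟨C3, h3⟩ := M12_bdd (c_third hP 2)
  have hform := fun q : Bc P Γ D κ k0 => sC_form hP q.p q.k q.ξ q.η q.c q.w
  have hm := hP.eq
  have hb : ∀ (ξ : Dir → I), ∀ z ∈ closure D, |BGM.ex Γ P.ψ P.L P.c ξ z| ≤ C1 + C2 * C3 := by
    intro ξ z hz
    have h4 := h1 0 le_rfl ξ z hz
    rw [norm_iteratedFDeriv_zero, Real.norm_eq_abs] at h4
    have h5 : 0 ≤ C2 * C3 := by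
      have h6 := h3 0
      have h7 := (c_pos hP (bk 0)).1
      have h8 : 0 ≤ ((bk 0 : ℝ) + 1) ^ 2 * P.c (bk 0) ^ (1 / 3 : ℝ) := by positivity
      exact mul_nonneg hC2.le (h8.trans h6)
    linarith
  rw [hm] at cf ⊢
  refine B36.CH_Mo hX hP.hyp (P := fun q : Bc P Γ D κ k0 => q.p.n) (e := fun q => q.p.e q.k)
    (b := fun q => BGM.ex Γ P.ψ P.L P.c (upI (mix (bk q.k) q.ξ q.η) (bk q.k, q.c) 0))
    (d := fun q z => q.w * per Γ (BGM.bmq (bk q.k + 1) q.c) z)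
    (C := C1 + C2 * C3) (fun q => M12_e _ _) (fun q => q.hξ.1) (fun q => ex_test hP _)
    (fun q => ?_) (fun q z hz => hb _ z hz) (fun q z hz => ?_) (fun q x => ?_) cf
  · have h4 := BGM.QH1_per (Γ := Γ) hX (bk q.k) q.c
    exact ⟨contDiff_const.mul h4.1, fun γ z => congrArg (fun t => q.w * t) (h4.2 γ z)⟩
  · have h4 := h2 (bk q.k) (fun c => if c = q.c then q.w else 0) q.w (fun c => ?_) 0 le_rfl z hz
    · have h9 : Sg0 Γ P.L (bk q.k) (fun c => if c = q.c then q.w else 0) z =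
          q.w * per Γ (BGM.bmq (bk q.k + 1) q.c) z := by
        unfold Sg0
        rw [Finset.sum_eq_single q.c]
        · beta_reduce
          rw [if_pos rfl]
        · intro c _ hne
          beta_reduce
          rw [if_neg hne, zero_mul]
        · intro h
          exact absurd q.hc h
      rw [norm_iteratedFDeriv_zero, Real.norm_eq_abs, h9] at h4
      refine h4.trans ?_
      have h5 := h3 q.k
      have h6 : C2 * ((bk q.k : ℝ) + 1) ^ (0 + 2) * q.w ≤ C2 * C3 := by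
        rw [mul_assoc]
        refine mul_le_mul_of_nonneg_left (le_trans ?_ h5) hC2.le
        exact mul_le_mul_of_nonneg_left q.hw (by positivity)
      linarith
    · split_ifs
      · rw [abs_of_nonneg q.w0]
      · rw [abs_zero]
        exact q.w0
  · rw [hform q, hm]
    show nx D B36.mH _ x.2 = nx D B36.mH _ x.2
    congr 1
    funext z
    rw [← B36.Mo_smul]
    rfl

end F36
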