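import Pool.Agent.LibBE36T.Defs
import Pool.Agent.LibBE36.HDefs

/-! BE36, section (M): mollification on the hyperbolic plane in horocyclic coordinates. Definitions
(architect helper73). -/

open MeasureTheory Set Filter Topology
open scoped ContDiff

namespace B36

open BGS BR

/-- The hyperbolic metric `dx² + e ^ (2 x) dy²`, of curvature `-1`. -/
noncomputable def mH (z : Pl) : Co := (1, 0, Real.exp (2 * z.1))

/-- The hyperbolic cosine of the distance in the metric `mH`. -/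
noncomputable def Bh (X Y : Pl) : ℝ :=
  Real.cosh (X.1 - Y.1) + Real.exp (X.1 + Y.1) * (X.2 - Y.2) ^ 2 / 2

/-- The group acts by isometries of the hyperbolic plane. -/
def Hyp (Γ : Type) [Group Γ] [MulAction Γ Pl] : Prop :=
  ∀ (γ : Γ) (X Y : Pl), Bh (γ • X) (γ • Y) = Bh X Y

/-- Left translations. -/
noncomputable def tr (X Z : Pl) : Pl := (X.1 + Z.1, X.2 + Real.exp (-X.1) * Z.2)

/-- Coordinates with `Bh 0 (psi w) = 1 + |w|² / 2`. -/
noncomputable def psi (w : Pl) : Pl :=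
  (2 * Real.arsinh (w.1 / 2), Real.exp (-Real.arsinh (w.1 / 2)) * w.2)

/-- The density of the area in these coordinates. -/
noncomputable def rhw (t : ℝ) : ℝ := 1 + t / √(4 + t ^ 2)

/-- The average of `u` with the Gaussian kernel of width `e`. -/
noncomputable def Kr (e : ℝ) (u : Pl → ℝ) (X : Pl) : ℝ :=
  (2 * Real.pi * e ^ 2)⁻¹ * ∫ Y : Pl, u Y * Real.exp (-((Bh X Y - 1) / e ^ 2)) * Real.exp Y.1

/-- The mollified function. -/
noncomputable def Mo (P : ℕ) (e : ℝ) (u : Pl → ℝ) (X : Pl) : ℝ :=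
  ∑ i ∈ Finset.range P, rc P i * Kr (2 ^ i * e) u X

/-- `Bh` at complex points. -/
noncomputable def Bc (z : ℂ × ℂ) (Y : Pl) : ℂ :=
  Complex.cosh (z.1 - (Y.1 : ℂ)) + Complex.exp (z.1 + (Y.1 : ℂ)) * (z.2 - (Y.2 : ℂ)) ^ 2 / 2

/-- `f` has a holomorphic extension to the ball of radius `r` around `X`, bounded by `B`. -/
def HX (f : Pl → ℝ) (X : Pl) (r B : ℝ) : Prop :=
  ∃ g : ℂ × ℂ → ℂ, H36.Ext f (Metric.ball (H36.j X) r) B g

/-- The Gaussian weight of the plane, and the Gaussian average. -/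
noncomputable def gw (z : Pl) : ℝ := (2 * Real.pi)⁻¹ * Real.exp (-((z.1 ^ 2 + z.2 ^ 2) / 2))

noncomputable def Ga (e : ℝ) (G : Pl × Pl → ℝ) (X : Pl) : ℝ := ∫ z : Pl, gw z * G (X, e • z)

/-- The cut-off functions of a compact set. -/
structure Ct (K : Set Pl) (χ η : Pl → ℝ) : Prop where
  smooth : ContDiff ℝ ∞ χ
  comp : HasCompactSupport χ
  mem : ∀ Y, χ Y ∈ Icc (0 : ℝ) 1
  one : ∀ X ∈ K, ∀ Y, Bh X Y ≤ 3 → χ Y = 1
  smooth' : ContDiff ℝ ∞ η
  comp' : HasCompactSupport η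
  one' : ∀ X ∈ K, ∀ᶠ Y in 𝓝 X, η Y = 1

/-- The near part. -/
noncomputable def Gn (χ η u : Pl → ℝ) (p : Pl × Pl) : ℝ :=
  η p.1 * (χ (tr p.1 (psi p.2)) * u (tr p.1 (psi p.2))) * rhw p.2.1

/-- The path through one coefficient: the identity on `[-4, 4]`. -/
noncomputable def thd (t : ℝ) : ℝ := t * B35.cut (t / 4)

end B36
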