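import Pool.Agent.LibBE36M.M8a

/-! ROW M8b : the mollified function. SHORT/MEDIUM.
PLAN. Sums over `i < P` of the statements for `Kr`; `∑ |rc P i| ≤ 3` (`rc_abs`), `∑ rc P i = 1` (`rc_sum`), `2 ^ i e ≤ 2 ^ P e ≤ 1`. `Mo_hol`: the ball of radius `e / C` is in the ball of radius
`2 ^ i e / C`; sum of the extensions. -/

open MeasureTheory Set Filter Topology
open scoped ContDiff

namespace B36

open BGS BR

variable {Γ : Type} [Group Γ] [MulAction Γ Pl] {D : Set Pl}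

theorem M8b_ne (hX : Surface Γ D) : (closure D).Nonempty := by
  obtain ⟨γ, hγ, -⟩ := hX.orbit (0 : Pl)
  exact ⟨_, subset_closure hγ⟩

theorem M8b_pow {P : ℕ} {e : ℝ} (he : 0 < e) {i : ℕ} (hi : i ∈ Finset.range P) :
    e ≤ 2 ^ i * e ∧ 2 ^ i * e ≤ 2 ^ P * e := by
  have h1 : (1 : ℝ) ≤ 2 ^ i := one_le_pow₀ one_le_two
  have h2 : (2 : ℝ) ^ i ≤ 2 ^ P := pow_le_pow_right₀ one_le_two (Finset.mem_range.1 hi).le
  exact ⟨by nlinarith, mul_le_mul_of_nonneg_right h2 he.le⟩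

/-- A weighted sum. -/
theorem M8b_sum {P : ℕ} {F : Type} [SeminormedAddCommGroup F] {w : ℕ → F} {M : ℝ} (hM : 0 ≤ M)
    (h : ∀ i ∈ Finset.range P, ‖w i‖ ≤ |rc P i| * M) :
    ‖∑ i ∈ Finset.range P, w i‖ ≤ 3 * M := by
  refine (norm_sum_le _ _).trans ((Finset.sum_le_sum h).trans ?_)
  rw [← Finset.sum_mul]
  exact mul_le_mul_of_nonneg_right (rc_abs P) hM

theorem M8b_bdd (hX : Surface Γ D) {u : Pl → ℝ} (hu : u ∈ Test Γ) :
    ∃ M : ℝ, ∀ Y, |u Y| ≤ M := by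
  obtain ⟨M, hM⟩ := hX.bdd.isCompact_closure.exists_bound_of_continuousOn
    (f := u) hu.1.continuous.continuousOn
  exact ⟨M, test_bdd hX hu fun z hz => hM z hz⟩

theorem Mo_const {P : ℕ} (hP : 1 ≤ P) {e : ℝ} (he : 0 < e) (c : ℝ) (X : Pl) :
    Mo P e (fun _ => c) X = c := by
  unfold Mo
  have h1 : ∀ i ∈ Finset.range P, rc P i * Kr (2 ^ i * e) (fun _ => c) X = rc P i * c :=
    fun i _ => by rw [Kr_const (by positivity)]
  rw [Finset.sum_congr rfl h1, ← Finset.sum_mul, rc_sum hP, one_mul]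

theorem Mo_smul (P : ℕ) (e c : ℝ) (u : Pl → ℝ) (X : Pl) :
    Mo P e (fun Y => c * u Y) X = c * Mo P e u X := by
  unfold Mo
  rw [Finset.mul_sum]
  refine Finset.sum_congr rfl fun i _ => ?_
  rw [Kr_smul]
  ring

theorem Mo_add (hX : Surface Γ D) (P : ℕ) {e : ℝ} (he : 0 < e) {u v : Pl → ℝ} (hu : u ∈ Test Γ)
    (hv : v ∈ Test Γ) (X : Pl) : Mo P e (fun Y => u Y + v Y) X = Mo P e u X + Mo P e v X := by
  obtain ⟨M, hM⟩ := M8b_bdd hX hu
  obtain ⟨M', hM'⟩ := M8b_bdd hX hv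
  unfold Mo
  rw [← Finset.sum_add_distrib]
  refine Finset.sum_congr rfl fun i _ => ?_
  rw [Kr_add (by positivity) hu.1.continuous hv.1.continuous (M := max M M')
    (fun Y => (hM Y).trans (le_max_left _ _)) (fun Y => (hM' Y).trans (le_max_right _ _)),
    mul_add]

theorem Mo_test (hX : Surface Γ D) (hH : Hyp Γ) {P : ℕ} {e : ℝ} (he : 0 < e)
    {u : Pl → ℝ} (hu : u ∈ Test Γ) : Mo P e u ∈ Test Γ := by
  have h1 : ∀ i ∈ Finset.range P, Kr (2 ^ i * e) u ∈ Test Γ := fun i _ =>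
    Kr_test hX hH (by positivity) hu
  refine ⟨?_, fun γ z => ?_⟩
  · unfold Mo
    exact ContDiff.sum fun i hi => contDiff_const.mul (h1 i hi).1
  · unfold Mo
    exact Finset.sum_congr rfl fun i hi => by rw [(h1 i hi).2 γ z]

theorem Mo_le (hX : Surface Γ D) (P : ℕ) {e : ℝ} (he : 0 < e) {u : Pl → ℝ} (hu : u ∈ Test Γ)
    {M : ℝ} (hM : ∀ z ∈ closure D, |u z| ≤ M) (X : Pl) : |Mo P e u X| ≤ 3 * M := by
  obtain ⟨z0, hz0⟩ := M8b_ne hX
  have hM0 : 0 ≤ M := (abs_nonneg _).trans (hM z0 hz0)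
  unfold Mo
  rw [← Real.norm_eq_abs]
  refine M8b_sum (F := ℝ) hM0 fun i _ => ?_
  rw [Real.norm_eq_abs, abs_mul]
  exact mul_le_mul_of_nonneg_left
    (Kr_le (by positivity) hu.1.continuous (test_bdd hX hu hM) X) (abs_nonneg _)

/-- The bounds of the derivatives do not depend on the number of nodes. -/
theorem Mo_bd (hX : Surface Γ D) {K : Set Pl} (hK : IsCompact K) (k : ℕ) : ∃ C : ℝ, 1 ≤ C ∧
    ∀ (P : ℕ) (e : ℝ), 0 < e → 2 ^ P * e ≤ 1 → ∀ u ∈ Test Γ, ∀ M : ℝ,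
    (∀ j ≤ k, ∀ z ∈ closure D, ‖iteratedFDeriv ℝ j u z‖ ≤ M) →
    ∀ j ≤ k, ∀ z ∈ K, ‖iteratedFDeriv ℝ j (Mo P e u) z‖ ≤ C * M := by
  choose C hC1 hC using fun j : ℕ => Kr_bd hX hK j
  refine ⟨3 * (1 + ∑ j ∈ Finset.range (k + 1), C j), ?_, ?_⟩
  · have h1 : 0 ≤ ∑ j ∈ Finset.range (k + 1), C j :=
      Finset.sum_nonneg fun j _ => zero_le_one.trans (hC1 j)
    linarith
  intro P e he he1 u hu M hM j hj z hz
  obtain ⟨z0, hz0⟩ := M8b_ne hX
  have hM0 : 0 ≤ M := (norm_nonneg _).trans (hM 0 (Nat.zero_le _) z0 hz0)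
  have hs : ∀ i ∈ Finset.range P, ContDiff ℝ ∞ (Kr (2 ^ i * e) u) := fun i _ => by
    obtain ⟨M', hM'⟩ := M8b_bdd hX hu
    exact Kr_smooth (by positivity) hu.1.continuous hM'
  have hCj : C j * M ≤ (1 + ∑ j ∈ Finset.range (k + 1), C j) * M := by
    refine mul_le_mul_of_nonneg_right ?_ hM0
    have h1 := Finset.single_le_sum (f := C) (fun j _ => zero_le_one.trans (hC1 j))
      (Finset.mem_range.2 (Nat.lt_succ_of_le hj))
    linarith
  have h2 : iteratedFDeriv ℝ j (Mo P e u) z =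
      ∑ i ∈ Finset.range P, rc P i • iteratedFDeriv ℝ j (Kr (2 ^ i * e) u) z := by
    have hs' : ∀ i ∈ Finset.range P, ContDiff ℝ j (fun X : Pl => rc P i • Kr (2 ^ i * e) u X) := by
      intro i hi
      have h6 : ContDiff ℝ j (Kr (2 ^ i * e) u) := (hs i hi).of_le (by exact_mod_cast le_top)
      exact contDiff_const.mul h6
    have h3 := iteratedFDeriv_sum (𝕜 := ℝ) (u := Finset.range P) (i := j)
      (f := fun (i : ℕ) (X : Pl) => rc P i • Kr (2 ^ i * e) u X) hs'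
    have h4 := congrFun h3 z
    rw [Finset.sum_apply] at h4
    refine h4.trans (Finset.sum_congr rfl fun i hi => ?_)
    have h5 : ContDiffAt ℝ j (Kr (2 ^ i * e) u) z :=
      ((hs i hi).of_le (by exact_mod_cast le_top)).contDiffAt
    exact iteratedFDeriv_const_smul_apply' (a := rc P i) h5
  rw [h2, mul_assoc]
  refine (M8b_sum (M := C j * M) (mul_nonneg (zero_le_one.trans (hC1 j)) hM0) fun i hi => ?_).trans
    (mul_le_mul_of_nonneg_left hCj (by norm_num))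
  rw [norm_smul, Real.norm_eq_abs]
  exact mul_le_mul_of_nonneg_left (hC j _ (by positivity) ((M8b_pow he hi).2.trans he1) u hu M
    (fun j' hj' z hz => hM j' (hj'.trans hj) z hz) z hz) (abs_nonneg _)

/-- The mollified function is holomorphic, with a constant that does not depend on the number of
nodes. -/
theorem Mo_hol (hX : Surface Γ D) {K : Set Pl} (hK : IsCompact K) : ∃ C : ℝ, 1 ≤ C ∧
    ∀ (P : ℕ) (e : ℝ), 0 < e → 2 ^ P * e ≤ 1 → ∀ u ∈ Test Γ, ∀ M : ℝ,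
    (∀ z ∈ closure D, |u z| ≤ M) → ∀ X ∈ K, HX (Mo P e u) X (e / C) (C * M) := by
  classical
  obtain ⟨C, hC1, hC⟩ := Kr_hol hK
  refine ⟨3 * C, by linarith, ?_⟩
  intro P e he he1 u hu M hM X hXK
  obtain ⟨z0, hz0⟩ := M8b_ne hX
  have hM0 : 0 ≤ M := (abs_nonneg _).trans (hM z0 hz0)
  have h1 : ∀ i, ∃ g : ℂ × ℂ → ℂ, i ∈ Finset.range P →
      H36.Ext (Kr (2 ^ i * e) u) (Metric.ball (H36.j X) (2 ^ i * e / C)) (C * M) g := by
    intro i
    by_cases hi : i ∈ Finset.range P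
    · obtain ⟨g, hg⟩ := hC (2 ^ i * e) (by positivity) ((M8b_pow he hi).2.trans he1) u
        hu.1.continuous M (test_bdd hX hu hM) X hXK
      exact ⟨g, fun _ => hg⟩
    · exact ⟨fun _ => 0, fun h => absurd h hi⟩
  choose g hg using h1
  have hsub : ∀ i ∈ Finset.range P,
      Metric.ball (H36.j X : ℂ × ℂ) (e / (3 * C)) ⊆ Metric.ball (H36.j X) (2 ^ i * e / C) := by
    intro i hi
    refine Metric.ball_subset_ball ?_
    have h3 := (M8b_pow he hi).1
    have hC0 : 0 < C := by linarith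
    calc e / (3 * C) ≤ e / C := by
          apply div_le_div_of_nonneg_left he.le hC0
          linarith
      _ ≤ 2 ^ i * e / C := div_le_div_of_nonneg_right h3 hC0.le
  refine ⟨fun z => ∑ i ∈ Finset.range P, (rc P i : ℂ) * g i z, ?_, ?_, ?_⟩
  · refine DifferentiableOn.fun_sum fun i hi => ?_
    exact ((hg i hi).diff.mono (hsub i hi)).const_mul _
  · intro z hz
    rw [mul_assoc]
    refine M8b_sum (mul_nonneg (by linarith) hM0) fun i hi => ?_
    rw [norm_mul, Complex.norm_real, Real.norm_eq_abs]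
    exact mul_le_mul_of_nonneg_left ((hg i hi).bound z (hsub i hi hz)) (abs_nonneg _)
  · intro y hy
    change ∑ i ∈ Finset.range P, (rc P i : ℂ) * g i (H36.j y) = ((Mo P e u y : ℝ) : ℂ)
    unfold Mo
    rw [Complex.ofReal_sum]
    refine Finset.sum_congr rfl fun i hi => ?_
    rw [Complex.ofReal_mul, (hg i hi).ext y (hsub i hi hy)]
    rfl

end B36
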