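import Pool.Agent.LibBE36M.M6b
import Pool.Agent.LibBE36.HC4b
import Pool.Agent.LibBE36.HC2b

/-! ROW M10 : the deck transformations are real analytic. SHORT/MEDIUM.
PLAN. `deck_form`: `Bh_exp`, `Bh_exp'` (M1a) at the point `γ • X`, and `Bh (γ • X) Y = Bh (γ • X) (γ • γ⁻¹ • Y) = Bh X (γ⁻¹ • Y)`. `Bh_hol`: the extension is `Bc`, continuous on the compact closed
1-neighbourhood of `j '' K`. `deck_hol`: `(γ • X).1 = log W X`, `(γ • X).2 = V X * (W X)⁻¹` with `W`, `V` the functions of `deck_form`; `W` has a positive minimum on `K`; rules `Hol_mono`, `Hol_clm`,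
`Hol_add`, `Hol_sub`, `Hol_mul`, `Hol_log`, `Hol_inv`, `Hol_prod` (LibBE36/HC2, HC2b, HC4, HC4b). `mH_hol`: directly. -/

open MeasureTheory Set Filter Topology
open scoped ContDiff

namespace B36

open BGS BR

variable {Γ : Type} [Group Γ] [MulAction Γ Pl] {D : Set Pl}

private theorem M10_move (hH : Hyp Γ) (γ : Γ) (X Y : Pl) : Bh (γ • X) Y = Bh X (γ⁻¹ • Y) := by
  have h := hH γ⁻¹ (γ • X) Y
  rw [inv_smul_smul] at h
  exact h.symm

theorem deck_form (hH : Hyp Γ) (γ : Γ) (X : Pl) :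
    Real.exp (γ • X).1 = Bh X (γ⁻¹ • ((0, 1) : Pl)) + Bh X (γ⁻¹ • ((0, -1) : Pl)) -
        2 * Bh X (γ⁻¹ • (0 : Pl)) ∧
      Real.exp (γ • X).1 * (γ • X).2 =
        (Bh X (γ⁻¹ • ((0, -1) : Pl)) - Bh X (γ⁻¹ • ((0, 1) : Pl))) / 2 := by
  refine ⟨?_, ?_⟩
  · rw [Bh_exp (γ • X), M10_move hH, M10_move hH, M10_move hH]
  · rw [Bh_exp' (γ • X), M10_move hH, M10_move hH]

theorem Bh_hol {K : Set Pl} (hK : IsCompact K) (Y : Pl) :
    ∃ B : ℝ, 2 ≤ B ∧ ∀ X ∈ K, H36.Hol (fun z : Pl => Bh z Y) X B := by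
  have hc : IsCompact (Metric.cthickening 1 ((H36.j : Pl → ℂ × ℂ) '' K)) :=
    (hK.image H36.j_cont).cthickening
  have hg : ContinuousOn (fun z => Bc z Y) (Metric.cthickening 1 ((H36.j : Pl → ℂ × ℂ) '' K)) :=
    (Bc_diff Y).continuous.continuousOn
  obtain ⟨C, hC⟩ := hc.exists_bound_of_continuousOn hg
  refine ⟨max 2 C, le_max_left _ _, fun X hX => ⟨fun z => Bc z Y, ?_, ?_, ?_⟩⟩
  · exact (Bc_diff Y).differentiableOn
  · intro z hz
    refine (hC z ?_).trans (le_max_right _ _)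
    refine Metric.mem_cthickening_of_dist_le z (H36.j X) 1 _ (mem_image_of_mem _ hX) ?_
    have h1 : dist z (H36.j X) < 1 / max 2 C := hz
    have h2 : 1 / max 2 C ≤ 1 := by
      rw [div_le_one (by positivity)]
      exact (by norm_num : (1 : ℝ) ≤ 2).trans (le_max_left _ _)
    linarith
  · intro y _
    exact Bc_real y Y

private theorem M10_pow {B : ℝ} (hB : 2 ≤ B) {m n : ℕ} (h : m ≤ n) : B ^ m ≤ B ^ n :=
  pow_le_pow_right₀ (by linarith) h

private theorem M10_two {B : ℝ} (hB : 2 ≤ B) {n : ℕ} (h : 1 ≤ n) : 2 ≤ B ^ n := by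
  have := M10_pow hB h
  rw [pow_one] at this
  linarith

theorem deck_hol (hH : Hyp Γ) {K : Set Pl} (hK : IsCompact K) (γ : Γ) :
    ∃ B : ℝ, 2 ≤ B ∧ ∀ X ∈ K, H36.Hol (fun z : Pl => γ • z) X B := by
  obtain ⟨B1, h1, H1⟩ := Bh_hol hK (γ⁻¹ • ((0, 1) : Pl))
  obtain ⟨B2, h2, H2⟩ := Bh_hol hK (γ⁻¹ • ((0, -1) : Pl))
  obtain ⟨B3, h3, H3⟩ := Bh_hol hK (γ⁻¹ • (0 : Pl))
  set W : Pl → ℝ := fun X => Bh X (γ⁻¹ • ((0, 1) : Pl)) + Bh X (γ⁻¹ • ((0, -1) : Pl)) -
        2 * Bh X (γ⁻¹ • (0 : Pl)) with hW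
  set V : Pl → ℝ := fun X => (2 : ℝ)⁻¹ *
    (Bh X (γ⁻¹ • ((0, -1) : Pl)) - Bh X (γ⁻¹ • ((0, 1) : Pl))) with hV
  have hWe : ∀ X : Pl, Real.exp (γ • X).1 = W X := fun X => (deck_form hH γ X).1
  have hVe : ∀ X : Pl, W X * (γ • X).2 = V X := by
    intro X
    rw [← hWe, (deck_form hH γ X).2, hV]
    ring
  have hWpos : ∀ X, 0 < W X := fun X => by
    rw [← hWe]
    exact Real.exp_pos _
  have hBc : ∀ Y : Pl, Continuous fun X => Bh X Y := fun Y =>
    Bh_cont.comp (continuous_id.prodMk continuous_const)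
  have hWc : Continuous W := ((hBc _).add (hBc _)).sub (continuous_const.mul (hBc _))
  have hWi : ContinuousOn (fun X => (W X)⁻¹) K :=
    (hWc.inv₀ fun X => (hWpos X).ne').continuousOn
  obtain ⟨C, hC⟩ := hK.exists_bound_of_continuousOn hWi
  set B4 : ℝ := max B1 (max B2 B3) with hB4
  have h4 : 2 ≤ B4 := h1.trans (le_max_left _ _)
  have e1 : B1 ≤ B4 := le_max_left _ _
  have e2 : B2 ≤ B4 := (le_max_left _ _).trans (le_max_right _ _)
  have e3 : B3 ≤ B4 := (le_max_right _ _).trans (le_max_right _ _)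
  set B5 : ℝ := max (B4 ^ 4) C with hB5
  have h5 : 2 ≤ B5 := (M10_two h4 (by norm_num)).trans (le_max_left _ _)
  refine ⟨B5 ^ 12, M10_two h5 (by norm_num), fun X hX => ?_⟩
  have a1 : H36.Hol (fun z : Pl => Bh z (γ⁻¹ • ((0, 1) : Pl))) X B4 :=
    H36.Hol_mono (by linarith) e1 (H1 X hX)
  have a2 : H36.Hol (fun z : Pl => Bh z (γ⁻¹ • ((0, -1) : Pl))) X B4 :=
    H36.Hol_mono (by linarith) e2 (H2 X hX)
  have a3 : H36.Hol (fun z : Pl => Bh z (γ⁻¹ • (0 : Pl))) X B4 :=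
    H36.Hol_mono (by linarith) e3 (H3 X hX)
  have c2 : H36.Hol (fun _ : Pl => (2 : ℝ)) X B4 :=
    H36.Hol_const 2 (by rw [Real.norm_eq_abs, abs_of_pos (by norm_num : (0 : ℝ) < 2)]; exact h4)
  have c2' : H36.Hol (fun _ : Pl => (2 : ℝ)⁻¹) X (B4 ^ 2) :=
    H36.Hol_const _ (by
      rw [Real.norm_eq_abs, abs_of_pos (by norm_num : (0 : ℝ) < (2 : ℝ)⁻¹)]
      have := M10_two h4 (n := 2) (by norm_num)
      linarith)
  have w1 : H36.Hol W X (B4 ^ 4) := by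
    have s1 := H36.Hol_add h4 a1 a2
    have s2 := H36.Hol_mul h4 c2 a3
    have s3 := H36.Hol_sub (M10_two h4 (by norm_num)) s1 s2
    rw [← pow_mul] at s3
    exact s3
  have v1 : H36.Hol V X (B4 ^ 4) := by
    have s1 := H36.Hol_sub h4 a2 a1
    have s3 := H36.Hol_mul (M10_two h4 (by norm_num)) c2' s1
    rw [← pow_mul] at s3
    exact s3
  have p4 : 0 < B4 ^ 4 := by positivity
  have w2 : H36.Hol W X B5 := H36.Hol_mono p4 (le_max_left _ _) w1
  have v2 : H36.Hol V X B5 := H36.Hol_mono p4 (le_max_left _ _) v1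
  have hCX : (W X)⁻¹ ≤ B5 := by
    have := hC X hX
    rw [Real.norm_eq_abs] at this
    exact ((le_abs_self _).trans this).trans (le_max_right _ _)
  have hl : H36.Hol (fun y => Real.log (W y)) X (B5 ^ 6) := H36.Hol_log h5 w2 (hWpos X) hCX
  have hi : H36.Hol (fun y => (W y)⁻¹) X (B5 ^ 6) :=
    H36.Hol_inv h5 w2 (hWpos X).ne' (by rw [abs_of_pos (hWpos X)]; exact hCX)
  have v3 : H36.Hol V X (B5 ^ 6) := by
    refine H36.Hol_mono (by linarith) ?_ v2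
    have := M10_pow h5 (m := 1) (n := 6) (by norm_num)
    rwa [pow_one] at this
  have hq : H36.Hol (fun y => V y * (W y)⁻¹) X (B5 ^ 12) := by
    have := H36.Hol_mul (M10_two h5 (by norm_num)) v3 hi
    rwa [← pow_mul] at this
  have hl' : H36.Hol (fun y => Real.log (W y)) X (B5 ^ 12) :=
    H36.Hol_mono (by positivity) (M10_pow h5 (by norm_num)) hl
  refine H36.Hol_congr (fun y => ?_) (H36.Hol_prod hl' hq)
  refine Prod.ext ?_ ?_
  · change Real.log (W y) = (γ • y).1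
    rw [← hWe, Real.log_exp]
  · change V y * (W y)⁻¹ = (γ • y).2
    rw [← hVe]
    have := (hWpos y).ne'
    field_simp

theorem mH_hol {K : Set Pl} (hK : IsCompact K) :
    ∃ B : ℝ, 2 ≤ B ∧ ∀ X ∈ K, H36.Hol mH X B := by
  obtain ⟨C, hC⟩ := hK.exists_bound_of_continuousOn (f := fun X : Pl => X) continuous_id.continuousOn
  have he : ContinuousOn (fun X : Pl => Real.exp (2 * X.1)) K := by
    apply Continuous.continuousOn
    fun_prop
  obtain ⟨C', hC'⟩ := hK.exists_bound_of_continuousOn he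
  set B0 : ℝ := max 2 (max (C + 1) C') with hB0
  have h0 : 2 ≤ B0 := le_max_left _ _
  have e1 : C + 1 ≤ B0 := (le_max_left _ _).trans (le_max_right _ _)
  have e2 : C' ≤ B0 := (le_max_right _ _).trans (le_max_right _ _)
  have e3 : B0 ≤ B0 ^ 2 := by
    have := M10_pow h0 (m := 1) (n := 2) (by norm_num)
    rwa [pow_one] at this
  refine ⟨(B0 ^ 2) ^ 6, M10_two (M10_two h0 (by norm_num)) (by norm_num), fun X hX => ?_⟩
  have a1 : H36.Hol (fun z : Pl => z) X B0 :=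
    H36.Hol_id (by linarith) (by have := hC X hX; linarith)
  have a2 : H36.Hol (fun z : Pl => z.1) X B0 := H36.Hol_fst a1
  have c2 : H36.Hol (fun _ : Pl => (2 : ℝ)) X B0 :=
    H36.Hol_const 2 (by rw [Real.norm_eq_abs, abs_of_pos (by norm_num : (0 : ℝ) < 2)]; exact h0)
  have a3 : H36.Hol (fun z : Pl => 2 * z.1) X (B0 ^ 2) := H36.Hol_mul h0 c2 a2
  have a4 : H36.Hol (fun z : Pl => Real.exp (2 * z.1)) X ((B0 ^ 2) ^ 6) := by
    refine H36.Hol_exp (M10_two h0 (by norm_num)) a3 ?_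
    have := hC' X hX
    rw [Real.norm_eq_abs] at this
    exact (((le_abs_self _).trans this).trans e2).trans e3
  have t2 : 2 ≤ (B0 ^ 2) ^ 6 := M10_two (M10_two h0 (by norm_num)) (by norm_num)
  have c1 : H36.Hol (fun _ : Pl => (1 : ℝ)) X ((B0 ^ 2) ^ 6) :=
    H36.Hol_const 1 (by rw [norm_one]; linarith)
  have c0 : H36.Hol (fun _ : Pl => (0 : ℝ)) X ((B0 ^ 2) ^ 6) :=
    H36.Hol_const 0 (by rw [norm_zero]; linarith)
  exact H36.Hol_congr (fun y => rfl) (H36.Hol_prod c1 (H36.Hol_prod c0 a4))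

end B36
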