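import Pool.Agent.LibBE36M.M1a

/-! ROW M1b : the hyperbolic metric. MEDIUM. -/

open MeasureTheory Set Filter Topology
open scoped ContDiff

namespace B36

open BGS BR

variable {Γ : Type} [Group Γ] [MulAction Γ Pl] {D : Set Pl}

theorem mH_smooth : ContDiff ℝ ∞ mH := by
  unfold mH
  fun_prop

theorem mH_dt (z : Pl) : dt (mH z) = Real.exp (2 * z.1) := by
  simp [dt, mH]

theorem mH_sqrt (z : Pl) : √(dt (mH z)) = Real.exp z.1 := by
  rw [mH_dt, show (2 : ℝ) * z.1 = z.1 + z.1 by ring, Real.exp_add, Real.sqrt_mul_self (Real.exp_pos _).le]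

private theorem M1b_fd (c : ℝ) (z : Pl) :
    HasFDerivAt (fun w : Pl => c * Real.exp (2 * w.1))
      ((c * (Real.exp (2 * z.1) * 2)) • ContinuousLinearMap.fst ℝ ℝ ℝ) z := by
  have h1 : HasDerivAt (fun t : ℝ => c * Real.exp (2 * t)) (c * (Real.exp (2 * z.1) * 2)) z.1 := by
    have h := ((hasDerivAt_id z.1).const_mul 2).exp.const_mul c
    simpa using h
  exact h1.comp_hasFDerivAt z hasFDerivAt_fst

private theorem M1b_dx (c : ℝ) (z : Pl) :
    dx (fun w : Pl => c * Real.exp (2 * w.1)) z = (2 * c) * Real.exp (2 * z.1) := by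
  unfold dx
  rw [(M1b_fd c z).fderiv]
  simp
  ring

private theorem M1b_dy (c : ℝ) (z : Pl) :
    dy (fun w : Pl => c * Real.exp (2 * w.1)) z = 0 := by
  unfold dy
  rw [(M1b_fd c z).fderiv]
  simp

private theorem M1b_dxc (c : ℝ) : dx (fun _ : Pl => c) = fun _ => 0 := by
  funext z; unfold dx; simp

private theorem M1b_dyc (c : ℝ) : dy (fun _ : Pl => c) = fun _ => 0 := by
  funext z; unfold dy; simp

theorem mH_curv (z : Pl) : curv mH z = -1 := by
  have hG : (fun w : Pl => (mH w).2.2) = fun w : Pl => 1 * Real.exp (2 * w.1) := by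
    funext w; simp [mH]
  have hE : (fun w : Pl => (mH w).1) = fun _ : Pl => (1 : ℝ) := by funext w; rfl
  have hF : (fun w : Pl => (mH w).2.1) = fun _ : Pl => (0 : ℝ) := by funext w; rfl
  have hdG : dx (fun w : Pl => 1 * Real.exp (2 * w.1)) = fun w : Pl => 2 * Real.exp (2 * w.1) := by
    funext w; rw [M1b_dx]; ring
  have hdyG : dy (fun w : Pl => 1 * Real.exp (2 * w.1)) z = 0 := M1b_dy 1 z
  have hdG' : dx (fun w : Pl => 2 * Real.exp (2 * w.1)) z = 4 * Real.exp (2 * z.1) := by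
    rw [M1b_dx]; ring
  unfold curv
  simp only [hG, hE, hF, hdG, hdG', hdyG, M1b_dxc, M1b_dyc, mH_dt, Matrix.det_fin_three]
  have hp : Real.exp (2 * z.1) ≠ 0 := (Real.exp_pos _).ne'
  have e1 : (mH z).1 = 1 := rfl
  have e2 : (mH z).2.1 = 0 := rfl
  have e3 : (mH z).2.2 = Real.exp (2 * z.1) := rfl
  simp [Matrix.of_apply, e1, e2, e3]
  field_simp
  ring

/-- The metric is the second derivative of `Bh`. -/
theorem mH_lim {c : ℝ → Pl} {X v : Pl} (hc : HasDerivAt c v 0) (h0 : c 0 = X) :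
    Tendsto (fun t : ℝ => 2 * (Bh X (c t) - 1) / t ^ 2) (𝓝[≠] 0) (𝓝 (qf (mH X) v)) := by
  have hc1 : HasDerivAt (fun t => (c t).1) v.1 0 := hc.fst
  have hc2 : HasDerivAt (fun t => (c t).2) v.2 0 := hc.snd
  have hf1 : HasDerivAt (fun t => Real.sinh ((X.1 - (c t).1) / 2)) (-v.1 / 2) 0 := by
    have h := ((hc1.const_sub X.1).div_const 2).sinh
    rw [h0] at h
    simpa using h
  have hf2 : HasDerivAt (fun t => X.2 - (c t).2) (-v.2) 0 := hc2.const_sub X.2
  have s1 := hasDerivAt_iff_tendsto_slope.1 hf1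
  have s2 := hasDerivAt_iff_tendsto_slope.1 hf2
  have hcont : ContinuousAt (fun t => Real.exp (X.1 + (c t).1)) 0 :=
    Real.continuous_exp.continuousAt.comp (continuousAt_const.add hc1.continuousAt)
  have s3 : Tendsto (fun t => Real.exp (X.1 + (c t).1)) (𝓝[≠] 0) (𝓝 (Real.exp (2 * X.1))) := by
    have h := hcont.tendsto.mono_left (nhdsWithin_le_nhds (s := {(0 : ℝ)}ᶜ))
    rw [h0] at h
    rwa [show X.1 + X.1 = 2 * X.1 by ring] at h
  have h := ((s1.pow 2).const_mul 4).add (s3.mul (s2.pow 2))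
  have he : 4 * (-v.1 / 2) ^ 2 + Real.exp (2 * X.1) * (-v.2) ^ 2 = qf (mH X) v := by
    simp only [qf, mH]; ring
  rw [he] at h
  refine h.congr' ?_
  filter_upwards [self_mem_nhdsWithin] with t ht
  have ht0 : t ≠ 0 := ht
  simp only [slope, vsub_eq_sub, sub_zero, smul_eq_mul, h0, sub_self, zero_div, Real.sinh_zero, Bh]
  have hcosh : Real.cosh (X.1 - (c t).1) = 1 + 2 * Real.sinh ((X.1 - (c t).1) / 2) ^ 2 := by
    have h1 : X.1 - (c t).1 = 2 * ((X.1 - (c t).1) / 2) := by ring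
    conv_lhs => rw [h1]
    rw [Real.cosh_two_mul, Real.cosh_sq]
    ring
  rw [hcosh]
  field_simp
  ring

theorem mH_inv (hX : Surface Γ D) (hH : Hyp Γ) (γ : Γ) (z v : Pl) :
    qf (mH (γ • z)) (fderiv ℝ (fun w : Pl => γ • w) z v) = qf (mH z) v := by
  have hc : HasDerivAt (fun t : ℝ => z + t • v) v 0 := by
    have h := ((hasDerivAt_id (0 : ℝ)).smul_const v).const_add z
    simpa using h
  have h0 : (fun t : ℝ => z + t • v) 0 = z := by simp
  have hd : HasFDerivAt (fun w : Pl => γ • w) (fderiv ℝ (fun w : Pl => γ • w) z) z :=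
    ((hX.smooth γ).differentiable (by simp) z).hasFDerivAt
  have hc' : HasDerivAt (fun t : ℝ => γ • (z + t • v)) (fderiv ℝ (fun w : Pl => γ • w) z v) 0 := by
    have hd' : HasFDerivAt (fun w : Pl => γ • w) (fderiv ℝ (fun w : Pl => γ • w) z)
        ((fun t : ℝ => z + t • v) 0) := by rw [h0]; exact hd
    exact hd'.comp_hasDerivAt (0 : ℝ) hc
  have l1 := mH_lim hc' (X := γ • z) (by simp)
  have l2 := mH_lim hc h0
  have he : (fun t : ℝ => 2 * (Bh (γ • z) (γ • (z + t • v)) - 1) / t ^ 2) =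
      fun t : ℝ => 2 * (Bh z (z + t • v) - 1) / t ^ 2 := by
    funext t
    rw [hH]
  rw [he] at l1
  exact tendsto_nhds_unique l1 l2

theorem mH_HM (hX : Surface Γ D) (hH : Hyp Γ) : HM Γ mH where
  smooth := mH_smooth
  pos := fun z => ⟨by simp [mH], by rw [mH_dt]; exact Real.exp_pos _⟩
  inv := mH_inv hX hH
  neg := fun z => by rw [mH_curv]; norm_num

private theorem M1b_det (hX : Surface Γ D) (hH : Hyp Γ) (γ : Γ) (z : Pl) :
    |(fderiv ℝ (fun w : Pl => γ • w) z).det| * Real.exp (γ • z).1 = Real.exp z.1 := by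
  set A := fderiv ℝ (fun w : Pl => γ • w) z with hA
  have hi := mH_inv hX hH γ z
  have h10 := hi (1, 0)
  have h01 := hi (0, 1)
  have h11 := hi (1, 1)
  have h11' : A (1, 1) = A (1, 0) + A (0, 1) := by
    rw [← map_add]; simp
  rw [← hA] at h10 h01 h11
  rw [h11'] at h11
  simp only [qf, mH, Prod.fst_add, Prod.snd_add] at h10 h01 h11
  have hdet : A.det = (A (1, 0)).1 * (A (0, 1)).2 - (A (0, 1)).1 * (A (1, 0)).2 := Cover_det A
  set g' := Real.exp (2 * (γ • z).1) with hg'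
  set g := Real.exp (2 * z.1) with hg
  have hd' : g = A.det ^ 2 * g' := by
    rw [hdet]
    have e1 : (A (1, 0)).1 ^ 2 + g' * (A (1, 0)).2 ^ 2 = 1 := by linarith
    have e2 : (A (0, 1)).1 ^ 2 + g' * (A (0, 1)).2 ^ 2 = g := by linarith
    have e3 : (A (1, 0)).1 * (A (0, 1)).1 + g' * (A (1, 0)).2 * (A (0, 1)).2 = 0 := by
      nlinarith
    have e4 : g = ((A (1, 0)).1 ^ 2 + g' * (A (1, 0)).2 ^ 2) * ((A (0, 1)).1 ^ 2 + g' * (A (0, 1)).2 ^ 2) -
        ((A (1, 0)).1 * (A (0, 1)).1 + g' * (A (1, 0)).2 * (A (0, 1)).2) ^ 2 := by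
      rw [e1, e2, e3]; ring
    rw [e4]
    ring
  have s1 : Real.exp z.1 = √g := by
    rw [hg, ← mH_dt, mH_sqrt]
  have s2 : Real.exp (γ • z).1 = √g' := by
    rw [hg', ← mH_dt, mH_sqrt]
  rw [s1, s2, hd', Real.sqrt_mul (sq_nonneg _), Real.sqrt_sq_eq_abs]

/-- The deck transformations preserve the area. -/
theorem mH_area (hX : Surface Γ D) (hH : Hyp Γ) (γ : Γ) (f : Pl → ℝ) :
    ∫ Y : Pl, f (γ • Y) * Real.exp Y.1 = ∫ Y : Pl, f Y * Real.exp Y.1 := by
  have him : (fun w : Pl => γ • w) '' univ = univ := by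
    rw [image_univ]
    exact (MulAction.bijective γ).surjective.range_eq
  have h := integral_image_eq_integral_abs_det_fderiv_smul volume (s := (univ : Set Pl)) MeasurableSet.univ
    (f := fun w : Pl => γ • w) (f' := fun z => fderiv ℝ (fun w : Pl => γ • w) z)
    (fun z _ => ((hX.smooth γ).differentiable (by simp) z).hasFDerivAt.hasFDerivWithinAt)
    (Cover_inj γ).injOn (fun Y => f Y * Real.exp Y.1)
  rw [him] at h
  simp only [Measure.restrict_univ, smul_eq_mul] at h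
  rw [h]
  refine integral_congr_ae (Eventually.of_forall fun Y => ?_)
  simp only []
  rw [← M1b_det hX hH γ Y]
  ring

end B36
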