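import Pool.Agent.LibBE36M.M9
import Pool.Agent.LibBE36M.M10
import Pool.Agent.LibBE36M.M1b
import Pool.Agent.LibBE36.Defs

/-! ROW M11 : the mollified families are families `CH`. SHORT/MEDIUM.
PLAN. `HE f x r B` (namespace BE36) is `∃ g, H36.Ext f (ball (j x) r) B g` (unfold `HE`, `HO`; the instances of `CX` and `Cxf` on `ℝ`, products are the same functions, `rfl` componentwise). `hm`, `hG`:
`mH_hol`, `deck_hol` with `A = B`, `hc A 0 = A`. `hs`: `path_Mo` on `K`; `A / e ≤ A exp (A log (1 / e))` for `e ≤ 1`, `A ≥ 1`. -/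

open MeasureTheory Set Filter Topology
open scoped ContDiff

namespace B36

open BGS BR

variable {Γ : Type} [Group Γ] [MulAction Γ Pl] {D : Set Pl}

/-- The two definitions of holomorphic extensions agree. -/
private theorem M11_conv {E F Ec Fc : Type} [NormedAddCommGroup E] [NormedSpace ℝ E]
    [NormedAddCommGroup F] [NormedSpace ℝ F] [NormedAddCommGroup Ec] [NormedSpace ℂ Ec]
    [NormedAddCommGroup Fc] [NormedSpace ℂ Fc] [H36.Cxf E Ec] [H36.Cxf F Fc] [BE36.CX E Ec]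
    [BE36.CX F Fc] (hE : ∀ x : E, BE36.CX.of x = H36.j x) (hF : ∀ x : F, BE36.CX.of x = H36.j x)
    {f : E → F} {x : E} {B : ℝ} (h : H36.Hol f x B) : BE36.HE f x B⁻¹ B := by
  obtain ⟨g, hg⟩ := h
  refine ⟨g, ?_, ?_, ?_⟩
  · rw [hE, inv_eq_one_div]
    exact hg.diff
  · rw [hE, inv_eq_one_div]
    exact hg.bound
  · rw [hE x, inv_eq_one_div]
    intro y hy
    rw [hE y] at hy ⊢
    rw [hF]
    exact hg.ext y hy

private theorem M11_hc0 (A : ℝ) : BE36.hc A 0 = A := by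
  unfold BE36.hc
  rw [mul_zero, Real.exp_zero, mul_one]

theorem CH_Mo (hX : Surface Γ D) (hH : Hyp Γ) {ι : Type} {P : ι → ℕ} {e : ι → ℝ}
    {b d : ι → Pl → ℝ} {C : ℝ} (he : ∀ i, 0 < e i) (he1 : ∀ i, 2 ^ P i * e i ≤ 1)
    (hb : ∀ i, b i ∈ Test Γ) (hd : ∀ i, d i ∈ Test Γ) (hbC : ∀ i, ∀ z ∈ closure D, |b i z| ≤ C)
    (hdC : ∀ i, ∀ z ∈ closure D, |d i z| ≤ C) {s : ι → ℝ × Pl → ℝ}
    (hs : ∀ i x, s i x =
      B35.nx D mH (fun w => Mo (P i) (e i) (b i) w + thd x.1 * Mo (P i) (e i) (d i) w) x.2)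
    {α β : ℝ} (cf : BE.CF Γ D mH α β s) :
    BE36.CH Γ D mH α β s (fun i => Real.log (1 / e i)) := by
  have he1' : ∀ i, e i ≤ 1 := fun i => by
    have h1 : (1 : ℝ) ≤ 2 ^ P i := one_le_pow₀ (by norm_num)
    have h2 := mul_le_mul_of_nonneg_right h1 (he i).le
    rw [one_mul] at h2
    exact h2.trans (he1 i)
  have hlog : ∀ i, 0 ≤ Real.log (1 / e i) := fun i =>
    Real.log_nonneg (by rw [le_div_iff₀ (he i), one_mul]; exact he1' i)
  refine ⟨cf, hlog, ?_, ?_, ?_⟩
  · intro K hK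
    obtain ⟨B, hB, h⟩ := mH_hol hK
    refine ⟨B, by linarith, fun z => ?_⟩
    have h1 : BE36.HE mH (z : Pl) (BE36.hc B 0)⁻¹ (BE36.hc B 0) := by
      rw [M11_hc0]
      exact M11_conv (fun _ => rfl) (fun _ => rfl) (h z z.2)
    exact h1
  · intro γ K hK
    obtain ⟨B, hB, h⟩ := deck_hol hH hK γ
    refine ⟨B, by linarith, fun z => ?_⟩
    have h1 : BE36.HE (fun w : Pl => γ • w) (z : Pl) (BE36.hc B 0)⁻¹ (BE36.hc B 0) := by
      rw [M11_hc0]
      exact M11_conv (fun _ => rfl) (fun _ => rfl) (h z z.2)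
    exact h1
  · intro K hK
    obtain ⟨A, hA, h⟩ := path_Mo hX hK C
    refine ⟨A, by linarith, fun q => ?_⟩
    have h1 := h (P q.i) (e q.i) (he q.i) (he1 q.i) (b q.i) (hb q.i) (d q.i) (hd q.i) (hbC q.i)
      (hdC q.i) q.z q.hz q.p (by simpa using q.hp)
    have h2 : A / e q.i ≤ BE36.hc A (Real.log (1 / e q.i)) := by
      unfold BE36.hc
      rw [div_eq_mul_one_div]
      refine mul_le_mul_of_nonneg_left ?_ (by linarith)
      calc 1 / e q.i = Real.exp (Real.log (1 / e q.i)) := by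
            rw [Real.exp_log (by have := he q.i; positivity)]
        _ ≤ Real.exp (A * Real.log (1 / e q.i)) := by
            refine Real.exp_le_exp.2 ?_
            have := hlog q.i
            nlinarith
    have h3 := H36.Hol_mono (div_pos (by linarith) (he q.i)) h2 h1
    have h4 : s q.i = fun x : ℝ × Pl =>
        B35.nx D mH (fun w => Mo (P q.i) (e q.i) (b q.i) w +
          thd x.1 * Mo (P q.i) (e q.i) (d q.i) w) x.2 := funext fun x => hs q.i x
    have h5 : BE36.HE (s q.i) (q.p, q.z) (BE36.hc A (Real.log (1 / e q.i)))⁻¹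
        (BE36.hc A (Real.log (1 / e q.i))) := by
      rw [h4]
      exact M11_conv (fun _ => rfl) (fun _ => rfl) h3
    exact h5

end B36
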