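import Pool.Agent.LibBE36M.Defs

/-! ROW M1a : algebra of the model. SHORT/MEDIUM, only Mathlib.
PLAN. `Bh_tr`: `exp (X.1 + Z.1 + (X.1 + Z'.1)) * (exp (-X.1) * (Z.2 - Z'.2)) ^ 2 = exp (Z.1 + Z'.1) * (Z.2 - Z'.2) ^ 2`. `Bh_tp`: `Bh_tr` with `X = tr X 0` and
`cosh (2 a) = 1 + 2 sinh a ^ 2`, `sinh (arsinh x) = x`. `Bh_lc`: expand cosh and the square. `Bh_exp`, `Bh_exp'`: from `Bh_lc` at the points `(0, ± 1)`, `0` (`ring`).
`Bh_cpt`: `X ∈ K` bounded, `exp |X.1 - Y.1| ≤ 2 Bh` bounds `Y.1`, then `(X.2 - Y.2) ^ 2 ≤ 2 c exp (-X.1 - Y.1)`; take a closed ball. -/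

open MeasureTheory Set Filter Topology
open scoped ContDiff

namespace B36

open BGS BR

theorem Bh_comm (X Y : Pl) : Bh X Y = Bh Y X := by
  unfold Bh
  rw [← Real.cosh_neg, neg_sub, add_comm X.1 Y.1]
  ring

theorem Bh_one (X Y : Pl) : 1 ≤ Bh X Y := by
  unfold Bh
  have h1 := Real.one_le_cosh (X.1 - Y.1)
  have h2 : 0 ≤ Real.exp (X.1 + Y.1) * (X.2 - Y.2) ^ 2 / 2 := by positivity
  linarith

theorem Bh_tr (X Z Z' : Pl) : Bh (tr X Z) (tr X Z') = Bh Z Z' := by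
  unfold Bh tr
  simp only
  have e1 : X.1 + Z.1 - (X.1 + Z'.1) = Z.1 - Z'.1 := by ring
  have e2 : Real.exp (X.1 + Z.1 + (X.1 + Z'.1)) = Real.exp (Z.1 + Z'.1) * Real.exp X.1 ^ 2 := by
    rw [← Real.exp_nat_mul, ← Real.exp_add]
    congr 1
    push_cast
    ring
  have e3 : Real.exp X.1 * Real.exp (-X.1) = 1 := by
    rw [← Real.exp_add, add_neg_cancel, Real.exp_zero]
  rw [e1, e2]
  have e4 : Real.exp (Z.1 + Z'.1) * Real.exp X.1 ^ 2 *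
      (X.2 + Real.exp (-X.1) * Z.2 - (X.2 + Real.exp (-X.1) * Z'.2)) ^ 2 =
      Real.exp (Z.1 + Z'.1) * (Z.2 - Z'.2) ^ 2 * (Real.exp X.1 * Real.exp (-X.1)) ^ 2 := by ring
  rw [e4, e3]
  ring

theorem tr_zero (X : Pl) : tr X 0 = X := by
  unfold tr
  simp

theorem psi_zero : psi 0 = 0 := by
  unfold psi
  simp

/-- The coordinates centred at `X`. -/
theorem Bh_tp (X w : Pl) : Bh X (tr X (psi w)) = 1 + (w.1 ^ 2 + w.2 ^ 2) / 2 := by
  have h0 : Bh X (tr X (psi w)) = Bh (tr X 0) (tr X (psi w)) := by rw [tr_zero]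
  rw [h0, Bh_tr]
  unfold Bh psi
  simp only [Prod.fst_zero, Prod.snd_zero, zero_sub, zero_add, Real.cosh_neg]
  have e1 : Real.cosh (2 * Real.arsinh (w.1 / 2)) = 1 + 2 * (w.1 / 2) ^ 2 := by
    rw [Real.cosh_two_mul, Real.cosh_sq, Real.sinh_arsinh]
    ring
  have e2 : Real.exp (2 * Real.arsinh (w.1 / 2)) * (-(Real.exp (-Real.arsinh (w.1 / 2)) * w.2)) ^ 2 =
      w.2 ^ 2 := by
    have e3 : Real.exp (2 * Real.arsinh (w.1 / 2)) = Real.exp (Real.arsinh (w.1 / 2)) ^ 2 := by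
      rw [← Real.exp_nat_mul]
      push_cast
      rfl
    have e4 : Real.exp (Real.arsinh (w.1 / 2)) * Real.exp (-Real.arsinh (w.1 / 2)) = 1 := by
      rw [← Real.exp_add, add_neg_cancel, Real.exp_zero]
    rw [e3]
    calc _ = (Real.exp (Real.arsinh (w.1 / 2)) * Real.exp (-Real.arsinh (w.1 / 2))) ^ 2 * w.2 ^ 2 := by ring
      _ = _ := by rw [e4]; ring
  rw [e1, e2]
  ring

/-- The light cone coordinates. -/
theorem Bh_lc (X Y : Pl) : Bh X Y =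
    (Real.exp (-X.1) + Real.exp X.1 * X.2 ^ 2) * Real.exp Y.1 / 2 -
      Real.exp X.1 * X.2 * (Real.exp Y.1 * Y.2) +
      Real.exp X.1 * (Real.exp (-Y.1) + Real.exp Y.1 * Y.2 ^ 2) / 2 := by
  unfold Bh
  rw [Real.cosh_eq, neg_sub, Real.exp_add, Real.exp_sub, Real.exp_sub, Real.exp_neg, Real.exp_neg]
  have h1 := (Real.exp_pos X.1).ne'
  have h2 := (Real.exp_pos Y.1).ne'
  field_simp
  ring

theorem Bh_exp (X : Pl) : Real.exp X.1 = Bh X (0, 1) + Bh X (0, -1) - 2 * Bh X 0 := by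
  rw [Bh_lc X (0, 1), Bh_lc X (0, -1), Bh_lc X 0]
  simp only [Prod.fst_zero, Prod.snd_zero, neg_zero, Real.exp_zero]
  ring

theorem Bh_exp' (X : Pl) : Real.exp X.1 * X.2 = (Bh X (0, -1) - Bh X (0, 1)) / 2 := by
  rw [Bh_lc X (0, 1), Bh_lc X (0, -1)]
  simp only [neg_zero, Real.exp_zero]
  ring

theorem Bh_cont : Continuous fun p : Pl × Pl => Bh p.1 p.2 := by
  unfold Bh
  have h1 : Continuous fun p : Pl × Pl => Real.cosh (p.1.1 - p.2.1) :=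
    Real.continuous_cosh.comp (by fun_prop)
  exact h1.add (by fun_prop)

private theorem M1a_bd {K : Set Pl} (hK : IsCompact K) :
    ∃ R : ℝ, ∀ X ∈ K, |X.1| ≤ R ∧ |X.2| ≤ R := by
  obtain ⟨R, hR⟩ := hK.isBounded.exists_norm_le
  refine ⟨R, fun X hX => ⟨?_, ?_⟩⟩
  · rw [← Real.norm_eq_abs]
    exact (norm_fst_le X).trans (hR X hX)
  · rw [← Real.norm_eq_abs]
    exact (norm_snd_le X).trans (hR X hX)

private theorem M1a_ex (X Y : Pl) : Real.exp (X.1 - Y.1) ≤ 2 * Bh X Y ∧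
    Real.exp (Y.1 - X.1) ≤ 2 * Bh X Y ∧
    Real.exp (X.1 + Y.1) * (X.2 - Y.2) ^ 2 ≤ 2 * Bh X Y := by
  have h1 : 0 ≤ Real.exp (X.1 + Y.1) * (X.2 - Y.2) ^ 2 / 2 := by positivity
  have h2 := Real.cosh_eq (X.1 - Y.1)
  have h3 := Real.exp_pos (X.1 - Y.1)
  have h4 := Real.exp_pos (-(X.1 - Y.1))
  have h5 := Real.one_le_cosh (X.1 - Y.1)
  unfold Bh
  rw [neg_sub] at h2 h4
  refine ⟨by linarith, by linarith, by linarith⟩

theorem Bh_cpt {K : Set Pl} (hK : IsCompact K) (c : ℝ) :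
    ∃ K' : Set Pl, IsCompact K' ∧ ∀ X ∈ K, ∀ Y, Bh X Y ≤ c → Y ∈ K' := by
  obtain ⟨R, hR⟩ := M1a_bd hK
  have hR0 : ∀ X ∈ K, 0 ≤ R := fun X hX => (abs_nonneg _).trans (hR X hX).1
  obtain ⟨M, hM⟩ : ∃ M, M = 2 * c * Real.exp (R + R + 2 * c) := ⟨_, rfl⟩
  refine ⟨Metric.closedBall 0 (max (R + 2 * c) (R + M + 1)), isCompact_closedBall _ _, ?_⟩
  intro X hX Y hY
  obtain ⟨hX1, hX2⟩ := hR X hX
  obtain ⟨a1, a2, a3⟩ := M1a_ex X Y
  have b1 : |X.1 - Y.1| ≤ 2 * c := by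
    have h1 := Real.add_one_le_exp |X.1 - Y.1|
    have h2 : Real.exp |X.1 - Y.1| ≤ 2 * Bh X Y := by
      rcases abs_cases (X.1 - Y.1) with ⟨h, -⟩ | ⟨h, -⟩
      · rw [h]
        exact a1
      · rw [h, neg_sub]
        exact a2
    linarith
  have b2 : |Y.1| ≤ R + 2 * c := by
    have h1 : |Y.1| ≤ |X.1| + |X.1 - Y.1| := by
      have h2 := abs_sub_le Y.1 X.1 0
      rw [sub_zero, sub_zero, abs_sub_comm Y.1 X.1] at h2
      linarith
    linarith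
  have hc0 : 1 ≤ c := (Bh_one X Y).trans hY
  have b3 : (X.2 - Y.2) ^ 2 ≤ M := by
    have h1 : Real.exp (X.1 + Y.1) * (X.2 - Y.2) ^ 2 ≤ 2 * c := by linarith
    have h2 : (X.2 - Y.2) ^ 2 = Real.exp (-(X.1 + Y.1)) * (Real.exp (X.1 + Y.1) * (X.2 - Y.2) ^ 2) := by
      rw [← mul_assoc, ← Real.exp_add, neg_add_cancel, Real.exp_zero, one_mul]
    have h3 : Real.exp (-(X.1 + Y.1)) ≤ Real.exp (R + R + 2 * c) := by
      apply Real.exp_le_exp.2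
      have h4 := neg_abs_le X.1
      have h5 := neg_abs_le Y.1
      linarith
    rw [h2, hM]
    calc Real.exp (-(X.1 + Y.1)) * (Real.exp (X.1 + Y.1) * (X.2 - Y.2) ^ 2)
        ≤ Real.exp (R + R + 2 * c) * (2 * c) := by
          apply mul_le_mul h3 h1 (by positivity) (Real.exp_pos _).le
      _ = _ := by ring
  have b4 : |X.2 - Y.2| ≤ M + 1 := by
    have h1 := sq_abs (X.2 - Y.2)
    nlinarith [sq_nonneg (|X.2 - Y.2| - 1), abs_nonneg (X.2 - Y.2)]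
  have b5 : |Y.2| ≤ R + M + 1 := by
    have h2 := abs_sub_le Y.2 X.2 0
    rw [sub_zero, sub_zero, abs_sub_comm Y.2 X.2] at h2
    linarith
  rw [mem_closedBall_zero_iff, Prod.norm_def]
  exact max_le_max b2 b5

/-- The exponentials that appear in the kernel. -/
theorem Bh_dom {K : Set Pl} (hK : IsCompact K) : ∃ C : ℝ, 1 ≤ C ∧ ∀ X ∈ K, ∀ Y : Pl,
    Real.exp Y.1 ≤ C * Bh X Y ∧ Real.exp (-Y.1) ≤ C * Bh X Y ∧ Real.exp Y.1 * Y.2 ^ 2 ≤ C * Bh X Y ∧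
      Real.exp Y.1 * |Y.2| ≤ C * Bh X Y := by
  obtain ⟨R0, hR0⟩ := M1a_bd hK
  obtain ⟨R, hR, hR1⟩ : ∃ R : ℝ, R0 ≤ R ∧ 0 ≤ R := ⟨max R0 0, le_max_left _ _, le_max_right _ _⟩
  have hE1 : 1 ≤ Real.exp R := Real.one_le_exp hR1
  refine ⟨(6 + 4 * R ^ 2) * Real.exp R, by nlinarith [sq_nonneg R], ?_⟩
  intro X hX Y
  obtain ⟨hX1', hX2'⟩ := hR0 X hX
  have hX1 : |X.1| ≤ R := hX1'.trans hR
  have hX2 : |X.2| ≤ R := hX2'.trans hR
  obtain ⟨a1, a2, a3⟩ := M1a_ex X Y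
  have hB := Bh_one X Y
  have e1 : Real.exp X.1 ≤ Real.exp R := Real.exp_le_exp.2 ((le_abs_self _).trans hX1)
  have e2 : Real.exp (-X.1) ≤ Real.exp R := Real.exp_le_exp.2 ((neg_le_abs _).trans hX1)
  have c1 : Real.exp Y.1 ≤ 2 * Real.exp R * Bh X Y := by
    have h1 : Real.exp Y.1 = Real.exp X.1 * Real.exp (Y.1 - X.1) := by
      rw [← Real.exp_add]; congr 1; ring
    rw [h1]
    calc Real.exp X.1 * Real.exp (Y.1 - X.1) ≤ Real.exp R * (2 * Bh X Y) :=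
          mul_le_mul e1 a2 (Real.exp_pos _).le (Real.exp_pos _).le
      _ = _ := by ring
  have c2 : Real.exp (-Y.1) ≤ 2 * Real.exp R * Bh X Y := by
    have h1 : Real.exp (-Y.1) = Real.exp (-X.1) * Real.exp (X.1 - Y.1) := by
      rw [← Real.exp_add]; congr 1; ring
    rw [h1]
    calc Real.exp (-X.1) * Real.exp (X.1 - Y.1) ≤ Real.exp R * (2 * Bh X Y) :=
          mul_le_mul e2 a1 (Real.exp_pos _).le (Real.exp_pos _).le
      _ = _ := by ring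
  have c3 : Real.exp Y.1 * (X.2 - Y.2) ^ 2 ≤ 2 * Real.exp R * Bh X Y := by
    have h1 : Real.exp Y.1 * (X.2 - Y.2) ^ 2 =
        Real.exp (-X.1) * (Real.exp (X.1 + Y.1) * (X.2 - Y.2) ^ 2) := by
      rw [← mul_assoc, ← Real.exp_add]
      congr 2
      ring
    rw [h1]
    calc Real.exp (-X.1) * (Real.exp (X.1 + Y.1) * (X.2 - Y.2) ^ 2) ≤ Real.exp R * (2 * Bh X Y) :=
          mul_le_mul e2 a3 (by positivity) (Real.exp_pos _).le
      _ = _ := by ring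
  have hX2s : X.2 ^ 2 ≤ R ^ 2 := by
    rw [← sq_abs]
    exact pow_le_pow_left₀ (abs_nonneg _) hX2 2
  have hEY := Real.exp_pos Y.1
  have c4 : Real.exp Y.1 * Y.2 ^ 2 ≤ (4 + 4 * R ^ 2) * Real.exp R * Bh X Y := by
    have h1 : Y.2 ^ 2 ≤ 2 * (X.2 - Y.2) ^ 2 + 2 * X.2 ^ 2 := by nlinarith [sq_nonneg (2 * X.2 - Y.2)]
    have h2 : Real.exp Y.1 * X.2 ^ 2 ≤ (2 * Real.exp R * Bh X Y) * R ^ 2 :=
      mul_le_mul c1 hX2s (sq_nonneg _) (by positivity)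
    calc Real.exp Y.1 * Y.2 ^ 2 ≤ Real.exp Y.1 * (2 * (X.2 - Y.2) ^ 2 + 2 * X.2 ^ 2) :=
          mul_le_mul_of_nonneg_left h1 hEY.le
      _ = 2 * (Real.exp Y.1 * (X.2 - Y.2) ^ 2) + 2 * (Real.exp Y.1 * X.2 ^ 2) := by ring
      _ ≤ 2 * (2 * Real.exp R * Bh X Y) + 2 * ((2 * Real.exp R * Bh X Y) * R ^ 2) := by linarith
      _ = _ := by ring
  have hEB : 0 ≤ Real.exp R * Bh X Y := by positivity
  have hR2 : 0 ≤ R ^ 2 * (Real.exp R * Bh X Y) := by positivity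
  refine ⟨?_, ?_, ?_, ?_⟩
  · nlinarith
  · nlinarith
  · nlinarith
  · have h1 : |Y.2| ≤ 1 + Y.2 ^ 2 := by
      have h2 := sq_abs Y.2
      nlinarith [sq_nonneg (|Y.2| - 1), abs_nonneg Y.2]
    have h3 := mul_le_mul_of_nonneg_left h1 hEY.le
    nlinarith

theorem rhw_smooth : ContDiff ℝ ∞ rhw := by
  unfold rhw
  have h1 : ContDiff ℝ ∞ fun t : ℝ => √(4 + t ^ 2) :=
    ContDiff.sqrt (by fun_prop) (fun t => by positivity)
  exact contDiff_const.add (contDiff_id.div h1 fun t => by positivity)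

theorem rhw_mem (t : ℝ) : 0 < rhw t ∧ rhw t < 2 := by
  have h0 : 0 < √(4 + t ^ 2) := by positivity
  have h1 : |t| < √(4 + t ^ 2) := by
    apply Real.lt_sqrt_of_sq_lt
    rw [sq_abs]
    linarith
  obtain ⟨h2, h3⟩ := abs_lt.1 h1
  unfold rhw
  constructor
  · have h4 : -1 < t / √(4 + t ^ 2) := by
      rw [lt_div_iff₀ h0]
      linarith
    linarith
  · have h4 : t / √(4 + t ^ 2) < 1 := by
      rw [div_lt_iff₀ h0]
      linarith
    linarith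

theorem rhw_neg (t : ℝ) : rhw t + rhw (-t) = 2 := by
  unfold rhw
  rw [neg_sq]
  ring

theorem rhw_zero : rhw 0 = 1 := by
  unfold rhw
  simp

theorem tp_smooth : ContDiff ℝ ∞ fun p : Pl × Pl => tr p.1 (psi p.2) := by
  unfold tr psi
  have h1 : ContDiff ℝ ∞ fun p : Pl × Pl => Real.arsinh (p.2.1 / 2) :=
    Real.contDiff_arsinh.comp (by fun_prop)
  refine ContDiff.prodMk ?_ ?_
  · exact (by fun_prop : ContDiff ℝ ∞ fun p : Pl × Pl => p.1.1).add (contDiff_const.mul h1)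
  · have h2 : ContDiff ℝ ∞ fun p : Pl × Pl => Real.exp (-Real.arsinh (p.2.1 / 2)) := h1.neg.exp
    have h3 : ContDiff ℝ ∞ fun p : Pl × Pl => Real.exp (-p.1.1) := by fun_prop
    exact (by fun_prop : ContDiff ℝ ∞ fun p : Pl × Pl => p.1.2).add
      (h3.mul (h2.mul (by fun_prop)))

end B36
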