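import Pool.Agent.LibBE36M.M1a

/-! ROW M2 : change of variables. MEDIUM, only Mathlib.
PLAN. `T w = tr X (psi w)` is a bijection of the plane (`w.1 = 2 sinh (Z.1 / 2)`, `w.2 = exp (Z.1 / 2) * Z.2`), its derivative is triangular with the determinant
`(1 / √(1 + w.1 ^ 2 / 4)) * exp (-X.1) * exp (-arsinh (w.1 / 2))`, and `exp (T w).1 * |det| = rhw w.1` because `exp (arsinh x) = x + √(1 + x ^ 2)` (`Real.exp_arsinh`).
`integral_image_eq_integral_abs_det_fderiv_smul volume MeasurableSet.univ ..` and `integrableOn_image_iff_integrableOn_abs_det_fderiv_smul` (no integrability hypotheses needed).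
The determinant of a map `Pl → Pl`: find a lemma of the library (`grep -rn \.det Pool/Agent/LibBR70 Pool/Agent/LibBE66`) or use `LinearMap.det_toLin` with `Basis.finTwoProd`.
`Kr_ga`: `tp_int`, then `w = e • z` (`Measure.integral_comp_smul`, `finrank = 2`). `Kr_const`: `∫ gw (z) rhw (e z.1) = 1` by `z → -z` (`rhw_neg`) and `∫ gw = 1` (`gw_int`, product of two
`integral_gaussian`). -/

open MeasureTheory Set Filter Topology
open scoped ContDiff

namespace B36

open BGS BR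

private noncomputable def M2_A (X w : Pl) : Pl →L[ℝ] Pl :=
  ((2 * ((√(1 + (w.1 / 2) ^ 2))⁻¹ * (1 / 2))) • ContinuousLinearMap.fst ℝ ℝ ℝ).prod
    (Real.exp (-X.1) • (Real.exp (-Real.arsinh (w.1 / 2)) • ContinuousLinearMap.snd ℝ ℝ ℝ -
      (w.2 * Real.exp (-Real.arsinh (w.1 / 2)) * ((√(1 + (w.1 / 2) ^ 2))⁻¹ * (1 / 2))) •
        ContinuousLinearMap.fst ℝ ℝ ℝ))

private theorem M2_deriv (X w : Pl) :
    HasFDerivAt (fun w : Pl => tr X (psi w)) (M2_A X w) w := by
  have h1 : HasDerivAt (fun t : ℝ => Real.arsinh (t / 2))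
      ((√(1 + (w.1 / 2) ^ 2))⁻¹ * (1 / 2)) w.1 := by
    have h2 := ((hasDerivAt_id w.1).div_const 2).arsinh
    simpa [div_eq_mul_inv] using h2
  have hf : HasFDerivAt (fun w : Pl => w.1) (ContinuousLinearMap.fst ℝ ℝ ℝ) w := hasFDerivAt_fst
  have hs : HasFDerivAt (fun w : Pl => w.2) (ContinuousLinearMap.snd ℝ ℝ ℝ) w := hasFDerivAt_snd
  have h3 : HasFDerivAt (fun w : Pl => Real.arsinh (w.1 / 2))
      (((√(1 + (w.1 / 2) ^ 2))⁻¹ * (1 / 2)) • ContinuousLinearMap.fst ℝ ℝ ℝ) w :=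
    h1.comp_hasFDerivAt w hf
  have h4 : HasFDerivAt (fun w : Pl => Real.exp (-Real.arsinh (w.1 / 2)))
      (Real.exp (-Real.arsinh (w.1 / 2)) • -(((√(1 + (w.1 / 2) ^ 2))⁻¹ * (1 / 2)) •
        ContinuousLinearMap.fst ℝ ℝ ℝ)) w := h3.neg.exp
  have h5 := h4.mul hs
  have h6 := (h3.const_mul 2).const_add X.1
  have h7 := (h5.const_mul (Real.exp (-X.1))).const_add X.2
  have h8 := h6.prodMk h7
  refine h8.congr_fderiv ?_
  ext <;> simp [M2_A] <;> ring

private theorem M2_det (A : Pl →L[ℝ] Pl) :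
    A.det = (A (1, 0)).1 * (A (0, 1)).2 - (A (0, 1)).1 * (A (1, 0)).2 := by
  have h1 : A.det = LinearMap.det (A : Pl →ₗ[ℝ] Pl) := rfl
  rw [h1, ← LinearMap.det_toMatrix (Module.Basis.finTwoProd ℝ), Matrix.det_fin_two]
  simp [LinearMap.toMatrix_apply]

private theorem M2_dens (X w : Pl) :
    |(M2_A X w).det| * Real.exp (tr X (psi w)).1 = rhw w.1 := by
  have hs : 0 < √(1 + (w.1 / 2) ^ 2) := Real.sqrt_pos.2 (by positivity)
  have h1 : (M2_A X w).det = 2 * ((√(1 + (w.1 / 2) ^ 2))⁻¹ * (1 / 2)) *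
      (Real.exp (-X.1) * Real.exp (-Real.arsinh (w.1 / 2))) := by
    rw [M2_det]
    simp [M2_A]
  have h2 : (tr X (psi w)).1 = X.1 + (Real.arsinh (w.1 / 2) + Real.arsinh (w.1 / 2)) := by
    simp only [tr, psi]
    ring
  rw [h1, abs_of_nonneg (by positivity), h2, Real.exp_add, Real.exp_add, Real.exp_neg, Real.exp_neg]
  have e1 : Real.exp (Real.arsinh (w.1 / 2)) = w.1 / 2 + √(1 + (w.1 / 2) ^ 2) :=
    Real.exp_arsinh _
  have e2 : √(4 + w.1 ^ 2) = 2 * √(1 + (w.1 / 2) ^ 2) := by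
    have : 4 + w.1 ^ 2 = 2 ^ 2 * (1 + (w.1 / 2) ^ 2) := by ring
    rw [this, Real.sqrt_mul (by norm_num), Real.sqrt_sq (by norm_num)]
  have e3 : rhw w.1 = (√(1 + (w.1 / 2) ^ 2))⁻¹ * Real.exp (Real.arsinh (w.1 / 2)) := by
    rw [e1, rhw, e2]
    field_simp
    ring
  rw [e3]
  have := Real.exp_pos (Real.arsinh (w.1 / 2))
  have := Real.exp_pos X.1
  field_simp

private theorem M2_inj (X : Pl) : InjOn (fun w : Pl => tr X (psi w)) univ := by
  intro w _ w' _ h
  simp only [tr, psi, Prod.mk.injEq] at h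
  obtain ⟨h1, h2⟩ := h
  have h3 : Real.arsinh (w.1 / 2) = Real.arsinh (w'.1 / 2) := by linarith
  have h4 : w.1 = w'.1 := by
    have := Real.arsinh_injective h3
    linarith
  have h5 : Real.exp (-X.1) * (Real.exp (-Real.arsinh (w.1 / 2)) * w.2) =
      Real.exp (-X.1) * (Real.exp (-Real.arsinh (w.1 / 2)) * w'.2) := by
    rw [h3] at h2 ⊢
    linarith
  have h6 := mul_left_cancel₀ (Real.exp_pos _).ne' (mul_left_cancel₀ (Real.exp_pos _).ne' h5)
  exact Prod.ext h4 h6

private theorem M2_surj (X : Pl) : (fun w : Pl => tr X (psi w)) '' univ = univ := by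
  rw [image_univ]
  refine range_eq_univ.2 fun Y => ?_
  refine ⟨(2 * Real.sinh ((Y.1 - X.1) / 2),
    Real.exp (X.1) * Real.exp ((Y.1 - X.1) / 2) * (Y.2 - X.2)), ?_⟩
  simp only [tr, psi]
  have h1 : 2 * Real.sinh ((Y.1 - X.1) / 2) / 2 = Real.sinh ((Y.1 - X.1) / 2) := by ring
  rw [h1, Real.arsinh_sinh]
  refine Prod.ext ?_ ?_
  · simp only
    ring
  · simp only
    rw [Real.exp_neg, Real.exp_neg]
    have := Real.exp_pos ((Y.1 - X.1) / 2)
    have := Real.exp_pos X.1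
    field_simp
    ring

theorem tp_int {E : Type} [NormedAddCommGroup E] [NormedSpace ℝ E] (X : Pl) (f : Pl → E) :
    ∫ Y : Pl, Real.exp Y.1 • f Y = ∫ w : Pl, rhw w.1 • f (tr X (psi w)) := by
  have h1 := integral_image_eq_integral_abs_det_fderiv_smul (volume : Measure Pl)
    MeasurableSet.univ (fun w _ => (M2_deriv X w).hasFDerivWithinAt) (M2_inj X)
    (fun Y : Pl => Real.exp Y.1 • f Y)
  rw [M2_surj, setIntegral_univ, setIntegral_univ] at h1
  rw [h1]
  refine integral_congr_ae (Eventually.of_forall fun w => ?_)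
  show |(M2_A X w).det| • Real.exp (tr X (psi w)).1 • f (tr X (psi w)) = _
  rw [smul_smul, M2_dens]

theorem tp_integrable {E : Type} [NormedAddCommGroup E] [NormedSpace ℝ E] (X : Pl) (f : Pl → E) :
    Integrable (fun Y : Pl => Real.exp Y.1 • f Y) ↔
      Integrable fun w : Pl => rhw w.1 • f (tr X (psi w)) := by
  have h1 := integrableOn_image_iff_integrableOn_abs_det_fderiv_smul (volume : Measure Pl)
    MeasurableSet.univ (fun w _ => (M2_deriv X w).hasFDerivWithinAt) (M2_inj X)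
    (fun Y : Pl => Real.exp Y.1 • f Y)
  rw [M2_surj, integrableOn_univ, integrableOn_univ] at h1
  rw [h1]
  refine Iff.of_eq (congrArg (fun g : Pl → E => Integrable g) (funext fun w => ?_))
  show |(M2_A X w).det| • Real.exp (tr X (psi w)).1 • f (tr X (psi w)) = _
  rw [smul_smul, M2_dens]

private theorem M2_gauss {b : ℝ} (hb : 0 < b) :
    Integrable (fun z : Pl => Real.exp (-(b * ((z.1 ^ 2 + z.2 ^ 2) / 2)))) ∧
      ∫ z : Pl, Real.exp (-(b * ((z.1 ^ 2 + z.2 ^ 2) / 2))) = 2 * Real.pi / b := by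
  have e : (fun z : Pl => Real.exp (-(b * ((z.1 ^ 2 + z.2 ^ 2) / 2)))) =
      fun z : Pl => Real.exp (-(b / 2) * z.1 ^ 2) * Real.exp (-(b / 2) * z.2 ^ 2) := by
    funext z
    rw [← Real.exp_add]
    ring_nf
  have hi := integrable_exp_neg_mul_sq (b := b / 2) (by positivity)
  rw [e]
  refine ⟨hi.mul_prod hi, ?_⟩
  rw [show (volume : Measure Pl) = (volume : Measure ℝ).prod volume from rfl,
    integral_prod_mul (f := fun x : ℝ => Real.exp (-(b / 2) * x ^ 2))
      (g := fun x : ℝ => Real.exp (-(b / 2) * x ^ 2)), integral_gaussian]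
  rw [Real.mul_self_sqrt (by positivity)]
  field_simp

theorem gw_int : ∫ z : Pl, gw z = 1 := by
  have h := (M2_gauss (b := 1) one_pos).2
  have e : (fun z : Pl => gw z) = fun z : Pl => (2 * Real.pi)⁻¹ *
      Real.exp (-(1 * ((z.1 ^ 2 + z.2 ^ 2) / 2))) := by
    funext z
    rw [gw, one_mul]
  rw [e, integral_const_mul, h, div_one]
  exact inv_mul_cancel₀ (by positivity)

theorem gw_integrable (n : ℕ) : Integrable fun z : Pl => gw z * ‖z‖ ^ n := by
  have hi := integrable_exp_neg_mul_sq (b := 1 / 2) (by norm_num)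
  have hn : Integrable (fun x : ℝ => |x| ^ n * Real.exp (-(1 / 2) * x ^ 2)) := by
    have h1 := (integrable_rpow_mul_exp_neg_mul_sq (b := 1 / 2) (by norm_num)
      (s := (n : ℝ)) (by have : (0 : ℝ) ≤ n := Nat.cast_nonneg n
                         linarith)).norm
    refine h1.congr (Eventually.of_forall fun x => ?_)
    show ‖x ^ (n : ℝ) * Real.exp (-(1 / 2) * x ^ 2)‖ = _
    rw [norm_mul, Real.norm_eq_abs, Real.norm_eq_abs, Real.rpow_natCast, abs_pow, Real.abs_exp]
  have h2 : Integrable (fun z : Pl => (2 * Real.pi)⁻¹ *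
      ((|z.1| ^ n * Real.exp (-(1 / 2) * z.1 ^ 2)) * Real.exp (-(1 / 2) * z.2 ^ 2) +
        Real.exp (-(1 / 2) * z.1 ^ 2) * (|z.2| ^ n * Real.exp (-(1 / 2) * z.2 ^ 2)))) :=
    ((hn.mul_prod hi).add (hi.mul_prod hn)).const_mul _
  have hgc : Continuous fun z : Pl => gw z * ‖z‖ ^ n := by
    unfold gw
    fun_prop
  refine h2.mono' hgc.aestronglyMeasurable (Eventually.of_forall fun z => ?_)
  have hg : 0 ≤ gw z := by
    unfold gw
    positivity
  rw [Real.norm_of_nonneg (by positivity)]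
  have h3 : ‖z‖ ^ n ≤ |z.1| ^ n + |z.2| ^ n := by
    rw [Prod.norm_def, Real.norm_eq_abs, Real.norm_eq_abs]
    rcases le_total |z.1| |z.2| with h | h
    · rw [max_eq_right h]
      have : 0 ≤ |z.1| ^ n := by positivity
      linarith
    · rw [max_eq_left h]
      have : 0 ≤ |z.2| ^ n := by positivity
      linarith
  have h4 : gw z = (2 * Real.pi)⁻¹ * (Real.exp (-(1 / 2) * z.1 ^ 2) *
      Real.exp (-(1 / 2) * z.2 ^ 2)) := by
    rw [gw, ← Real.exp_add]
    ring_nf
  calc gw z * ‖z‖ ^ n ≤ gw z * (|z.1| ^ n + |z.2| ^ n) := by gcongr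
    _ = _ := by rw [h4]; ring

private theorem M2_gw0 : Integrable gw := by
  have h := gw_integrable 0
  simpa using h

private theorem M2_gwc : Continuous gw := by
  unfold gw
  fun_prop

private theorem M2_gwpos (z : Pl) : 0 ≤ gw z := by
  unfold gw
  positivity

private theorem M2_bdd {g : Pl → ℝ} (hg : Continuous g) {M : ℝ} (hM : ∀ z, |g z| ≤ M) :
    Integrable fun z => gw z * g z := by
  refine (M2_gw0.mul_const M).mono' (M2_gwc.mul hg).aestronglyMeasurable
    (Eventually.of_forall fun z => ?_)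
  rw [norm_mul, Real.norm_of_nonneg (M2_gwpos z), Real.norm_eq_abs]
  exact mul_le_mul_of_nonneg_left (hM z) (M2_gwpos z)

theorem Kr_ga {e : ℝ} (he : 0 < e) (u : Pl → ℝ) (X : Pl) :
    Kr e u X = ∫ z : Pl, gw z * (u (tr X (psi (e • z))) * rhw (e * z.1)) := by
  have h1 := tp_int X (fun Y : Pl => u Y * Real.exp (-((Bh X Y - 1) / e ^ 2)))
  have h2 : ∫ Y : Pl, u Y * Real.exp (-((Bh X Y - 1) / e ^ 2)) * Real.exp Y.1 =
      ∫ Y : Pl, Real.exp Y.1 • (u Y * Real.exp (-((Bh X Y - 1) / e ^ 2))) := by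
    refine integral_congr_ae (Eventually.of_forall fun Y => ?_)
    simp only [smul_eq_mul]
    ring
  have h3 := Measure.integral_comp_smul (volume : Measure Pl)
    (fun w : Pl => rhw w.1 • (u (tr X (psi w)) * Real.exp (-((Bh X (tr X (psi w)) - 1) / e ^ 2)))) e
  have h4 : Module.finrank ℝ Pl = 2 := by simp [Pl]
  rw [h4, abs_of_pos (by positivity), smul_eq_mul] at h3
  rw [Kr, h2, h1]
  have h5 : ∫ z : Pl, gw z * (u (tr X (psi (e • z))) * rhw (e * z.1)) =
      (2 * Real.pi)⁻¹ * ∫ z : Pl, rhw (e • z).1 • (u (tr X (psi (e • z))) *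
        Real.exp (-((Bh X (tr X (psi (e • z))) - 1) / e ^ 2))) := by
    rw [← integral_const_mul]
    refine integral_congr_ae (Eventually.of_forall fun z => ?_)
    simp only [smul_eq_mul, Bh_tp, Prod.smul_fst, Prod.smul_snd, gw]
    have : (1 + ((e * z.1) ^ 2 + (e * z.2) ^ 2) / 2 - 1) / e ^ 2 = (z.1 ^ 2 + z.2 ^ 2) / 2 := by
      field_simp
      ring
    rw [this]
    ring
  rw [h5, h3]
  field_simp

private theorem M2_rc : Continuous rhw := rhw_smooth.continuous

private theorem M2_rabs (t : ℝ) : |rhw t| ≤ 2 := by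
  rw [abs_of_pos (rhw_mem t).1]
  exact (rhw_mem t).2.le

/-- The kernel is integrable; `a ≥ 1` is the width with which it is dominated. -/
theorem Kr_int {a : ℝ} (ha : 0 < a) (X : Pl) :
    Integrable (fun Y : Pl => Real.exp (-(a * Bh X Y)) * Real.exp Y.1) ∧
      ∫ Y : Pl, Real.exp (-(a * Bh X Y)) * Real.exp Y.1 ≤ 4 * Real.pi / a * Real.exp (-a) := by
  have e1 : (fun Y : Pl => Real.exp (-(a * Bh X Y)) * Real.exp Y.1) =
      fun Y : Pl => Real.exp Y.1 • Real.exp (-(a * Bh X Y)) := by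
    funext Y
    rw [smul_eq_mul, mul_comm]
  have e2 : (fun w : Pl => rhw w.1 • Real.exp (-(a * Bh X (tr X (psi w))))) =
      fun w : Pl => Real.exp (-a) * (rhw w.1 * Real.exp (-(a * ((w.1 ^ 2 + w.2 ^ 2) / 2)))) := by
    funext w
    rw [Bh_tp, smul_eq_mul, mul_left_comm, ← Real.exp_add]
    ring_nf
  obtain ⟨g1, g2⟩ := M2_gauss ha
  have hb : ∀ w : Pl, ‖rhw w.1 * Real.exp (-(a * ((w.1 ^ 2 + w.2 ^ 2) / 2)))‖ ≤
      2 * Real.exp (-(a * ((w.1 ^ 2 + w.2 ^ 2) / 2))) := by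
    intro w
    rw [norm_mul, Real.norm_eq_abs, Real.norm_eq_abs, Real.abs_exp]
    exact mul_le_mul_of_nonneg_right (M2_rabs _) (Real.exp_pos _).le
  have hc : Continuous fun w : Pl => rhw w.1 * Real.exp (-(a * ((w.1 ^ 2 + w.2 ^ 2) / 2))) :=
    (M2_rc.comp continuous_fst).mul (by fun_prop)
  have hi : Integrable fun w : Pl => rhw w.1 * Real.exp (-(a * ((w.1 ^ 2 + w.2 ^ 2) / 2))) :=
    (g1.const_mul 2).mono' hc.aestronglyMeasurable (Eventually.of_forall hb)
  constructor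
  · rw [e1, tp_integrable X (fun Y => Real.exp (-(a * Bh X Y))), e2]
    exact hi.const_mul _
  · rw [e1, tp_int X (fun Y => Real.exp (-(a * Bh X Y))), e2, integral_const_mul]
    have h1 : ∫ w : Pl, rhw w.1 * Real.exp (-(a * ((w.1 ^ 2 + w.2 ^ 2) / 2))) ≤
        ∫ w : Pl, 2 * Real.exp (-(a * ((w.1 ^ 2 + w.2 ^ 2) / 2))) :=
      integral_mono hi (g1.const_mul 2) fun w => (le_abs_self _).trans (hb w)
    rw [integral_const_mul, g2] at h1
    calc Real.exp (-a) * ∫ w : Pl, rhw w.1 * Real.exp (-(a * ((w.1 ^ 2 + w.2 ^ 2) / 2)))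
        ≤ Real.exp (-a) * (2 * (2 * Real.pi / a)) := by gcongr
      _ = 4 * Real.pi / a * Real.exp (-a) := by ring

theorem Kr_const {e : ℝ} (he : 0 < e) (c : ℝ) (X : Pl) : Kr e (fun _ => c) X = c := by
  rw [Kr_ga he]
  have hc1 : Continuous fun z : Pl => rhw (e * z.1) := M2_rc.comp (by fun_prop)
  have hc2 : Continuous fun z : Pl => rhw (-(e * z.1)) := M2_rc.comp (by fun_prop)
  have hi1 : Integrable fun z : Pl => gw z * rhw (e * z.1) := M2_bdd hc1 fun z => M2_rabs _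
  have hi2 : Integrable fun z : Pl => gw z * rhw (-(e * z.1)) := M2_bdd hc2 fun z => M2_rabs _
  have h1 : ∫ z : Pl, gw z * rhw (e * z.1) = ∫ z : Pl, gw z * rhw (-(e * z.1)) := by
    rw [← integral_neg_eq_self (fun z : Pl => gw z * rhw (e * z.1)) volume]
    refine integral_congr_ae (Eventually.of_forall fun z => ?_)
    simp only [gw, Prod.fst_neg, Prod.snd_neg, neg_sq, mul_neg]
  have h2 : (∫ z : Pl, gw z * rhw (e * z.1)) + ∫ z : Pl, gw z * rhw (-(e * z.1)) = 2 := by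
    rw [← integral_add hi1 hi2]
    have : (fun z : Pl => gw z * rhw (e * z.1) + gw z * rhw (-(e * z.1))) =
        fun z : Pl => gw z * 2 := by
      funext z
      rw [← mul_add, rhw_neg]
    rw [this, integral_mul_const, gw_int, one_mul]
  have h3 : ∫ z : Pl, gw z * rhw (e * z.1) = 1 := by linarith
  have h4 : (fun z : Pl => gw z * (c * rhw (e * z.1))) =
      fun z : Pl => c * (gw z * rhw (e * z.1)) := by
    funext z
    ring
  rw [h4, integral_const_mul, h3, mul_one]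

private theorem M2_tc (e : ℝ) (X : Pl) : Continuous fun z : Pl => tr X (psi (e • z)) := by
  have h1 : Continuous fun p : Pl × Pl => tr p.1 (psi p.2) := tp_smooth.continuous
  exact h1.comp (by fun_prop : Continuous fun z : Pl => (X, e • z))

private theorem M2_ui {e : ℝ} {u : Pl → ℝ} (hu : Continuous u) {M : ℝ}
    (hM : ∀ Y, |u Y| ≤ M) (X : Pl) :
    Integrable fun z : Pl => gw z * (u (tr X (psi (e • z))) * rhw (e * z.1)) := by
  have hc1 : Continuous fun z : Pl => rhw (e * z.1) := M2_rc.comp (by fun_prop)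
  refine M2_bdd ((hu.comp (M2_tc e X)).mul hc1) (M := M * 2) fun z => ?_
  rw [abs_mul]
  exact mul_le_mul (hM _) (M2_rabs _) (abs_nonneg _) ((abs_nonneg _).trans (hM 0))

theorem Kr_add {e : ℝ} (he : 0 < e) {u v : Pl → ℝ} (hu : Continuous u) (hv : Continuous v)
    {M : ℝ} (hM : ∀ Y, |u Y| ≤ M) (hM' : ∀ Y, |v Y| ≤ M) (X : Pl) :
    Kr e (fun Y => u Y + v Y) X = Kr e u X + Kr e v X := by
  rw [Kr_ga he, Kr_ga he, Kr_ga he, ← integral_add (M2_ui hu hM X) (M2_ui hv hM' X)]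
  refine integral_congr_ae (Eventually.of_forall fun z => ?_)
  simp only
  ring

theorem Kr_smul (e c : ℝ) (u : Pl → ℝ) (X : Pl) : Kr e (fun Y => c * u Y) X = c * Kr e u X := by
  unfold Kr
  have : (fun Y : Pl => c * u Y * Real.exp (-((Bh X Y - 1) / e ^ 2)) * Real.exp Y.1) =
      fun Y : Pl => c * (u Y * Real.exp (-((Bh X Y - 1) / e ^ 2)) * Real.exp Y.1) := by
    funext Y
    ring
  rw [this, integral_const_mul]
  ring

theorem Kr_le {e : ℝ} (he : 0 < e) {u : Pl → ℝ} (hu : Continuous u) {M : ℝ}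
    (hM : ∀ Y, |u Y| ≤ M) (X : Pl) : |Kr e u X| ≤ M := by
  have h1 : Kr e (fun _ => M) X = M := Kr_const he M X
  rw [Kr_ga he] at h1 ⊢
  have hM0 : 0 ≤ M := (abs_nonneg _).trans (hM 0)
  have h2 : Integrable fun z : Pl => gw z * (M * rhw (e * z.1)) :=
    M2_ui (u := fun _ => M) continuous_const (M := M) (fun _ => (abs_of_nonneg hM0).le) X
  have h3 := norm_integral_le_of_norm_le (μ := (volume : Measure Pl))
    (f := fun z : Pl => gw z * (u (tr X (psi (e • z))) * rhw (e * z.1))) h2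
    (Eventually.of_forall fun z => by
      rw [norm_mul, norm_mul, Real.norm_of_nonneg (M2_gwpos z), Real.norm_eq_abs,
        Real.norm_of_nonneg (rhw_mem _).1.le]
      exact mul_le_mul_of_nonneg_left (mul_le_mul_of_nonneg_right (hM _) (rhw_mem _).1.le)
        (M2_gwpos z))
  rw [h1, Real.norm_eq_abs] at h3
  exact h3
end B36
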