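import Pool.Agent.LibBE36M.M2

/-! ROW M3 : Gaussian averages of functions with compact support. MEDIUM, only Mathlib.
PLAN. `Ga_fderiv`: `hasFDerivAt_integral_of_dominated_of_fderiv_le`, dominated by `gw z * sup ‖fderiv G‖` (compact support: bounded). `Ga_smooth`: `contDiff_of_differentiable..` or induction on `n`:
`Ga e G` is `C^n` for every `G` (smooth, compact support), because `fderiv (Ga e G) X = Ga e (∂_1 G) X • fst + Ga e (∂_2 G) X • snd` with `∂_i G p = fderiv ℝ G p (e_i, 0)` again smooth with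
compact support (`contDiff_succ_iff_fderiv`). `Ga_iter`: induction on `k`, for all `G`: `iteratedFDeriv_succ_apply_left`; `iteratedFDeriv ℝ k (Ga e G) · w` is `Ga e (G_w)`,
`G_w p = iteratedFDeriv ℝ k G p (w, 0)` is smooth with compact support. -/

open MeasureTheory Set Filter Topology
open scoped ContDiff

namespace B36

open BGS BR

private theorem M3_gw_integrable : Integrable fun z : Pl => gw z := by
  have h := gw_integrable 0
  simpa using h

private theorem M3_gw_nonneg (z : Pl) : 0 ≤ gw z := by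
  unfold gw; positivity

private theorem M3_gw_cont : Continuous gw := by
  unfold gw; fun_prop

theorem Ga_le {G : Pl × Pl → ℝ} (hG : Continuous G) {B : ℝ} (hB : ∀ p, |G p| ≤ B) (e : ℝ) (X : Pl) :
    |Ga e G X| ≤ B := by
  have h1 : ‖∫ z : Pl, gw z * G (X, e • z)‖ ≤ ∫ z : Pl, gw z * B := by
    apply norm_integral_le_of_norm_le (M3_gw_integrable.mul_const B)
    refine Filter.Eventually.of_forall fun z => ?_
    rw [Real.norm_eq_abs, abs_mul, abs_of_nonneg (M3_gw_nonneg z)]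
    exact mul_le_mul_of_nonneg_left (hB _) (M3_gw_nonneg z)
  rw [integral_mul_const, gw_int, one_mul, Real.norm_eq_abs] at h1
  exact h1

private theorem M3_bdd {G : Pl × Pl → ℝ} (hG : ContDiff ℝ ∞ G) (hc : HasCompactSupport G) :
    ∃ C : ℝ, 0 ≤ C ∧ ∀ p, ‖fderiv ℝ G p‖ ≤ C := by
  have hcont : Continuous (fderiv ℝ G) := hG.continuous_fderiv (by simp)
  have hcs : HasCompactSupport (fderiv ℝ G) := hc.fderiv ℝ
  obtain ⟨C, hC⟩ := hcs.exists_bound_of_continuous hcont
  exact ⟨C, (norm_nonneg _).trans (hC 0), hC⟩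

private theorem M3_bdd0 {G : Pl × Pl → ℝ} (hG : ContDiff ℝ ∞ G) (hc : HasCompactSupport G) :
    ∃ C : ℝ, 0 ≤ C ∧ ∀ p, ‖G p‖ ≤ C := by
  obtain ⟨C, hC⟩ := hc.exists_bound_of_continuous hG.continuous
  exact ⟨C, (norm_nonneg _).trans (hC 0), hC⟩

private theorem M3_integrable {G : Pl × Pl → ℝ} (hG : ContDiff ℝ ∞ G) (hc : HasCompactSupport G)
    (e : ℝ) (X : Pl) : Integrable fun z : Pl => gw z * G (X, e • z) := by
  obtain ⟨C, hC0, hC⟩ := M3_bdd0 hG hc
  refine Integrable.mono' (M3_gw_integrable.mul_const C) ?_ ?_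
  · have hGc := hG.continuous
    have hgc := M3_gw_cont
    exact (Continuous.mul hgc (hGc.comp (by fun_prop))).aestronglyMeasurable
  · refine Filter.Eventually.of_forall fun z => ?_
    rw [norm_mul, Real.norm_eq_abs (gw z), abs_of_nonneg (M3_gw_nonneg z)]
    exact mul_le_mul_of_nonneg_left (hC _) (M3_gw_nonneg z)

private noncomputable def M3_F' (e : ℝ) (G : Pl × Pl → ℝ) (X z : Pl) : Pl →L[ℝ] ℝ :=
  gw z • (fderiv ℝ G (X, e • z)).comp (ContinuousLinearMap.inl ℝ Pl Pl)

private theorem M3_F'_cont {G : Pl × Pl → ℝ} (hG : ContDiff ℝ ∞ G) (e : ℝ) (X : Pl) :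
    Continuous fun z => M3_F' e G X z := by
  have hcont : Continuous (fderiv ℝ G) := hG.continuous_fderiv (by simp)
  have hgc := M3_gw_cont
  unfold M3_F'
  exact hgc.smul ((hcont.comp (by fun_prop)).clm_comp continuous_const)

private theorem M3_F'_norm {G : Pl × Pl → ℝ} {C : ℝ} (hC0 : 0 ≤ C) (hC : ∀ p, ‖fderiv ℝ G p‖ ≤ C)
    (e : ℝ) (X z : Pl) : ‖M3_F' e G X z‖ ≤ gw z * C := by
  unfold M3_F'
  rw [norm_smul, Real.norm_eq_abs, abs_of_nonneg (M3_gw_nonneg z)]
  refine mul_le_mul_of_nonneg_left ?_ (M3_gw_nonneg z)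
  refine (ContinuousLinearMap.opNorm_comp_le _ _).trans ?_
  calc ‖fderiv ℝ G (X, e • z)‖ * ‖ContinuousLinearMap.inl ℝ Pl Pl‖
      ≤ C * 1 := by
        refine mul_le_mul (hC _) ?_ (norm_nonneg _) hC0
        exact ContinuousLinearMap.norm_inl_le_one ℝ Pl Pl
    _ = C := mul_one C

private theorem M3_hasFDerivAt {G : Pl × Pl → ℝ} (hG : ContDiff ℝ ∞ G) (hc : HasCompactSupport G)
    (e : ℝ) (X : Pl) : HasFDerivAt (Ga e G) (∫ z : Pl, M3_F' e G X z) X := by
  obtain ⟨C, hC0, hC⟩ := M3_bdd hG hc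
  have h := hasFDerivAt_integral_of_dominated_of_fderiv_le (μ := (volume : Measure Pl)) (𝕜 := ℝ)
    (F := fun (X z : Pl) => gw z * G (X, e • z)) (F' := fun X z => M3_F' e G X z)
    (x₀ := X) (s := Set.univ) (bound := fun z => gw z * C) Filter.univ_mem
    (Filter.Eventually.of_forall fun Y => (M3_integrable hG hc e Y).aestronglyMeasurable)
    (M3_integrable hG hc e X) (M3_F'_cont hG e X).aestronglyMeasurable
    (Filter.Eventually.of_forall fun z Y _ => M3_F'_norm hC0 hC e Y z)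
    (M3_gw_integrable.mul_const C)
    (Filter.Eventually.of_forall fun z Y _ => by
      have h1 : HasFDerivAt G (fderiv ℝ G (Y, e • z)) (Y, e • z) :=
        ((hG.differentiable (by simp)) (Y, e • z)).hasFDerivAt
      have h2 : HasFDerivAt (fun Y : Pl => (Y, e • z)) (ContinuousLinearMap.inl ℝ Pl Pl) Y :=
        hasFDerivAt_prodMk_left Y (e • z)
      exact (h1.comp Y h2).const_mul (gw z))
  exact h

private theorem M3_F'_integrable {G : Pl × Pl → ℝ} (hG : ContDiff ℝ ∞ G)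
    (hc : HasCompactSupport G) (e : ℝ) (X : Pl) : Integrable fun z : Pl => M3_F' e G X z := by
  obtain ⟨C, hC0, hC⟩ := M3_bdd hG hc
  exact Integrable.mono' (M3_gw_integrable.mul_const C)
    (M3_F'_cont hG e X).aestronglyMeasurable
    (Filter.Eventually.of_forall fun z => M3_F'_norm hC0 hC e X z)

theorem Ga_fderiv {G : Pl × Pl → ℝ} (hG : ContDiff ℝ ∞ G) (hc : HasCompactSupport G) (e : ℝ)
    (X v : Pl) : fderiv ℝ (Ga e G) X v = Ga e (fun p => fderiv ℝ G p (v, 0)) X := by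
  rw [(M3_hasFDerivAt hG hc e X).fderiv, ContinuousLinearMap.integral_apply
    (M3_F'_integrable hG hc e X) v]
  unfold Ga M3_F'
  refine integral_congr_ae (Filter.Eventually.of_forall fun z => ?_)
  simp [ContinuousLinearMap.inl_apply]

private theorem M3_dir_smooth {G : Pl × Pl → ℝ} (hG : ContDiff ℝ ∞ G) (w : Pl × Pl) :
    ContDiff ℝ ∞ fun p => fderiv ℝ G p w :=
  (hG.fderiv_right (m := ∞) (by simp)).clm_apply contDiff_const

private theorem M3_dir_comp {G : Pl × Pl → ℝ} (hc : HasCompactSupport G) (w : Pl × Pl) :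
    HasCompactSupport fun p => fderiv ℝ G p w :=
  (hc.fderiv ℝ).comp_left (g := fun L : (Pl × Pl) →L[ℝ] ℝ => L w) (by simp)

private theorem M3_smooth_nat (e : ℝ) (n : ℕ) : ∀ {G : Pl × Pl → ℝ} (_ : ContDiff ℝ ∞ G)
    (_ : HasCompactSupport G), ContDiff ℝ n (Ga e G) := by
  induction n with
  | zero =>
    intro G hG hc
    rw [Nat.cast_zero, contDiff_zero]
    have hd : Differentiable ℝ (Ga e G) := fun X => (M3_hasFDerivAt hG hc e X).differentiableAt
    exact hd.continuous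
  | succ n ih =>
    intro G hG hc
    have : ((n + 1 : ℕ) : WithTop ℕ∞) = (n : WithTop ℕ∞) + 1 := by push_cast; rfl
    rw [this, contDiff_succ_iff_fderiv_apply]
    refine ⟨fun X => (M3_hasFDerivAt hG hc e X).differentiableAt, by simp, fun v => ?_⟩
    have h1 : (fun X => fderiv ℝ (Ga e G) X v) = Ga e (fun p => fderiv ℝ G p (v, 0)) := by
      funext X
      exact Ga_fderiv hG hc e X v
    rw [h1]
    exact ih (M3_dir_smooth hG _) (M3_dir_comp hc _)

theorem Ga_smooth {G : Pl × Pl → ℝ} (hG : ContDiff ℝ ∞ G) (hc : HasCompactSupport G) (e : ℝ) :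
    ContDiff ℝ ∞ (Ga e G) := by
  rw [contDiff_infty]
  exact fun n => M3_smooth_nat e n hG hc

private theorem M3_iter_succ {E : Type} [NormedAddCommGroup E] [NormedSpace ℝ E] {f : E → ℝ}
    (hf : ContDiff ℝ ∞ f) (k : ℕ) (x : E) (v : Fin (k + 1) → E) :
    iteratedFDeriv ℝ (k + 1) f x v =
      fderiv ℝ (fun y => iteratedFDeriv ℝ k f y (Fin.tail v)) x (v 0) := by
  rw [iteratedFDeriv_succ_apply_left]
  have hd : DifferentiableAt ℝ (iteratedFDeriv ℝ k f) x :=
    (hf.differentiable_iteratedFDeriv (m := k) (by exact_mod_cast ENat.natCast_lt_top k)) x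
  have h1 : HasFDerivAt (fun y => iteratedFDeriv ℝ k f y (Fin.tail v))
      ((ContinuousMultilinearMap.apply ℝ (fun _ : Fin k => E) ℝ (Fin.tail v)).comp
        (fderiv ℝ (iteratedFDeriv ℝ k f) x)) x :=
    (ContinuousMultilinearMap.apply ℝ (fun _ : Fin k => E) ℝ (Fin.tail v)).hasFDerivAt.comp x
      hd.hasFDerivAt
  rw [h1.fderiv]
  rfl

private theorem M3_iter_smooth {G : Pl × Pl → ℝ} (hG : ContDiff ℝ ∞ G) (k : ℕ)
    (w : Fin k → Pl × Pl) : ContDiff ℝ ∞ fun p => iteratedFDeriv ℝ k G p w := by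
  have h1 : ContDiff ℝ ∞ (iteratedFDeriv ℝ k G) :=
    hG.iteratedFDeriv_right (m := ∞) (i := k)
      (by exact_mod_cast (le_top : (⊤ : ℕ∞) + (k : ℕ∞) ≤ ⊤))
  exact (ContinuousMultilinearMap.apply ℝ (fun _ : Fin k => Pl × Pl) ℝ w).contDiff.comp h1

private theorem M3_iter_comp {G : Pl × Pl → ℝ} (hc : HasCompactSupport G) (k : ℕ)
    (w : Fin k → Pl × Pl) : HasCompactSupport fun p => iteratedFDeriv ℝ k G p w :=
  (hc.iteratedFDeriv k).comp_left
    (g := fun L : ContinuousMultilinearMap ℝ (fun _ : Fin k => Pl × Pl) ℝ => L w) (by simp)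

theorem Ga_iter {G : Pl × Pl → ℝ} (hG : ContDiff ℝ ∞ G) (hc : HasCompactSupport G) (e : ℝ)
    (k : ℕ) (X : Pl) (v : Fin k → Pl) :
    iteratedFDeriv ℝ k (Ga e G) X v =
      Ga e (fun p => iteratedFDeriv ℝ k G p fun i => (v i, 0)) X := by
  induction k generalizing X with
  | zero => simp [Ga]
  | succ k ih =>
    rw [M3_iter_succ (Ga_smooth hG hc e)]
    have h1 : (fun Y => iteratedFDeriv ℝ k (Ga e G) Y (Fin.tail v)) =
        Ga e (fun p => iteratedFDeriv ℝ k G p fun i => (Fin.tail v i, 0)) := by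
      funext Y
      exact ih Y (Fin.tail v)
    rw [h1, Ga_fderiv (M3_iter_smooth hG k _) (M3_iter_comp hc k _)]
    congr 1
    funext p
    rw [M3_iter_succ hG k p]
    rfl

/-- The derivatives of the average are bounded by those of the function. -/
theorem Ga_bd {G : Pl × Pl → ℝ} (hG : ContDiff ℝ ∞ G) (hc : HasCompactSupport G) (k : ℕ) {B : ℝ}
    (hB : ∀ p, ‖iteratedFDeriv ℝ k G p‖ ≤ B) (e : ℝ) (X : Pl) :
    ‖iteratedFDeriv ℝ k (Ga e G) X‖ ≤ B := by
  have hB0 : 0 ≤ B := (norm_nonneg _).trans (hB 0)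
  refine ContinuousMultilinearMap.opNorm_le_bound hB0 fun v => ?_
  rw [Ga_iter hG hc e k X v, Real.norm_eq_abs]
  refine Ga_le (M3_iter_smooth hG k _).continuous (fun p => ?_) e X
  rw [← Real.norm_eq_abs]
  refine (ContinuousMultilinearMap.le_opNorm _ _).trans ?_
  refine mul_le_mul (hB p) ?_ (Finset.prod_nonneg fun _ _ => norm_nonneg _) hB0
  refine Finset.prod_le_prod (fun _ _ => norm_nonneg _) fun i _ => ?_
  simp [Prod.norm_def]

end B36
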