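import Pool.Agent.LibBE36M.M3
import Pool.Agent.LibBE36T.T13a

/-! ROW M4 : Richardson's extrapolation for Gaussian averages. MEDIUM.
PLAN. `Ga_rich`: `rc_taylor` (T13a) with `g s = Ga s G X`, `c 0 = G (X, 0)`, `c j = ∫ gw z * g_z^(2j)(0) / (2 j)!`, `g_z t = G (X, t • z)`: Taylor of order `2 P` at 0 (Lagrange or integral
remainder; `|g_z^(2P)| ≤ B ‖z‖ ^ (2P)` because `g_z` is `G` on a line), the odd terms `t^j g_z^(j)(0)` are odd in `z` (`g_{-z} t = g_z (-t)`) and `gw` is even; remainder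
`B s^(2P) ∫ gw z ‖z‖^(2P) / (2P)!`. `Ga_rich_iter`: multilinear norm (`ContinuousMultilinearMap.opNorm_le_bound`): at vectors `v` the derivative is (`Ga_iter`)
`∑ rc P i * Ga (2^i e) G_v X - G_v (X, 0)` with `G_v p = iteratedFDeriv ℝ k G p (v, 0)`; `‖iteratedFDeriv ℝ (2P) G_v p‖ ≤ ‖iteratedFDeriv ℝ (k + 2P) G p‖ ∏ ‖v i‖`
(`norm_iteratedFDeriv_iteratedFDeriv`-type lemma, or by induction). -/

open MeasureTheory Set Filter Topology
open scoped ContDiff

namespace B36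

open BGS BR

private theorem M4_taylor {G : Pl × Pl → ℝ} (hG : ContDiff ℝ ∞ G) {n : ℕ} {B : ℝ}
    (hB : ∀ p, ‖iteratedFDeriv ℝ (n + 1) G p‖ ≤ B) (x y : Pl × Pl) :
    |G (x + y) - ∑ k ∈ Finset.range (n + 1),
      (k.factorial : ℝ)⁻¹ * iteratedFDeriv ℝ k G x (fun _ => y)| ≤
      (n.factorial : ℝ)⁻¹ * (B * ‖y‖ ^ (n + 1)) := by
  have h := map_add_eq_sum_add_integral_iteratedFDeriv (f := G) (x := x) (y := y) (n := n)
    (fun t _ => (hG.of_le (by exact_mod_cast le_top)).contDiffAt)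
  rw [h]
  simp only [smul_eq_mul]
  rw [add_sub_cancel_left, abs_mul, abs_of_nonneg (by positivity : (0 : ℝ) ≤ (n.factorial : ℝ)⁻¹)]
  refine mul_le_mul_of_nonneg_left ?_ (by positivity)
  have h2 := intervalIntegral.norm_integral_le_of_norm_le_const (a := (0 : ℝ)) (b := 1)
    (C := B * ‖y‖ ^ (n + 1))
    (f := fun t => (1 - t) ^ n * iteratedFDeriv ℝ (n + 1) G (x + t • y) (fun _ => y)) ?_
  · rw [sub_zero, abs_one, mul_one] at h2
    exact h2
  · intro t ht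
    rw [uIoc_of_le zero_le_one] at ht
    have h3 : ‖(1 - t) ^ n‖ ≤ 1 := by
      rw [norm_pow]
      refine pow_le_one₀ (norm_nonneg _) ?_
      rw [Real.norm_eq_abs, abs_le]
      exact ⟨by linarith [ht.2], by linarith [ht.1]⟩
    have h4 : ‖iteratedFDeriv ℝ (n + 1) G (x + t • y) (fun _ => y)‖ ≤ B * ‖y‖ ^ (n + 1) := by
      refine (ContinuousMultilinearMap.le_opNorm _ _).trans ?_
      rw [Finset.prod_const, Finset.card_univ, Fintype.card_fin]
      exact mul_le_mul_of_nonneg_right (hB _) (by positivity)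
    rw [norm_mul]
    calc _ ≤ 1 * (B * ‖y‖ ^ (n + 1)) :=
          mul_le_mul h3 h4 (norm_nonneg _) zero_le_one
      _ = _ := one_mul _

private theorem M4_le (n : ℕ) : ((n : ℕ) : ℕ∞ω) ≤ ∞ := by
  exact_mod_cast le_top

private theorem M4_gw_neg (z : Pl) : gw (-z) = gw z := by
  simp [gw]

private theorem M4_gw_nonneg (z : Pl) : 0 ≤ gw z := by
  unfold gw
  positivity

private theorem M4_gw_cont : Continuous gw := by
  unfold gw
  fun_prop

private theorem M4_sum (f : ℕ → ℝ) (hf : ∀ j, f (2 * j + 1) = 0) (P : ℕ) :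
    ∑ k ∈ Finset.range (2 * P), f k = ∑ j ∈ Finset.range P, f (2 * j) := by
  induction P with
  | zero => simp
  | succ P ih =>
    rw [show 2 * (P + 1) = 2 * P + 1 + 1 by ring, Finset.sum_range_succ, Finset.sum_range_succ,
      Finset.sum_range_succ, ih, hf, add_zero]

private theorem M4_cont {G : Pl × Pl → ℝ} (k : ℕ) (X : Pl) :
    Continuous fun z : Pl => iteratedFDeriv ℝ k G (X, 0) (fun _ => ((0 : Pl), z)) := by
  refine (iteratedFDeriv ℝ k G (X, 0)).cont.comp ?_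
  fun_prop

private theorem M4_bd {G : Pl × Pl → ℝ} (k : ℕ) (X z : Pl) :
    |iteratedFDeriv ℝ k G (X, 0) (fun _ => ((0 : Pl), z))| ≤
      ‖iteratedFDeriv ℝ k G (X, 0)‖ * ‖z‖ ^ k := by
  have h := (iteratedFDeriv ℝ k G (X, 0)).le_opNorm (fun _ => ((0 : Pl), z))
  rw [Finset.prod_const, Finset.card_univ, Fintype.card_fin] at h
  rw [Prod.norm_mk, norm_zero, max_eq_right (norm_nonneg _)] at h
  exact h

private theorem M4_int {G : Pl × Pl → ℝ} (k : ℕ) (X : Pl) :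
    Integrable fun z : Pl => gw z * iteratedFDeriv ℝ k G (X, 0) (fun _ => ((0 : Pl), z)) := by
  refine Integrable.mono' ((gw_integrable k).const_mul ‖iteratedFDeriv ℝ k G (X, 0)‖)
    (M4_gw_cont.mul (M4_cont k X)).aestronglyMeasurable (ae_of_all _ fun z => ?_)
  rw [norm_mul, Real.norm_eq_abs, Real.norm_eq_abs, abs_of_nonneg (M4_gw_nonneg z)]
  calc _ ≤ gw z * (‖iteratedFDeriv ℝ k G (X, 0)‖ * ‖z‖ ^ k) :=
        mul_le_mul_of_nonneg_left (M4_bd k X z) (M4_gw_nonneg z)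
    _ = _ := by ring

private theorem M4_odd {G : Pl × Pl → ℝ} {k : ℕ} (hk : Odd k) (X : Pl) :
    ∫ z : Pl, gw z * iteratedFDeriv ℝ k G (X, 0) (fun _ => ((0 : Pl), z)) = 0 := by
  have h1 : ∫ z : Pl, gw (-z) * iteratedFDeriv ℝ k G (X, 0) (fun _ => ((0 : Pl), -z)) =
      ∫ z : Pl, gw z * iteratedFDeriv ℝ k G (X, 0) (fun _ => ((0 : Pl), z)) :=
    integral_neg_eq_self
      (fun z : Pl => gw z * iteratedFDeriv ℝ k G (X, 0) (fun _ => ((0 : Pl), z))) volume
  have h2 : (fun z : Pl => gw (-z) * iteratedFDeriv ℝ k G (X, 0) (fun _ => ((0 : Pl), -z))) =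
      fun z : Pl => -(gw z * iteratedFDeriv ℝ k G (X, 0) (fun _ => ((0 : Pl), z))) := by
    funext z
    have h3 := (iteratedFDeriv ℝ k G (X, 0)).map_smul_univ (fun _ => (-1 : ℝ))
      (fun _ => ((0 : Pl), z))
    rw [Finset.prod_const, Finset.card_univ, Fintype.card_fin, hk.neg_one_pow] at h3
    have h4 : (fun _ : Fin k => ((0 : Pl), -z)) =
        fun _ : Fin k => (-1 : ℝ) • ((0 : Pl), z) := by
      funext _
      simp
    rw [h4, h3, M4_gw_neg]
    simp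
  rw [h2, integral_neg] at h1
  linarith

private theorem M4_core {n : ℕ} {G : Pl × Pl → ℝ} (hG : ContDiff ℝ ∞ G)
    (hc : HasCompactSupport G) {B : ℝ} (hB : ∀ p, ‖iteratedFDeriv ℝ (n + 1) G p‖ ≤ B) {s : ℝ}
    (hs : 0 ≤ s) (X : Pl) :
    |Ga s G X - ∑ k ∈ Finset.range (n + 1), ((k.factorial : ℝ)⁻¹ *
      ∫ z : Pl, gw z * iteratedFDeriv ℝ k G (X, 0) (fun _ => ((0 : Pl), z))) * s ^ k| ≤
      ((n.factorial : ℝ)⁻¹ * (B * ∫ z : Pl, gw z * ‖z‖ ^ (n + 1))) * s ^ (n + 1) := by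
  have hpt : ∀ z : Pl, |gw z * G (X, s • z) - ∑ k ∈ Finset.range (n + 1),
      ((k.factorial : ℝ)⁻¹ * s ^ k) *
        (gw z * iteratedFDeriv ℝ k G (X, 0) (fun _ => ((0 : Pl), z)))| ≤
      ((n.factorial : ℝ)⁻¹ * B * s ^ (n + 1)) * (gw z * ‖z‖ ^ (n + 1)) := by
    intro z
    have h1 := M4_taylor hG hB (X, 0) ((0 : Pl), s • z)
    have h2 : ((X, 0) : Pl × Pl) + ((0 : Pl), s • z) = (X, s • z) := by simp
    have h3 : ∀ k : ℕ, iteratedFDeriv ℝ k G (X, 0) (fun _ => ((0 : Pl), s • z)) =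
        s ^ k * iteratedFDeriv ℝ k G (X, 0) (fun _ => ((0 : Pl), z)) := by
      intro k
      have h4 := (iteratedFDeriv ℝ k G (X, 0)).map_smul_univ (fun _ => s)
        (fun _ => ((0 : Pl), z))
      rw [Finset.prod_const, Finset.card_univ, Fintype.card_fin] at h4
      have h5 : (fun _ : Fin k => ((0 : Pl), s • z)) =
          fun _ : Fin k => s • ((0 : Pl), z) := by
        funext _
        simp
      rw [h5, h4, smul_eq_mul]
    have h6 : ‖((0 : Pl), s • z)‖ = s * ‖z‖ := by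
      rw [Prod.norm_mk, norm_zero, max_eq_right (norm_nonneg _), norm_smul, Real.norm_eq_abs,
        abs_of_nonneg hs]
    rw [h2, h6] at h1
    have h7 : gw z * G (X, s • z) - ∑ k ∈ Finset.range (n + 1),
      ((k.factorial : ℝ)⁻¹ * s ^ k) *
        (gw z * iteratedFDeriv ℝ k G (X, 0) (fun _ => ((0 : Pl), z))) =
        gw z * (G (X, s • z) - ∑ k ∈ Finset.range (n + 1),
          (k.factorial : ℝ)⁻¹ * iteratedFDeriv ℝ k G (X, 0) (fun _ => ((0 : Pl), s • z))) := by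
      rw [mul_sub, Finset.mul_sum]
      congr 1
      refine Finset.sum_congr rfl fun k _ => ?_
      rw [h3]
      ring
    rw [h7, abs_mul, abs_of_nonneg (M4_gw_nonneg z)]
    calc _ ≤ gw z * ((n.factorial : ℝ)⁻¹ * (B * (s * ‖z‖) ^ (n + 1))) :=
          mul_le_mul_of_nonneg_left h1 (M4_gw_nonneg z)
      _ = _ := by rw [mul_pow]; ring
  obtain ⟨B0, hB0⟩ := hc.exists_bound_of_continuous hG.continuous
  have hint1 : Integrable fun z : Pl => gw z * G (X, s • z) := by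
    have h0 := (gw_integrable 0).const_mul B0
    refine Integrable.mono' h0 ?_ (ae_of_all _ fun z => ?_)
    · refine (M4_gw_cont.mul (hG.continuous.comp ?_)).aestronglyMeasurable
      fun_prop
    · rw [norm_mul, Real.norm_eq_abs, abs_of_nonneg (M4_gw_nonneg z)]
      calc _ ≤ gw z * B0 := mul_le_mul_of_nonneg_left (hB0 _) (M4_gw_nonneg z)
        _ = _ := by rw [pow_zero]; ring
  have hint2 : Integrable fun z : Pl => ∑ k ∈ Finset.range (n + 1),
      ((k.factorial : ℝ)⁻¹ * s ^ k) *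
        (gw z * iteratedFDeriv ℝ k G (X, 0) (fun _ => ((0 : Pl), z))) :=
    integrable_finsetSum _ fun k _ => (M4_int k X).const_mul _
  have h8 : Ga s G X - ∑ k ∈ Finset.range (n + 1), ((k.factorial : ℝ)⁻¹ *
      ∫ z : Pl, gw z * iteratedFDeriv ℝ k G (X, 0) (fun _ => ((0 : Pl), z))) * s ^ k =
      ∫ z : Pl, (gw z * G (X, s • z) - ∑ k ∈ Finset.range (n + 1),
      ((k.factorial : ℝ)⁻¹ * s ^ k) *
        (gw z * iteratedFDeriv ℝ k G (X, 0) (fun _ => ((0 : Pl), z)))) := by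
    rw [integral_sub hint1 hint2, integral_finsetSum _ fun k _ => (M4_int k X).const_mul _]
    congr 1
    refine Finset.sum_congr rfl fun k _ => ?_
    rw [integral_const_mul]
    ring
  rw [h8]
  rw [← Real.norm_eq_abs]
  refine (norm_integral_le_of_norm_le
    (g := fun z : Pl => ((n.factorial : ℝ)⁻¹ * B * s ^ (n + 1)) * (gw z * ‖z‖ ^ (n + 1)))
    ((gw_integrable (n + 1)).const_mul _) (ae_of_all _ fun z => ?_)).trans_eq ?_
  · rw [Real.norm_eq_abs]
    exact hpt z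
  rw [integral_const_mul]
  ring

theorem Ga_rich {P : ℕ} (hP : 1 ≤ P) : ∃ C : ℝ, 0 ≤ C ∧ ∀ G : Pl × Pl → ℝ, ContDiff ℝ ∞ G →
    HasCompactSupport G → ∀ B : ℝ, (∀ p, ‖iteratedFDeriv ℝ (2 * P) G p‖ ≤ B) → ∀ e : ℝ, 0 ≤ e →
    ∀ X : Pl, |∑ i ∈ Finset.range P, rc P i * Ga (2 ^ i * e) G X - G (X, 0)| ≤
      C * B * e ^ (2 * P) := by
  obtain ⟨n, hn⟩ : ∃ n, 2 * P = n + 1 := ⟨2 * P - 1, by omega⟩
  have hM : 0 ≤ ∫ z : Pl, gw z * ‖z‖ ^ (n + 1) :=
    integral_nonneg fun z => mul_nonneg (M4_gw_nonneg z) (by positivity)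
  refine ⟨3 * 4 ^ (P ^ 2) * ((n.factorial : ℝ)⁻¹ * ∫ z : Pl, gw z * ‖z‖ ^ (n + 1)),
    by positivity, ?_⟩
  intro G hG hc B hB e he X
  have hB' : ∀ p, ‖iteratedFDeriv ℝ (n + 1) G p‖ ≤ B := by
    intro p
    rw [← hn]
    exact hB p
  have key := rc_taylor hP (g := fun s => Ga s G X)
    (c := fun j => (((2 * j).factorial : ℝ)⁻¹ *
      ∫ z : Pl, gw z * iteratedFDeriv ℝ (2 * j) G (X, 0) (fun _ => ((0 : Pl), z))))
    (B := (n.factorial : ℝ)⁻¹ * (B * ∫ z : Pl, gw z * ‖z‖ ^ (n + 1))) (e := e) ?_ he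
  · have h0 : (((2 * 0).factorial : ℝ)⁻¹ *
      ∫ z : Pl, gw z * iteratedFDeriv ℝ (2 * 0) G (X, 0) (fun _ => ((0 : Pl), z))) =
        G (X, 0) := by
      simp only [Nat.mul_zero, Nat.factorial_zero, Nat.cast_one, inv_one, one_mul,
        iteratedFDeriv_zero_apply]
      rw [integral_mul_const, gw_int, one_mul]
    rw [h0] at key
    refine key.trans_eq ?_
    ring
  · intro i _
    have h1 := M4_core hG hc hB' (s := 2 ^ i * e) (by positivity) X
    have h2 : ∑ k ∈ Finset.range (2 * P), ((k.factorial : ℝ)⁻¹ *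
      ∫ z : Pl, gw z * iteratedFDeriv ℝ k G (X, 0) (fun _ => ((0 : Pl), z))) *
        (2 ^ i * e) ^ k = ∑ j ∈ Finset.range P, (((2 * j).factorial : ℝ)⁻¹ *
      ∫ z : Pl, gw z * iteratedFDeriv ℝ (2 * j) G (X, 0) (fun _ => ((0 : Pl), z))) *
        (2 ^ i * e) ^ (2 * j) :=
      M4_sum (fun k => ((k.factorial : ℝ)⁻¹ *
      ∫ z : Pl, gw z * iteratedFDeriv ℝ k G (X, 0) (fun _ => ((0 : Pl), z))) *
        (2 ^ i * e) ^ k) (fun j => by
          rw [M4_odd ⟨j, rfl⟩]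
          ring) P
    show |Ga (2 ^ i * e) G X - ∑ j ∈ Finset.range P, (((2 * j).factorial : ℝ)⁻¹ *
      ∫ z : Pl, gw z * iteratedFDeriv ℝ (2 * j) G (X, 0) (fun _ => ((0 : Pl), z))) *
        (2 ^ i * e) ^ (2 * j)| ≤ _
    rw [← h2, hn]
    exact h1

private theorem M4_norm {E F : Type} [NormedAddCommGroup E] [NormedSpace ℝ E]
    [NormedAddCommGroup F] [NormedSpace ℝ F] (f : E → F) (k : ℕ) :
    ∀ (m : ℕ) (p : E), ‖iteratedFDeriv ℝ m (iteratedFDeriv ℝ k f) p‖ =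
      ‖iteratedFDeriv ℝ (k + m) f p‖ := by
  induction k with
  | zero =>
    intro m p
    rw [iteratedFDeriv_zero_eq_comp, LinearIsometryEquiv.norm_iteratedFDeriv_comp_left, zero_add]
  | succ k ih =>
    intro m p
    have h1 := LinearIsometryEquiv.norm_iteratedFDeriv_comp_left (𝕜 := ℝ)
      (continuousMultilinearCurryLeftEquiv ℝ (fun _ : Fin (k + 1) => E) F).symm
      (fderiv ℝ (iteratedFDeriv ℝ k f)) p m
    rw [iteratedFDeriv_succ_eq_comp_left]
    refine h1.trans ?_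
    rw [norm_iteratedFDeriv_fderiv, ih, show k + (m + 1) = k + 1 + m by omega]

theorem Ga_rich_iter {P : ℕ} (hP : 1 ≤ P) (k : ℕ) : ∃ C : ℝ, 0 ≤ C ∧ ∀ G : Pl × Pl → ℝ,
    ContDiff ℝ ∞ G → HasCompactSupport G → ∀ B : ℝ,
    (∀ p, ‖iteratedFDeriv ℝ (k + 2 * P) G p‖ ≤ B) → ∀ e : ℝ, 0 ≤ e → ∀ X : Pl,
    ‖iteratedFDeriv ℝ k (fun X => ∑ i ∈ Finset.range P, rc P i * Ga (2 ^ i * e) G X - G (X, 0)) X‖ ≤
      C * B * e ^ (2 * P) := by
  obtain ⟨C, hC, h⟩ := Ga_rich hP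
  refine ⟨C, hC, fun G hG hc B hB e he X => ?_⟩
  have hB0 : 0 ≤ B := (norm_nonneg _).trans (hB (X, 0))
  refine ContinuousMultilinearMap.opNorm_le_bound (by positivity) fun v => ?_
  -- the function `G_v`
  have hGk : ContDiff ℝ ∞ (iteratedFDeriv ℝ k G) := hG.iteratedFDeriv_right (m := ∞) (i := k) (by exact_mod_cast le_top)
  let L : (ContinuousMultilinearMap ℝ (fun _ : Fin k => Pl × Pl) ℝ) →L[ℝ] ℝ :=
    ContinuousMultilinearMap.apply ℝ (fun _ : Fin k => Pl × Pl) ℝ (fun i => (v i, (0 : Pl)))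
  have hL : ‖L‖ ≤ ∏ i, ‖v i‖ := by
    refine ContinuousLinearMap.opNorm_le_bound _ (Finset.prod_nonneg fun i _ => norm_nonneg _)
      fun f => ?_
    have h1 := f.le_opNorm (fun i => (v i, (0 : Pl)))
    have h2 : ∀ i, ‖(v i, (0 : Pl))‖ = ‖v i‖ := by
      intro i
      rw [Prod.norm_mk, norm_zero, max_eq_left (norm_nonneg _)]
    simp only [h2] at h1
    rw [mul_comm]
    exact h1
  have hLG : ContDiff ℝ ∞ (fun p => iteratedFDeriv ℝ k G p fun i => (v i, (0 : Pl))) :=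
    L.contDiff.comp hGk
  have hLc : HasCompactSupport (fun p => iteratedFDeriv ℝ k G p fun i => (v i, (0 : Pl))) := by
    have h1 : HasCompactSupport (iteratedFDeriv ℝ k G) := hc.iteratedFDeriv k
    exact h1.comp_left (g := L) (map_zero L)
  have hLB : ∀ p, ‖iteratedFDeriv ℝ (2 * P)
      (fun p => iteratedFDeriv ℝ k G p fun i => (v i, (0 : Pl))) p‖ ≤ (∏ i, ‖v i‖) * B := by
    intro p
    have h1 := L.norm_iteratedFDeriv_comp_left (f := iteratedFDeriv ℝ k G) (x := p) (N := ∞)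
      (n := 2 * P) hGk.contDiffAt (M4_le _)
    refine h1.trans ?_
    rw [M4_norm]
    exact mul_le_mul hL (hB p) (norm_nonneg _) (Finset.prod_nonneg fun i _ => norm_nonneg _)
  have h1 := h _ hLG hLc _ hLB e he X
  -- the derivative
  have h2 : iteratedFDeriv ℝ k (fun X => ∑ i ∈ Finset.range P, rc P i * Ga (2 ^ i * e) G X -
      G (X, 0)) X v = ∑ i ∈ Finset.range P, rc P i *
        Ga (2 ^ i * e) (fun p => iteratedFDeriv ℝ k G p fun i => (v i, (0 : Pl))) X -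
        iteratedFDeriv ℝ k G (X, 0) fun i => (v i, (0 : Pl)) := by
    have hs : ∀ i, ContDiff ℝ ∞ (fun X => rc P i * Ga (2 ^ i * e) G X) := fun i =>
      contDiff_const.mul (Ga_smooth hG hc _)
    have hG0 : ContDiff ℝ ∞ (fun X : Pl => G (X, 0)) := hG.comp (by fun_prop)
    have h3 : iteratedFDeriv ℝ k (fun X : Pl => G (X, 0)) X v =
        iteratedFDeriv ℝ k G (X, 0) fun i => (v i, (0 : Pl)) := by
      have h4 := ContinuousLinearMap.iteratedFDeriv_comp_right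
        (ContinuousLinearMap.inl ℝ Pl Pl) hG X (i := k) (by exact_mod_cast le_top)
      have h5 : (G ∘ (ContinuousLinearMap.inl ℝ Pl Pl)) = fun X : Pl => G (X, 0) := rfl
      rw [h5] at h4
      rw [h4]
      rfl
    have hle := M4_le k
    rw [fun_iteratedFDeriv_sub_apply
      ((ContDiff.sum fun i _ => (hs i).of_le hle).contDiffAt) ((hG0.of_le hle).contDiffAt),
      iteratedFDeriv_fun_sum_apply fun i _ => ((hs i).of_le hle).contDiffAt,
      ContinuousMultilinearMap.sub_apply, ContinuousMultilinearMap.sum_apply, h3]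
    congr 1
    refine Finset.sum_congr rfl fun i _ => ?_
    have h6 := iteratedFDeriv_const_smul_apply' (𝕜 := ℝ) (a := rc P i) (i := k)
      (f := Ga (2 ^ i * e) G) (x := X) ((Ga_smooth hG hc _).of_le hle).contDiffAt
    simp only [smul_eq_mul] at h6
    rw [h6, ContinuousMultilinearMap.smul_apply, Ga_iter hG hc, smul_eq_mul]
  rw [Real.norm_eq_abs, h2]
  refine h1.trans_eq ?_
  ring

end B36
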