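import Pool.Agent.LibBE36M.M2
import Pool.Agent.LibB35.FA0

/-! ROW M5 : the near part. MEDIUM.
PLAN. `Ct_exists`: `Bh_cpt` gives a compact `K'` containing all `Y` with `Bh X Y ≤ 3`, `X ∈ K`; `exists_contDiff_tsupport_subset`-type smooth cut-offs (`exists_smooth_one_nhds_of_subset_interior`,
or the library's own: `grep -rn 'HasCompactSupport' Pool/Agent/LibBR70 | grep exists`). `Gn_cpt`: `η p.1 ≠ 0` bounds `p.1`, `χ (tr p.1 (psi p.2)) ≠ 0` puts `tr p.1 (psi p.2)` in a compact set, and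
`1 + |p.2| ^ 2 / 2 = Bh p.1 (tr p.1 (psi p.2))` (`Bh_tp`) is bounded there. `Gn_bd`: by the calculus of `EB0` families (FA0.lean `EB0_of`, `EB0_bd`; `EB_comp`, `EB_mul`, `EB_compact` of LibBR70, see
the proof of `CF_gen` in FA0.lean): index set = all `(u, M, p)` with `M > 0`, the bound of the hypothesis, `p` in the compact support of all the `Gn`; the family `u / M` at the point
`tr p.1 (psi p.2)` (if this point is outside `tsupport χ` the function `Gn` vanishes near `p`); `M ≤ 0` separately (`u = 0` there with all derivatives ≤ k, or replace `M` by `M + δ`).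
`Kr_near`: `Kr_ga`, `η X = 1`. -/

open MeasureTheory Set Filter Topology
open scoped ContDiff

namespace B36

open BGS BR

open scoped Manifold in
private theorem M5_cut {K : Set Pl} (hK : IsCompact K) : ∃ f : Pl → ℝ, ContDiff ℝ ∞ f ∧
    HasCompactSupport f ∧ (∀ Y, f Y ∈ Icc (0 : ℝ) 1) ∧ ∀ X ∈ K, ∀ᶠ Y in 𝓝 X, f Y = 1 := by
  obtain ⟨K', hK', hKK'⟩ := exists_compact_superset hK
  obtain ⟨f, h1, h2, h3⟩ := exists_contMDiffMap_one_nhds_of_subset_interior (n := ⊤)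
    (I := 𝓘(ℝ, Pl)) (M := Pl) hK.isClosed hKK'
  refine ⟨f, f.contMDiff.contDiff, HasCompactSupport.intro hK' h2, h3, fun X hX => ?_⟩
  exact h1.filter_mono (nhds_le_nhdsSet hX)

theorem Ct_exists {K : Set Pl} (hK : IsCompact K) : ∃ χ η : Pl → ℝ, Ct K χ η := by
  obtain ⟨K', hK', h'⟩ := Bh_cpt hK 3
  obtain ⟨χ, h1, h2, h3, h4⟩ := M5_cut hK'
  obtain ⟨η, g1, g2, g3, g4⟩ := M5_cut hK
  exact ⟨χ, η, h1, h2, h3, fun X hX Y hY => (h4 Y (h' X hX Y hY)).self_of_nhds, g1, g2, g4⟩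

private theorem M5_T : ContDiff ℝ ∞ fun p : Pl × Pl => tr p.1 (psi p.2) := tp_smooth

private theorem M5_r : ContDiff ℝ ∞ fun p : Pl × Pl => rhw p.2.1 :=
  rhw_smooth.comp (contDiff_fst.comp contDiff_snd)

theorem Gn_smooth {K : Set Pl} {χ η : Pl → ℝ} (h : Ct K χ η) {u : Pl → ℝ} (hu : ContDiff ℝ ∞ u) :
    ContDiff ℝ ∞ (Gn χ η u) := by
  have h1 : ContDiff ℝ ∞ fun p : Pl × Pl => η p.1 := h.smooth'.comp contDiff_fst
  have h2 : ContDiff ℝ ∞ fun p : Pl × Pl => χ (tr p.1 (psi p.2)) := h.smooth.comp M5_T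
  have h3 : ContDiff ℝ ∞ fun p : Pl × Pl => u (tr p.1 (psi p.2)) := hu.comp M5_T
  exact (h1.mul (h2.mul h3)).mul M5_r

/-- The set where `Gn` lives. -/
private def M5_W (χ η : Pl → ℝ) : Set (Pl × Pl) :=
  {p | p.1 ∈ tsupport η ∧ tr p.1 (psi p.2) ∈ tsupport χ}

private theorem M5_W_closed (χ η : Pl → ℝ) : IsClosed (M5_W χ η) :=
  ((isClosed_tsupport η).preimage continuous_fst).inter
    ((isClosed_tsupport χ).preimage M5_T.continuous)

private theorem M5_W_cpt {K : Set Pl} {χ η : Pl → ℝ} (h : Ct K χ η) : IsCompact (M5_W χ η) := by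
  have h1 : IsCompact (tsupport η) := h.comp'
  have h2 : IsCompact (tsupport χ) := h.comp
  obtain ⟨C, hC⟩ := (h1.prod h2).exists_bound_of_continuousOn Bh_cont.continuousOn
  have h3 : M5_W χ η ⊆ tsupport η ×ˢ Metric.closedBall (0 : Pl) (2 * C) := by
    intro p hp
    refine ⟨hp.1, ?_⟩
    have h4 := hC (p.1, tr p.1 (psi p.2)) ⟨hp.1, hp.2⟩
    have h5 := Bh_tp p.1 p.2
    rw [Real.norm_eq_abs, h5] at h4
    have h6 := le_of_abs_le h4
    have h7 : 1 ≤ C := by nlinarith [sq_nonneg p.2.1, sq_nonneg p.2.2]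
    rw [mem_closedBall_zero_iff, Prod.norm_def]
    refine max_le ?_ ?_
    · rw [Real.norm_eq_abs]
      refine abs_le_of_sq_le_sq ?_ (by linarith)
      nlinarith [sq_nonneg p.2.2]
    · rw [Real.norm_eq_abs]
      refine abs_le_of_sq_le_sq ?_ (by linarith)
      nlinarith [sq_nonneg p.2.1]
  exact (h1.prod (isCompact_closedBall _ _)).of_isClosed_subset (M5_W_closed χ η) h3

private theorem M5_zero {χ η : Pl → ℝ} (u : Pl → ℝ) {p : Pl × Pl} (hp : p ∉ M5_W χ η) :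
    Gn χ η u p = 0 := by
  unfold Gn
  by_cases h1 : p.1 ∈ tsupport η
  · have h2 : tr p.1 (psi p.2) ∉ tsupport χ := fun h => hp ⟨h1, h⟩
    rw [image_eq_zero_of_notMem_tsupport h2]
    ring
  · rw [image_eq_zero_of_notMem_tsupport h1]
    ring

theorem Gn_cpt {K : Set Pl} {χ η : Pl → ℝ} (h : Ct K χ η) (u : Pl → ℝ) :
    HasCompactSupport (Gn χ η u) :=
  HasCompactSupport.intro (M5_W_cpt h) fun _ hp => M5_zero u hp

/-- bounds of the derivatives of a fixed smooth function on a compact set -/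
private theorem M5_fix {E F : Type} [NormedAddCommGroup E] [NormedSpace ℝ E]
    [NormedAddCommGroup F] [NormedSpace ℝ F] {f : E → F} (hf : ContDiff ℝ ∞ f) {W : Set E}
    (hW : IsCompact W) (k : ℕ) : ∃ C : ℝ, 1 ≤ C ∧ ∀ j ≤ k, ∀ p ∈ W,
      ‖iteratedFDeriv ℝ j f p‖ ≤ C := by
  have h1 : ∀ j : ℕ, ∃ C : ℝ, ∀ p ∈ W, ‖iteratedFDeriv ℝ j f p‖ ≤ C := fun j =>
    hW.exists_bound_of_continuousOn
      (hf.continuous_iteratedFDeriv (by exact_mod_cast le_top)).continuousOn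
  choose C hC using h1
  refine ⟨1 + ∑ j ∈ Finset.range (k + 1), |C j|, ?_, fun j hj p hp => ?_⟩
  · have : 0 ≤ ∑ j ∈ Finset.range (k + 1), |C j| := Finset.sum_nonneg fun _ _ => abs_nonneg _
    linarith
  · have h2 := Finset.single_le_sum (f := fun j => |C j|) (fun _ _ => abs_nonneg _)
      (Finset.mem_range.2 (by omega : j < k + 1))
    have h3 := hC j p hp
    have h4 := le_abs_self (C j)
    linarith

/-- the product of two functions -/
private theorem M5_mul {E : Type} [NormedAddCommGroup E] [NormedSpace ℝ E] {f g : E → ℝ}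
    (hf : ContDiff ℝ ∞ f) (hg : ContDiff ℝ ∞ g) {p : E} {k : ℕ} {A B : ℝ}
    (hA : ∀ j ≤ k, ‖iteratedFDeriv ℝ j f p‖ ≤ A) (hB : ∀ j ≤ k, ‖iteratedFDeriv ℝ j g p‖ ≤ B) :
    ∀ j ≤ k, ‖iteratedFDeriv ℝ j (fun y => f y * g y) p‖ ≤ 2 ^ k * (A * B) := by
  intro j hj
  have hA0 : 0 ≤ A := (norm_nonneg _).trans (hA 0 (Nat.zero_le _))
  have hB0 : 0 ≤ B := (norm_nonneg _).trans (hB 0 (Nat.zero_le _))
  refine (norm_iteratedFDeriv_mul_le (N := ∞) hf hg p (by exact_mod_cast le_top)).trans ?_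
  have h1 : ∀ i ∈ Finset.range (j + 1), (j.choose i : ℝ) * ‖iteratedFDeriv ℝ i f p‖ *
      ‖iteratedFDeriv ℝ (j - i) g p‖ ≤ (j.choose i : ℝ) * (A * B) := by
    intro i hi
    have hi' := Finset.mem_range.1 hi
    rw [mul_assoc]
    refine mul_le_mul_of_nonneg_left ?_ (Nat.cast_nonneg _)
    exact mul_le_mul (hA i (by omega)) (hB (j - i) (by omega)) (norm_nonneg _) hA0
  refine (Finset.sum_le_sum h1).trans ?_
  rw [← Finset.sum_mul]
  refine mul_le_mul_of_nonneg_right ?_ (mul_nonneg hA0 hB0)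
  have h2 := Nat.sum_range_choose j
  have h3 : (∑ i ∈ Finset.range (j + 1), (j.choose i : ℝ)) = 2 ^ j := by
    exact_mod_cast h2
  rw [h3]
  exact pow_le_pow_right₀ one_le_two hj

theorem Gn_bd {K : Set Pl} {χ η : Pl → ℝ} (h : Ct K χ η) (k : ℕ) : ∃ C : ℝ, 0 ≤ C ∧
    ∀ u : Pl → ℝ, ContDiff ℝ ∞ u → ∀ M : ℝ,
    (∀ j ≤ k, ∀ z ∈ tsupport χ, ‖iteratedFDeriv ℝ j u z‖ ≤ M) →
    ∀ p, ‖iteratedFDeriv ℝ k (Gn χ η u) p‖ ≤ C * M := by
  have hoff : ∀ (u : Pl → ℝ) (p : Pl × Pl), p ∉ M5_W χ η →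
      ‖iteratedFDeriv ℝ k (Gn χ η u) p‖ = 0 := by
    intro u p hp
    have h1 : Gn χ η u =ᶠ[𝓝 p] fun _ => 0 := by
      filter_upwards [(M5_W_closed χ η).isOpen_compl.mem_nhds hp] with q hq
      exact M5_zero u hq
    rw [(h1.iteratedFDeriv ℝ k).eq_of_nhds]
    rw [iteratedFDeriv_fun_zero]
    simp
  rcases (tsupport χ).eq_empty_or_nonempty with hemp | ⟨z0, hz0⟩
  · refine ⟨0, le_rfl, fun u _ M _ p => ?_⟩
    rw [zero_mul, hoff u p]
    intro hp
    have := hp.2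
    rw [hemp] at this
    exact this
  have hW := M5_W_cpt h
  obtain ⟨Cχ, hCχ1, hCχ⟩ := M5_fix h.smooth (W := tsupport χ) h.comp k
  obtain ⟨CT, hCT1, hCT⟩ := M5_fix M5_T hW k
  obtain ⟨Cη, hCη1, hCη⟩ := M5_fix (f := fun p : Pl × Pl => η p.1)
    (h.smooth'.comp contDiff_fst) hW k
  obtain ⟨Cr, hCr1, hCr⟩ := M5_fix M5_r hW k
  refine ⟨2 ^ k * ((2 ^ k * (Cη * ((k.factorial : ℝ) * (2 ^ k * Cχ) * CT ^ k))) * Cr),
    by positivity, fun u hu M hM p => ?_⟩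
  have hM0 : 0 ≤ M := (norm_nonneg _).trans (hM 0 (Nat.zero_le _) z0 hz0)
  by_cases hp : p ∈ M5_W χ η
  · have h1 : ∀ j ≤ k, ‖iteratedFDeriv ℝ j (fun z => χ z * u z) (tr p.1 (psi p.2))‖ ≤
        2 ^ k * (Cχ * M) :=
      M5_mul h.smooth hu (fun j hj => hCχ j hj _ hp.2) (fun j hj => hM j hj _ hp.2)
    have h2 : ∀ j ≤ k, ‖iteratedFDeriv ℝ j
        (fun p : Pl × Pl => χ (tr p.1 (psi p.2)) * u (tr p.1 (psi p.2))) p‖ ≤
        (k.factorial : ℝ) * (2 ^ k * (Cχ * M)) * CT ^ k := by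
      intro j hj
      have h3 := norm_iteratedFDeriv_comp_le (𝕜 := ℝ) (n := j) (N := ∞)
        (g := fun z => χ z * u z) (f := fun p : Pl × Pl => tr p.1 (psi p.2))
        (h.smooth.mul hu) M5_T (by exact_mod_cast le_top) p (C := 2 ^ k * (Cχ * M)) (D := CT)
        (fun i hi => h1 i (hi.trans hj)) (fun i h1i hi => ?_)
      · refine h3.trans ?_
        have h4 : (j.factorial : ℝ) ≤ k.factorial := by exact_mod_cast Nat.factorial_le hj
        have h5 : CT ^ j ≤ CT ^ k := pow_le_pow_right₀ hCT1 hj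
        refine mul_le_mul (mul_le_mul_of_nonneg_right h4 (by positivity)) h5 (by positivity)
          (by positivity)
      · refine (hCT i (hi.trans hj) p hp).trans ?_
        calc CT = CT ^ 1 := (pow_one _).symm
          _ ≤ CT ^ i := pow_le_pow_right₀ hCT1 h1i
    have h6 := M5_mul (h.smooth'.comp contDiff_fst)
      ((h.smooth.comp M5_T).mul (hu.comp M5_T)) (fun j hj => hCη j hj p hp) h2
    have h7 := M5_mul ((h.smooth'.comp contDiff_fst).mul
      ((h.smooth.comp M5_T).mul (hu.comp M5_T))) M5_r h6 (fun j hj => hCr j hj p hp) k le_rfl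
    refine le_trans (le_of_eq ?_) (h7.trans (le_of_eq ?_))
    · rfl
    · ring
  · rw [hoff u p hp]
    positivity

theorem Gn_zero {K : Set Pl} {χ η : Pl → ℝ} (h : Ct K χ η) (u : Pl → ℝ) {X : Pl} (hX : X ∈ K) :
    ∀ᶠ Y in 𝓝 X, Gn χ η u (Y, 0) = u Y * χ Y := by
  filter_upwards [h.one' X hX] with Y hY
  unfold Gn
  simp only [psi_zero, tr_zero, hY]
  have : rhw (0 : Pl).1 = 1 := rhw_zero
  rw [this]
  ring

theorem Kr_near {K : Set Pl} {χ η : Pl → ℝ} (h : Ct K χ η) {u : Pl → ℝ} {X : Pl}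
    (hX : X ∈ K) {e : ℝ} (he : 0 < e) :
    ∀ᶠ Y in 𝓝 X, Kr e (fun Z => χ Z * u Z) Y = Ga e (Gn χ η u) Y := by
  filter_upwards [h.one' X hX] with Y hY
  rw [Kr_ga he]
  unfold Ga Gn
  simp only [hY, one_mul]
  rfl

end B36
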