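import Pool.Agent.LibBE36M.M1a
import Pool.Agent.LibBE36.HC5b

/-! ROW M6a : holomorphic integrals over the plane. MEDIUM.
PLAN. `holo_dom`: fix `z0 ∈ U`, `ball z0 (2 ρ) ⊆ U`; `hol_fd` (LibBE36/HC3) bounds `‖fderiv ℂ (H · Y) z‖ ≤ b Y / ρ` for `z ∈ ball z0 ρ`; `hasFDerivAt_integral_of_dominated_of_fderiv_le`.
Measurability of `Y ↦ fderiv ℂ (fun z => H z Y) z0`: it is `L (1, 0) • fst + L (0, 1) • snd`, and `L v = lim n (H (z0 + v / n) Y - H z0 Y)` is a limit of continuous functions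
(`stronglyMeasurable_of_tendsto`, `aestronglyMeasurable_of_tendsto_ae`). `HX_smooth`: the extension is `C^n` on the ball over `ℂ` for every `n`, by induction for all functions at once:
`contDiffOn_succ_iff_fderiv_of_isOpen`, `fderiv ℂ g z = (fderiv ℂ g z (1, 0)) • fst + (fderiv ℂ g z (0, 1)) • snd`, the components are holomorphic by `hol_dir` (HC5); restrict scalars, compose with
`j` (smooth: it is `ofReal` in both coordinates), take real parts. `HX_iter`: `Hol_iter` (HC5b) for `(B' / B) f`, `B' = max 2 (1 / r) ≤ 2 / r`; if `B = 0` use the bound `δ > 0`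
and let `δ → 0`. -/

open MeasureTheory Set Filter Topology
open scoped ContDiff

namespace B36

open BGS BR

/-- a linear map of two complex variables -/
private noncomputable def lin2 (a b : ℂ) : ℂ × ℂ →L[ℂ] ℂ :=
  a • ContinuousLinearMap.fst ℂ ℂ ℂ + b • ContinuousLinearMap.snd ℂ ℂ ℂ

private theorem lin2_eq (L : ℂ × ℂ →L[ℂ] ℂ) : lin2 (L (1, 0)) (L (0, 1)) = L := by
  ext
  · simp [lin2]
  · simp [lin2]

private theorem lin2_cont : Continuous fun p : ℂ × ℂ => lin2 p.1 p.2 := by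
  unfold lin2
  fun_prop

theorem holo_dom {U : Set (ℂ × ℂ)} (hU : IsOpen U) {H : ℂ × ℂ → Pl → ℂ}
    (hH : ∀ Y, DifferentiableOn ℂ (fun z => H z Y) U) (hc : ∀ z, Continuous (H z)) {b : Pl → ℝ}
    (hb : Integrable b) (hB : ∀ z ∈ U, ∀ Y, ‖H z Y‖ ≤ b Y) :
    DifferentiableOn ℂ (fun z => ∫ Y : Pl, H z Y) U := by
  intro z0 hz0
  obtain ⟨ε, hε, hball⟩ := Metric.isOpen_iff.1 hU z0 hz0
  set ρ := ε / 2 with hρ
  have hρ0 : 0 < ρ := by positivity
  have hsub : ∀ z ∈ Metric.ball z0 ρ, Metric.ball z ρ ⊆ U := by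
    intro z hz w hw
    apply hball
    rw [Metric.mem_ball] at hz hw ⊢
    calc dist w z0 ≤ dist w z + dist z z0 := dist_triangle _ _ _
      _ < ρ + ρ := add_lt_add hw hz
      _ = ε := by rw [hρ]; ring
  have hdiff : ∀ Y, ∀ z ∈ Metric.ball z0 ρ, HasFDerivAt (fun z => H z Y)
      (fderiv ℂ (fun z => H z Y) z) z := by
    intro Y z hz
    have hzU : z ∈ U := hsub z hz (Metric.mem_ball_self hρ0)
    exact ((hH Y z hzU).differentiableAt (hU.mem_nhds hzU)).hasFDerivAt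
  have hmeas : AEStronglyMeasurable (fun Y => fderiv ℂ (fun z => H z Y) z0) volume := by
    have hn : Tendsto (fun n : ℕ => ‖((n : ℂ) + 1)‖) atTop atTop := by
      have h1 : ∀ n : ℕ, ‖((n : ℂ) + 1)‖ = (n : ℝ) + 1 := by
        intro n
        have : ((n : ℂ) + 1) = ((n + 1 : ℕ) : ℂ) := by push_cast; rfl
        rw [this, Complex.norm_natCast]
        push_cast
        rfl
      simp_rw [h1]
      exact tendsto_atTop_add_const_right _ _ tendsto_natCast_atTop_atTop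
    refine aestronglyMeasurable_of_tendsto_ae (u := atTop) (f := fun (n : ℕ) (Y : Pl) =>
      lin2 (((n : ℂ) + 1) • (H (z0 + ((n : ℂ) + 1)⁻¹ • ((1, 0) : ℂ × ℂ)) Y - H z0 Y))
        (((n : ℂ) + 1) • (H (z0 + ((n : ℂ) + 1)⁻¹ • ((0, 1) : ℂ × ℂ)) Y - H z0 Y))) ?_ ?_
    · intro n
      apply Continuous.aestronglyMeasurable
      have h1 := hc (z0 + ((n : ℂ) + 1)⁻¹ • ((1, 0) : ℂ × ℂ))
      have h2 := hc (z0 + ((n : ℂ) + 1)⁻¹ • ((0, 1) : ℂ × ℂ))
      have h3 := hc z0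
      exact lin2_cont.comp (((h1.sub h3).const_smul ((n : ℂ) + 1)).prodMk
        ((h2.sub h3).const_smul ((n : ℂ) + 1)))
    · refine Eventually.of_forall fun Y => ?_
      have hd := hdiff Y z0 (Metric.mem_ball_self hρ0)
      have l1 := hd.lim (1, 0) hn
      have l2 := hd.lim (0, 1) hn
      have h4 : Tendsto (fun n : ℕ =>
          lin2 (((n : ℂ) + 1) • (H (z0 + ((n : ℂ) + 1)⁻¹ • ((1, 0) : ℂ × ℂ)) Y - H z0 Y))
            (((n : ℂ) + 1) • (H (z0 + ((n : ℂ) + 1)⁻¹ • ((0, 1) : ℂ × ℂ)) Y - H z0 Y))) atTop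
          (𝓝 (lin2 (fderiv ℂ (fun z => H z Y) z0 (1, 0)) (fderiv ℂ (fun z => H z Y) z0 (0, 1)))) := by
        have h5 := (lin2_cont.tendsto (fderiv ℂ (fun z => H z Y) z0 (1, 0),
          fderiv ℂ (fun z => H z Y) z0 (0, 1))).comp (l1.prodMk_nhds l2)
        exact h5
      rw [lin2_eq] at h4
      exact h4
  have hbd : ∀ Y, ∀ z ∈ Metric.ball z0 ρ, ‖fderiv ℂ (fun z => H z Y) z‖ ≤ b Y / ρ := by
    intro Y z hz
    exact H36.hol_fd hρ0 ((hH Y).mono (hsub z hz)) fun w hw => hB w (hsub z hz hw) Y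
  have h := hasFDerivAt_integral_of_dominated_of_fderiv_le (μ := (volume : Measure Pl))
    (F := H) (F' := fun z Y => fderiv ℂ (fun z => H z Y) z) (x₀ := z0)
    (bound := fun Y => b Y / ρ) (s := Metric.ball z0 ρ) (Metric.ball_mem_nhds z0 hρ0)
    (Eventually.of_forall fun z => (hc z).aestronglyMeasurable)
    (hb.mono' (hc z0).aestronglyMeasurable (Eventually.of_forall fun Y => hB z0 hz0 Y))
    hmeas (Eventually.of_forall fun Y z hz => hbd Y z hz) (hb.div_const ρ)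
    (Eventually.of_forall fun Y z hz => hdiff Y z hz)
  exact h.differentiableAt.differentiableWithinAt

private theorem cd_n {U : Set (ℂ × ℂ)} (hU : IsOpen U) (n : ℕ) :
    ∀ g : ℂ × ℂ → ℂ, DifferentiableOn ℂ g U → ContDiffOn ℂ n g U := by
  induction n with
  | zero =>
    intro g hg
    exact contDiffOn_zero.2 hg.continuousOn
  | succ n ih =>
    intro g hg
    have h1 : ContDiffOn ℂ ((n : ℕ∞ω) + 1) g U := by
      rw [contDiffOn_succ_iff_fderiv_of_isOpen hU]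
      refine ⟨hg, fun h => by simp at h, ?_⟩
      have h2 : ContDiffOn ℂ n (fun z => lin2 (fderiv ℂ g z (1, 0)) (fderiv ℂ g z (0, 1))) U := by
        unfold lin2
        exact ((ih _ (H36.hol_dir hU hg (1, 0))).smul
          (contDiffOn_const (c := ContinuousLinearMap.fst ℂ ℂ ℂ))).add
          ((ih _ (H36.hol_dir hU hg (0, 1))).smul
            (contDiffOn_const (c := ContinuousLinearMap.snd ℂ ℂ ℂ)))
      exact h2.congr fun z _ => (lin2_eq _).symm
    exact_mod_cast h1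

theorem HX_smooth {f : Pl → ℝ} (h : ∀ X, ∃ r B : ℝ, 0 < r ∧ HX f X r B) : ContDiff ℝ ∞ f := by
  rw [contDiff_infty]
  intro n
  rw [contDiff_iff_contDiffAt]
  intro X
  obtain ⟨r, B, hr, g, hg⟩ := h X
  have hU : IsOpen (Metric.ball (H36.j X : ℂ × ℂ) r) := Metric.isOpen_ball
  have hX : (H36.j X : ℂ × ℂ) ∈ Metric.ball (H36.j X : ℂ × ℂ) r := Metric.mem_ball_self hr
  have h1 : ContDiffAt ℂ n g (H36.j X) := (cd_n hU n g hg.diff).contDiffAt (hU.mem_nhds hX)
  have h2 : ContDiffAt ℝ n g (H36.j X) := h1.restrict_scalars ℝ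
  have hj : ContDiff ℝ n (fun y : Pl => ((y.1 : ℂ), (y.2 : ℂ))) :=
    (Complex.ofRealCLM.contDiff.comp contDiff_fst).prodMk
      (Complex.ofRealCLM.contDiff.comp contDiff_snd)
  have hjc : Continuous (fun y : Pl => ((y.1 : ℂ), (y.2 : ℂ))) := hj.continuous
  have h3 : ContDiffAt ℝ n (fun y : Pl => (g ((y.1 : ℂ), (y.2 : ℂ))).re) X := by
    have h4 : ContDiffAt ℝ n (fun y : Pl => g ((y.1 : ℂ), (y.2 : ℂ))) X :=
      ContDiffAt.comp (g := g) X h2 hj.contDiffAt
    exact Complex.reCLM.contDiff.contDiffAt.comp X h4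
  refine h3.congr_of_eventuallyEq ?_
  have h5 : ∀ᶠ y : Pl in 𝓝 X, ((y.1 : ℂ), (y.2 : ℂ)) ∈ Metric.ball (H36.j X : ℂ × ℂ) r :=
    hjc.continuousAt.eventually_mem (hU.mem_nhds hX)
  filter_upwards [h5] with y hy
  have h6 := hg.ext y hy
  have h7 : (g ((y.1 : ℂ), (y.2 : ℂ))) = ((f y : ℝ) : ℂ) := h6
  rw [h7, Complex.ofReal_re]

private theorem iter_pos {f : Pl → ℝ} (hf : ContDiff ℝ ∞ f) {X : Pl} {r B : ℝ} (hr : 0 < r)
    (hr1 : r ≤ 1) (hB : 0 < B) (h : HX f X r B) (k : ℕ) :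
    ‖iteratedFDeriv ℝ k f X‖ ≤ (k + 1 : ℝ) ^ k * B * (2 / r) ^ k := by
  obtain ⟨g, hg⟩ := h
  set B' := max 2 (1 / r) with hB'
  have h2 : 2 ≤ B' := le_max_left _ _
  have hr' : 1 / r ≤ B' := le_max_right _ _
  have hB0 : 0 < B' := by linarith
  have hB2 : B' ≤ 2 / r := by
    apply max_le
    · rw [le_div_iff₀ hr]
      linarith
    · exact div_le_div_of_nonneg_right (by norm_num) hr.le
  have hrad : 1 / B' ≤ r := by
    rw [div_le_iff₀ hB0]
    rw [div_le_iff₀ hr] at hr'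
    linarith
  set c := B' / B with hc
  have hc0 : 0 < c := by positivity
  have hhol : H36.Hol (fun y => c * f y) X B' := by
    refine ⟨fun z => (c : ℂ) * g z, ?_, ?_, ?_⟩
    · exact (hg.diff.mono (Metric.ball_subset_ball hrad)).const_mul _
    · intro z hz
      rw [norm_mul, Complex.norm_real, Real.norm_of_nonneg hc0.le]
      have h3 := hg.bound z (Metric.ball_subset_ball hrad hz)
      calc c * ‖g z‖ ≤ c * B := mul_le_mul_of_nonneg_left h3 hc0.le
        _ = B' := by rw [hc]; field_simp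
    · intro y hy
      rw [hg.ext y (Metric.ball_subset_ball hrad hy)]
      change (c : ℂ) * ((f y : ℝ) : ℂ) = ((c * f y : ℝ) : ℂ)
      push_cast
      rfl
  have h4 := H36.Hol_iter (contDiff_const.mul hf) k h2 hhol
  have h5 : iteratedFDeriv ℝ k (fun y => c * f y) X = c • iteratedFDeriv ℝ k f X :=
    iteratedFDeriv_const_smul_apply' (a := c) (hf.of_le (by exact_mod_cast le_top)).contDiffAt
  rw [h5, norm_smul, Real.norm_of_nonneg hc0.le] at h4
  have h6 : ‖iteratedFDeriv ℝ k f X‖ ≤ (k + 1 : ℝ) ^ k * B * B' ^ k := by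
    have h7 : c * ‖iteratedFDeriv ℝ k f X‖ ≤ c * ((k + 1 : ℝ) ^ k * B * B' ^ k) := by
      refine h4.trans (le_of_eq ?_)
      rw [hc, pow_succ]
      field_simp
    exact le_of_mul_le_mul_left h7 hc0
  refine h6.trans (mul_le_mul_of_nonneg_left ?_ (by positivity))
  exact pow_le_pow_left₀ hB0.le hB2 k

theorem HX_iter {f : Pl → ℝ} (hf : ContDiff ℝ ∞ f) {X : Pl} {r B : ℝ} (hr : 0 < r) (hr1 : r ≤ 1)
    (hB : 0 ≤ B) (h : HX f X r B) (k : ℕ) :
    ‖iteratedFDeriv ℝ k f X‖ ≤ (k + 1 : ℝ) ^ k * B * (2 / r) ^ k := by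
  set A := (k + 1 : ℝ) ^ k * (2 / r) ^ k with hA
  have hA0 : 0 < A := by positivity
  apply le_of_forall_pos_le_add
  intro ε hε
  obtain ⟨g, hg⟩ := h
  have h1 : HX f X r (B + ε / A) :=
    ⟨g, hg.diff, fun z hz => (hg.bound z hz).trans (by
      have : 0 < ε / A := by positivity
      linarith), hg.ext⟩
  have h2 := iter_pos hf hr hr1 (by positivity) h1 k
  refine h2.trans (le_of_eq ?_)
  have h3 : (k + 1 : ℝ) ^ k * (B + ε / A) * (2 / r) ^ k = (k + 1 : ℝ) ^ k * B * (2 / r) ^ k +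
      A * (ε / A) := by
    rw [hA]
    ring
  rw [h3]
  field_simp

end B36
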