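import Pool.Agent.LibBE36M.M1a

/-! ROW M6b : `Bh` at complex points. SHORT/MEDIUM, only Mathlib. -/

open MeasureTheory Set Filter Topology
open scoped ContDiff

namespace B36

open BGS BR

private theorem M6b_j (X : Pl) : (H36.j X : ℂ × ℂ) = ((X.1 : ℂ), (X.2 : ℂ)) := rfl

theorem Bc_real (X Y : Pl) : Bc (H36.j X) Y = (Bh X Y : ℂ) := by
  rw [M6b_j]
  simp only [Bc, Bh]
  push_cast
  rfl

theorem Bc_diff (Y : Pl) : Differentiable ℂ fun z => Bc z Y := by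
  unfold Bc
  fun_prop

theorem Bc_cont (z : ℂ × ℂ) : Continuous (Bc z) := by
  unfold Bc
  fun_prop

private theorem M6b_norm {X : Pl} {z : ℂ × ℂ} (hz : z ∈ Metric.ball (H36.j X : ℂ × ℂ) 1) :
    |z.1.re - X.1| < 1 ∧ ‖z - (H36.j X : ℂ × ℂ)‖ < 1 := by
  have h : ‖z - (H36.j X : ℂ × ℂ)‖ < 1 := by
    rw [← dist_eq_norm]; exact Metric.mem_ball.1 hz
  refine ⟨?_, h⟩
  have h1 : ‖(z - (H36.j X : ℂ × ℂ)).1‖ ≤ ‖z - (H36.j X : ℂ × ℂ)‖ := norm_fst_le _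
  have h2 : (z - (H36.j X : ℂ × ℂ)).1 = z.1 - (X.1 : ℂ) := rfl
  rw [h2] at h1
  have h3 : |(z.1 - (X.1 : ℂ)).re| ≤ ‖z.1 - (X.1 : ℂ)‖ := Complex.abs_re_le_norm _
  have h4 : (z.1 - (X.1 : ℂ)).re = z.1.re - X.1 := by simp
  rw [h4] at h3
  linarith

private theorem M6b_re (z : ℂ × ℂ) (Y : Pl) :
    (Bc z Y).re = Real.cos z.1.im * Bh (z.1.re, z.2.re) Y -
      Real.exp (z.1.re + Y.1) / 2 * (Real.cos z.1.im * z.2.im ^ 2 +
        2 * (z.2.re - Y.2) * z.2.im * Real.sin z.1.im) := by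
  have h1 : (Complex.cosh (z.1 - (Y.1 : ℂ))).re = Real.cosh (z.1.re - Y.1) * Real.cos z.1.im := by
    have : z.1 - (Y.1 : ℂ) = ((z.1.re - Y.1 : ℝ) : ℂ) + (z.1.im : ℝ) * Complex.I := by
      apply Complex.ext <;> simp
    rw [this, Complex.cosh_add, Complex.cosh_mul_I, Complex.sinh_mul_I, ← Complex.ofReal_cosh,
      ← Complex.ofReal_sinh, ← Complex.ofReal_cos, ← Complex.ofReal_sin, Complex.add_re,
      Complex.re_ofReal_mul, Complex.re_ofReal_mul, Complex.ofReal_re, Complex.re_ofReal_mul,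
      Complex.I_re]
    ring
  have h2 : (Complex.exp (z.1 + (Y.1 : ℂ))).re = Real.exp (z.1.re + Y.1) * Real.cos z.1.im := by
    rw [Complex.exp_re]; simp
  have h3 : (Complex.exp (z.1 + (Y.1 : ℂ))).im = Real.exp (z.1.re + Y.1) * Real.sin z.1.im := by
    rw [Complex.exp_im]; simp
  have h4 : ((z.2 - (Y.2 : ℂ)) ^ 2).re = (z.2.re - Y.2) ^ 2 - z.2.im ^ 2 := by
    rw [sq]; simp [Complex.mul_re]; ring
  have h5 : ((z.2 - (Y.2 : ℂ)) ^ 2).im = 2 * (z.2.re - Y.2) * z.2.im := by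
    rw [sq]; simp [Complex.mul_im]; ring
  have h6 : (Complex.exp (z.1 + (Y.1 : ℂ)) * (z.2 - (Y.2 : ℂ)) ^ 2 / 2).re =
      (Real.exp (z.1.re + Y.1) * Real.cos z.1.im * ((z.2.re - Y.2) ^ 2 - z.2.im ^ 2) -
        Real.exp (z.1.re + Y.1) * Real.sin z.1.im * (2 * (z.2.re - Y.2) * z.2.im)) / 2 := by
    have : (Complex.exp (z.1 + (Y.1 : ℂ)) * (z.2 - (Y.2 : ℂ)) ^ 2 / 2).re =
        (Complex.exp (z.1 + (Y.1 : ℂ)) * (z.2 - (Y.2 : ℂ)) ^ 2).re / 2 := by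
      exact Complex.div_ofNat_re (Complex.exp (z.1 + (Y.1 : ℂ)) * (z.2 - (Y.2 : ℂ)) ^ 2) 2
    rw [this, Complex.mul_re, h2, h3, h4, h5]
  simp only [Bc, Complex.add_re, h1, h6, Bh]
  ring

theorem Bc_im {K : Set Pl} (hK : IsCompact K) : ∃ C : ℝ, 1 ≤ C ∧ ∀ X ∈ K,
    ∀ z ∈ Metric.ball (H36.j X : ℂ × ℂ) 1, ∀ Y : Pl,
      (1 - C * max |z.1.im| |z.2.im| ^ 2) * Bh (z.1.re, z.2.re) Y ≤ (Bc z Y).re := by
  obtain ⟨R, hR⟩ := hK.isBounded.exists_norm_le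
  refine ⟨3 / 2 + 2 * Real.exp (2 * (R + 1)), ?_, ?_⟩
  · have := Real.exp_pos (2 * (R + 1)); linarith
  intro X hX z hz Y
  have hx1 : X.1 ≤ R := (le_abs_self _).trans ((norm_fst_le X).trans (hR X hX))
  have hz1 : z.1.re ≤ R + 1 := by
    have := (abs_lt.1 (M6b_norm hz).1).2; linarith
  set m := max |z.1.im| |z.2.im| with hm
  have hm0 : 0 ≤ m := le_max_of_le_left (abs_nonneg _)
  have hm1 : z.1.im ^ 2 ≤ m ^ 2 := by
    rw [← sq_abs]; exact pow_le_pow_left₀ (abs_nonneg _) (le_max_left _ _) 2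
  have hm2 : z.2.im ^ 2 ≤ m ^ 2 := by
    rw [← sq_abs z.2.im]; exact pow_le_pow_left₀ (abs_nonneg _) (le_max_right _ _) 2
  rw [M6b_re]
  set B := Bh (z.1.re, z.2.re) Y with hB
  set E := Real.exp (z.1.re + Y.1) with hE
  set a := z.1.re - Y.1 with ha
  set s := z.2.re - Y.2 with hs
  have hE0 : 0 < E := Real.exp_pos _
  have hBd : B = Real.cosh a + E * s ^ 2 / 2 := rfl
  have hc1 : 1 ≤ Real.cosh a := Real.one_le_cosh a
  have hBs : E * s ^ 2 / 2 ≤ B := by rw [hBd]; linarith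
  have hBc : Real.cosh a ≤ B := by
    rw [hBd]; have : 0 ≤ E * s ^ 2 / 2 := by positivity
    linarith
  have hB0 : 0 ≤ B := by linarith
  have hEB : E ≤ 2 * Real.exp (2 * (R + 1)) * B := by
    have h1 : E = Real.exp (2 * z.1.re) * Real.exp (-a) := by
      rw [hE, ← Real.exp_add]; congr 1; rw [ha]; ring
    have h2 : Real.exp (-a) ≤ 2 * Real.cosh a := by
      rw [Real.cosh_eq]; have := Real.exp_pos a; linarith
    have h3 : Real.exp (2 * z.1.re) ≤ Real.exp (2 * (R + 1)) := Real.exp_le_exp.2 (by linarith)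
    calc E = Real.exp (2 * z.1.re) * Real.exp (-a) := h1
      _ ≤ Real.exp (2 * (R + 1)) * (2 * B) := by
          apply mul_le_mul h3 (h2.trans (by linarith)) (Real.exp_pos _).le (Real.exp_pos _).le
      _ = _ := by ring
  have hcos : 1 - z.1.im ^ 2 / 2 ≤ Real.cos z.1.im := Real.one_sub_sq_div_two_le_cos
  have hcos' : Real.cos z.1.im ≤ 1 := Real.cos_le_one _
  have hsin : |Real.sin z.1.im| ≤ |z.1.im| := Real.abs_sin_le_abs
  have hcross : 2 * s * z.2.im * Real.sin z.1.im ≤ z.1.im ^ 2 * s ^ 2 + z.2.im ^ 2 := by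
    have h1 : 2 * s * z.2.im * Real.sin z.1.im ≤ s ^ 2 * Real.sin z.1.im ^ 2 + z.2.im ^ 2 := by
      nlinarith [sq_nonneg (s * Real.sin z.1.im - z.2.im)]
    have h2 : Real.sin z.1.im ^ 2 ≤ z.1.im ^ 2 := by
      rw [← sq_abs, ← sq_abs z.1.im]; exact pow_le_pow_left₀ (abs_nonneg _) hsin 2
    nlinarith [mul_le_mul_of_nonneg_left h2 (sq_nonneg s)]
  have hin : Real.cos z.1.im * z.2.im ^ 2 + 2 * s * z.2.im * Real.sin z.1.im ≤
      2 * m ^ 2 + m ^ 2 * s ^ 2 := by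
    have h1 : Real.cos z.1.im * z.2.im ^ 2 ≤ m ^ 2 := by
      nlinarith [sq_nonneg z.2.im]
    have h2 : z.1.im ^ 2 * s ^ 2 ≤ m ^ 2 * s ^ 2 := mul_le_mul_of_nonneg_right hm1 (sq_nonneg s)
    linarith
  have hfin : E / 2 * (Real.cos z.1.im * z.2.im ^ 2 + 2 * s * z.2.im * Real.sin z.1.im) ≤
      (1 + 2 * Real.exp (2 * (R + 1))) * m ^ 2 * B := by
    calc E / 2 * (Real.cos z.1.im * z.2.im ^ 2 + 2 * s * z.2.im * Real.sin z.1.im)
        ≤ E / 2 * (2 * m ^ 2 + m ^ 2 * s ^ 2) := mul_le_mul_of_nonneg_left hin (by positivity)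
      _ = m ^ 2 * E + m ^ 2 * (E * s ^ 2 / 2) := by ring
      _ ≤ m ^ 2 * (2 * Real.exp (2 * (R + 1)) * B) + m ^ 2 * B :=
          add_le_add (mul_le_mul_of_nonneg_left hEB (sq_nonneg m))
            (mul_le_mul_of_nonneg_left hBs (sq_nonneg m))
      _ = _ := by ring
  have hcB : (1 - m ^ 2 / 2) * B ≤ Real.cos z.1.im * B := by
    apply mul_le_mul_of_nonneg_right _ hB0; linarith
  have hgoal : (1 - (3 / 2 + 2 * Real.exp (2 * (R + 1))) * m ^ 2) * B =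
      (1 - m ^ 2 / 2) * B - (1 + 2 * Real.exp (2 * (R + 1))) * m ^ 2 * B := by ring
  rw [hgoal]
  linarith

private theorem M6b_lip {g : ℂ × ℂ → ℂ} (hg : ContDiff ℂ 1 g) {K : Set Pl} (hK : IsCompact K) :
    ∃ L : ℝ, 0 ≤ L ∧ ∀ X ∈ K, ∀ z ∈ Metric.ball (H36.j X : ℂ × ℂ) 1,
      ‖g z - g (H36.j X)‖ ≤ L * ‖z - H36.j X‖ := by
  obtain ⟨R, hR⟩ := hK.isBounded.exists_norm_le
  have hc : IsCompact (Metric.closedBall (0 : ℂ × ℂ) (R + 1)) := isCompact_closedBall _ _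
  have hcont : Continuous (fderiv ℂ g) := hg.continuous_fderiv one_ne_zero
  obtain ⟨L, hL⟩ := hc.exists_bound_of_continuousOn hcont.continuousOn
  refine ⟨max L 0, le_max_right _ _, ?_⟩
  intro X hX z hz
  have hj : ‖(H36.j X : ℂ × ℂ)‖ ≤ R := by
    rw [H36.Cxf.j_norm]; exact hR X hX
  have h1 := (M6b_norm hz).2
  have hjm : (H36.j X : ℂ × ℂ) ∈ Metric.closedBall (0 : ℂ × ℂ) (R + 1) := by
    rw [mem_closedBall_zero_iff]; linarith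
  have hzm : z ∈ Metric.closedBall (0 : ℂ × ℂ) (R + 1) := by
    rw [mem_closedBall_zero_iff]
    have : ‖z‖ ≤ ‖z - (H36.j X : ℂ × ℂ)‖ + ‖(H36.j X : ℂ × ℂ)‖ := by
      have := norm_add_le (z - (H36.j X : ℂ × ℂ)) (H36.j X : ℂ × ℂ)
      simpa using this
    linarith
  refine (convex_closedBall (0 : ℂ × ℂ) (R + 1)).norm_image_sub_le_of_norm_fderiv_le (𝕜 := ℂ)
    (f := g) (C := max L 0) (fun x _ => (hg.differentiable (by norm_num)) x)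
    (fun x hx => (hL x hx).trans (le_max_left _ _)) hjm hzm

theorem Bc_lip {K : Set Pl} (hK : IsCompact K) : ∃ C : ℝ, 1 ≤ C ∧ ∀ X ∈ K,
    ∀ z ∈ Metric.ball (H36.j X : ℂ × ℂ) 1, ∀ Y : Pl,
      ‖Bc z Y - (Bh X Y : ℂ)‖ ≤ C * ‖z - H36.j X‖ * Bh X Y := by
  obtain ⟨C0, hC0, hdom⟩ := Bh_dom hK
  have hp : ContDiff ℂ 1 fun z : ℂ × ℂ => Complex.exp (-z.1) + Complex.exp z.1 * z.2 ^ 2 := by
    fun_prop
  have hq : ContDiff ℂ 1 fun z : ℂ × ℂ => Complex.exp z.1 * z.2 := by fun_prop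
  have hr : ContDiff ℂ 1 fun z : ℂ × ℂ => Complex.exp z.1 := by fun_prop
  obtain ⟨L1, hL1, h1⟩ := M6b_lip hp hK
  obtain ⟨L2, hL2, h2⟩ := M6b_lip hq hK
  obtain ⟨L3, hL3, h3⟩ := M6b_lip hr hK
  refine ⟨1 + (L1 + L2 + L3) * C0, ?_, ?_⟩
  · have : 0 ≤ (L1 + L2 + L3) * C0 := by positivity
    linarith
  intro X hX z hz Y
  obtain ⟨d1, d2, d3, d4⟩ := hdom X hX Y
  have hB : 1 ≤ Bh X Y := Bh_one X Y
  have e1 := h1 X hX z hz
  have e2 := h2 X hX z hz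
  have e3 := h3 X hX z hz
  set δ := ‖z - (H36.j X : ℂ × ℂ)‖ with hδ
  have hδ0 : 0 ≤ δ := norm_nonneg _
  have hform : ∀ w : ℂ × ℂ, Bc w Y =
      (Complex.exp (-w.1) + Complex.exp w.1 * w.2 ^ 2) * (Complex.exp (Y.1 : ℂ) / 2) -
        (Complex.exp w.1 * w.2) * (Complex.exp (Y.1 : ℂ) * (Y.2 : ℂ)) +
        Complex.exp w.1 * ((Complex.exp (-(Y.1 : ℂ)) + Complex.exp (Y.1 : ℂ) * (Y.2 : ℂ) ^ 2) / 2) := by
    intro w
    simp only [Bc, Complex.cosh]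
    rw [sub_eq_add_neg w.1, neg_add, neg_neg, Complex.exp_add, Complex.exp_add, Complex.exp_add]
    ring
  rw [← Bc_real, hform z, hform (H36.j X)]
  set p := Complex.exp (-z.1) + Complex.exp z.1 * z.2 ^ 2 with hp'
  set p' := Complex.exp (-(H36.j X : ℂ × ℂ).1) +
    Complex.exp (H36.j X : ℂ × ℂ).1 * (H36.j X : ℂ × ℂ).2 ^ 2 with hp''
  set q := Complex.exp z.1 * z.2 with hq'
  set q' := Complex.exp (H36.j X : ℂ × ℂ).1 * (H36.j X : ℂ × ℂ).2 with hq''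
  set r := Complex.exp z.1 with hr'
  set r' := Complex.exp (H36.j X : ℂ × ℂ).1 with hr''
  have nE : ‖Complex.exp (Y.1 : ℂ)‖ = Real.exp Y.1 := by
    rw [Complex.norm_exp]; simp
  have nE' : ‖Complex.exp (-(Y.1 : ℂ))‖ = Real.exp (-Y.1) := by
    rw [Complex.norm_exp]; simp
  have nY : ‖(Y.2 : ℂ)‖ = |Y.2| := Complex.norm_real _
  have key : p * (Complex.exp (Y.1 : ℂ) / 2) - q * (Complex.exp (Y.1 : ℂ) * (Y.2 : ℂ)) +
      r * ((Complex.exp (-(Y.1 : ℂ)) + Complex.exp (Y.1 : ℂ) * (Y.2 : ℂ) ^ 2) / 2) -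
      (p' * (Complex.exp (Y.1 : ℂ) / 2) - q' * (Complex.exp (Y.1 : ℂ) * (Y.2 : ℂ)) +
      r' * ((Complex.exp (-(Y.1 : ℂ)) + Complex.exp (Y.1 : ℂ) * (Y.2 : ℂ) ^ 2) / 2)) =
      (p - p') * (Complex.exp (Y.1 : ℂ) / 2) - (q - q') * (Complex.exp (Y.1 : ℂ) * (Y.2 : ℂ)) +
      (r - r') * ((Complex.exp (-(Y.1 : ℂ)) + Complex.exp (Y.1 : ℂ) * (Y.2 : ℂ) ^ 2) / 2) := by
    ring
  rw [key]
  have a1 : ‖(p - p') * (Complex.exp (Y.1 : ℂ) / 2)‖ ≤ L1 * δ * (C0 * Bh X Y) := by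
    rw [norm_mul]
    apply mul_le_mul e1 _ (norm_nonneg _) (by positivity)
    rw [norm_div, nE, Complex.norm_ofNat]
    have := Real.exp_pos Y.1
    linarith
  have a2 : ‖(q - q') * (Complex.exp (Y.1 : ℂ) * (Y.2 : ℂ))‖ ≤ L2 * δ * (C0 * Bh X Y) := by
    rw [norm_mul]
    apply mul_le_mul e2 _ (norm_nonneg _) (by positivity)
    rw [norm_mul, nE, nY]
    exact d4
  have a3 : ‖(r - r') * ((Complex.exp (-(Y.1 : ℂ)) + Complex.exp (Y.1 : ℂ) * (Y.2 : ℂ) ^ 2) / 2)‖ ≤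
      L3 * δ * (C0 * Bh X Y) := by
    rw [norm_mul]
    apply mul_le_mul e3 _ (norm_nonneg _) (by positivity)
    rw [norm_div, Complex.norm_ofNat]
    have b1 : ‖Complex.exp (-(Y.1 : ℂ)) + Complex.exp (Y.1 : ℂ) * (Y.2 : ℂ) ^ 2‖ ≤
        Real.exp (-Y.1) + Real.exp Y.1 * Y.2 ^ 2 := by
      refine (norm_add_le _ _).trans ?_
      rw [nE', norm_mul, nE, norm_pow, nY, sq_abs]
    linarith
  calc _ ≤ ‖(p - p') * (Complex.exp (Y.1 : ℂ) / 2) - (q - q') * (Complex.exp (Y.1 : ℂ) * (Y.2 : ℂ))‖ +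
        ‖(r - r') * ((Complex.exp (-(Y.1 : ℂ)) + Complex.exp (Y.1 : ℂ) * (Y.2 : ℂ) ^ 2) / 2)‖ :=
        norm_add_le _ _
    _ ≤ ‖(p - p') * (Complex.exp (Y.1 : ℂ) / 2)‖ + ‖(q - q') * (Complex.exp (Y.1 : ℂ) * (Y.2 : ℂ))‖ +
        ‖(r - r') * ((Complex.exp (-(Y.1 : ℂ)) + Complex.exp (Y.1 : ℂ) * (Y.2 : ℂ) ^ 2) / 2)‖ := by
        gcongr; exact norm_sub_le _ _
    _ ≤ L1 * δ * (C0 * Bh X Y) + L2 * δ * (C0 * Bh X Y) + L3 * δ * (C0 * Bh X Y) := by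
        linarith
    _ ≤ (1 + (L1 + L2 + L3) * C0) * δ * Bh X Y := by
        have : 0 ≤ δ * Bh X Y := by positivity
        nlinarith

end B36
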