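import Pool.Agent.LibBE36M.M6a
import Pool.Agent.LibBE36M.M6b
import Pool.Agent.LibBE36M.M2

/-! ROW M6c : the average is holomorphic. MEDIUM.
PLAN. The extension is `g z = (2 π e²)⁻¹ ∫ f(Y) exp(-(Bc z Y - 1) / e²) exp(Y.1) dY`; at real points it is `Kr e f` (`Bc_real`). Holomorphy: `holo_dom` on the ball with the dominating functions below.
`Kr_hol`: `Bc_im` at `z` in the ball of radius `e / C'` gives `Re Bc ≥ (1 - C e² / C'²) Bh (Re z) Y`, so `|kernel| ≤ exp(-(Bh - 1) / e² + Bh / 4)` for `C' ≥ 2 √C`, `≤ exp(1 / e²) exp(-(3/4) Bh (Re z) Y / e²)`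
(`e ≤ 1`): for the bound of `g z` use `Kr_int` at `Re z` with a = `1 / e² - 1 / 4`. For the domination on the whole ball (a bound independent of `z`; only integrability is needed) use `Bc_lip`, choosing the radius
small: `‖Bc z Y - Bh X Y‖ ≤ Bh X Y / 8`, `b Y = |M| exp(1 / e²) exp(-(7/8) Bh X Y / e²) exp(Y.1)`. `Kr_far`: `r` with `C r ≤ 1/8`: `Re Bc z Y ≥ (7/8) Bh X Y`, and `(7/8) Bh - 1 ≥ Bh / 2` where `f ≠ 0` (`Bh ≥ 3`):
`|kernel| ≤ exp(-Bh / (2 e²)) ≤ exp(-3 / (4 e²)) exp(-Bh X Y / (4 e²))`, `Kr_int` with `a = 1 / (4 e²)`. -/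

open MeasureTheory Set Filter Topology
open scoped ContDiff

namespace B36

open BGS BR

/-- the integrand -/
private noncomputable def Hk (e : ℝ) (f : Pl → ℝ) (z : ℂ × ℂ) (Y : Pl) : ℂ :=
  (f Y : ℂ) * Complex.exp (-((Bc z Y - 1) / (e : ℂ) ^ 2)) * ((Real.exp Y.1 : ℝ) : ℂ)

private theorem Hk_norm (e : ℝ) (f : Pl → ℝ) (z : ℂ × ℂ) (Y : Pl) :
    ‖Hk e f z Y‖ = |f Y| * Real.exp (-(((Bc z Y).re - 1) / e ^ 2)) * Real.exp Y.1 := by
  unfold Hk
  rw [norm_mul, norm_mul, Complex.norm_real, Complex.norm_real, Real.norm_eq_abs,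
    Real.norm_of_nonneg (Real.exp_pos _).le, Complex.norm_exp]
  congr 3
  rw [← Complex.ofReal_pow, Complex.neg_re, Complex.div_ofReal_re, Complex.sub_re, Complex.one_re]

private theorem Hk_diff (e : ℝ) (f : Pl → ℝ) (Y : Pl) : Differentiable ℂ fun z => Hk e f z Y := by
  unfold Hk
  have h := Bc_diff Y
  fun_prop

private theorem Hk_cont {e : ℝ} {f : Pl → ℝ} (hf : Continuous f) (z : ℂ × ℂ) :
    Continuous (Hk e f z) := by
  unfold Hk
  have h := Bc_cont z
  have h1 : Continuous fun Y : Pl => (f Y : ℂ) := Complex.continuous_ofReal.comp hf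
  have h2 : Continuous fun Y : Pl => ((Real.exp Y.1 : ℝ) : ℂ) :=
    Complex.continuous_ofReal.comp (Real.continuous_exp.comp continuous_fst)
  exact (h1.mul ((((h.sub continuous_const).div_const _).neg).cexp)).mul h2

private theorem hx_of {e : ℝ} {f : Pl → ℝ} (hf : Continuous f) {X : Pl} {r B : ℝ}
    {b : Pl → ℝ} (hb : Integrable b)
    (hB : ∀ z ∈ Metric.ball (H36.j X : ℂ × ℂ) r, ∀ Y, ‖Hk e f z Y‖ ≤ b Y)
    (hB' : ∀ z ∈ Metric.ball (H36.j X : ℂ × ℂ) r,
      (2 * Real.pi * e ^ 2)⁻¹ * ∫ Y : Pl, ‖Hk e f z Y‖ ≤ B) : HX (Kr e f) X r B := by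
  refine ⟨fun z => ((2 * Real.pi * e ^ 2)⁻¹ : ℝ) * ∫ Y : Pl, Hk e f z Y, ?_, ?_, ?_⟩
  · exact (holo_dom Metric.isOpen_ball (fun Y => (Hk_diff e f Y).differentiableOn)
      (fun z => Hk_cont hf z) hb hB).const_mul _
  · intro z hz
    refine le_trans ?_ (hB' z hz)
    rw [norm_mul, Complex.norm_real, Real.norm_of_nonneg (by positivity)]
    exact mul_le_mul_of_nonneg_left (norm_integral_le_integral_norm _) (by positivity)
  · intro y _
    have h1 : ∀ Y, Hk e f (H36.j y) Y =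
        ((f Y * Real.exp (-((Bh y Y - 1) / e ^ 2)) * Real.exp Y.1 : ℝ) : ℂ) := by
      intro Y
      unfold Hk
      rw [Bc_real]
      push_cast
      rfl
    simp_rw [h1]
    rw [integral_complex_ofReal]
    change _ = ((Kr e f y : ℝ) : ℂ)
    unfold Kr
    push_cast
    rfl

private theorem im_le {X : Pl} {z : ℂ × ℂ} {r : ℝ} (hz : z ∈ Metric.ball (H36.j X : ℂ × ℂ) r) :
    max |z.1.im| |z.2.im| ≤ r := by
  rw [mem_ball_iff_norm] at hz
  have h0 : z - H36.j X = (z.1 - (X.1 : ℂ), z.2 - (X.2 : ℂ)) := rfl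
  rw [h0, Prod.norm_def] at hz
  have h1 : ‖z.1 - (X.1 : ℂ)‖ < r := (le_max_left _ _).trans_lt hz
  have h2 : ‖z.2 - (X.2 : ℂ)‖ < r := (le_max_right _ _).trans_lt hz
  have h3 := Complex.abs_im_le_norm (z.1 - (X.1 : ℂ))
  have h4 := Complex.abs_im_le_norm (z.2 - (X.2 : ℂ))
  rw [Complex.sub_im, Complex.ofReal_im, sub_zero] at h3 h4
  exact max_le (h3.trans h1.le) (h4.trans h2.le)

private theorem M_nonneg {f : Pl → ℝ} {M : ℝ} (hM : ∀ Y, |f Y| ≤ M) : 0 ≤ M :=
  (abs_nonneg _).trans (hM 0)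

theorem Kr_hol {K : Set Pl} (hK : IsCompact K) : ∃ C : ℝ, 1 ≤ C ∧ ∀ e : ℝ, 0 < e → e ≤ 1 →
    ∀ f : Pl → ℝ, Continuous f → ∀ M : ℝ, (∀ Y, |f Y| ≤ M) → ∀ X ∈ K,
      HX (Kr e f) X (e / C) (C * M) := by
  obtain ⟨C0, hC0, hI⟩ := Bc_im hK
  obtain ⟨C1, hC1, hL⟩ := Bc_lip hK
  set C := 2 * C0 + 8 * C1 + 4 with hC
  have hCp : 0 < C := by linarith
  refine ⟨C, by linarith, fun e he he1 f hf M hM X hX => ?_⟩
  have hM0 : 0 ≤ M := M_nonneg hM
  have hrad : e / C ≤ 1 := by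
    rw [div_le_one hCp]
    linarith
  have he2 : 0 < e ^ 2 := by positivity
  have hpi := Real.pi_pos
  -- domination
  have hdom : ∀ z ∈ Metric.ball (H36.j X : ℂ × ℂ) (e / C), ∀ Y, ‖Hk e f z Y‖ ≤
      M * Real.exp (1 / e ^ 2) * (Real.exp (-(7 / (8 * e ^ 2) * Bh X Y)) * Real.exp Y.1) := by
    intro z hz Y
    have h1 := hL X hX z (Metric.ball_subset_ball hrad hz) Y
    rw [mem_ball_iff_norm] at hz
    have hB1 := Bh_one X Y
    have h2 : C1 * ‖z - H36.j X‖ ≤ 1 / 8 := by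
      have h3 : ‖z - H36.j X‖ ≤ 1 / C := hz.le.trans (by
        apply div_le_div_of_nonneg_right he1 hCp.le)
      calc C1 * ‖z - H36.j X‖ ≤ C1 * (1 / C) := mul_le_mul_of_nonneg_left h3 (by linarith)
        _ ≤ 1 / 8 := by
          rw [mul_one_div, div_le_div_iff₀ hCp (by norm_num)]
          linarith
    have h3 : 7 / 8 * Bh X Y ≤ (Bc z Y).re := by
      have h4 := (Complex.abs_re_le_norm _).trans h1
      rw [Complex.sub_re, Complex.ofReal_re, abs_le] at h4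
      have h5 : C1 * ‖z - H36.j X‖ * Bh X Y ≤ 1 / 8 * Bh X Y :=
        mul_le_mul_of_nonneg_right h2 (by linarith)
      linarith [h4.1]
    rw [Hk_norm]
    have h6 : Real.exp (-(((Bc z Y).re - 1) / e ^ 2)) ≤
        Real.exp (1 / e ^ 2) * Real.exp (-(7 / (8 * e ^ 2) * Bh X Y)) := by
      rw [← Real.exp_add]
      apply Real.exp_le_exp.2
      have h7 : 1 / e ^ 2 + -(7 / (8 * e ^ 2) * Bh X Y) = -((7 / 8 * Bh X Y - 1) / e ^ 2) := by
        field_simp
        ring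
      rw [h7]
      apply neg_le_neg
      apply div_le_div_of_nonneg_right _ he2.le
      linarith
    calc |f Y| * Real.exp (-(((Bc z Y).re - 1) / e ^ 2)) * Real.exp Y.1
        ≤ M * (Real.exp (1 / e ^ 2) * Real.exp (-(7 / (8 * e ^ 2) * Bh X Y))) * Real.exp Y.1 := by
          apply mul_le_mul_of_nonneg_right _ (Real.exp_pos _).le
          exact mul_le_mul (hM Y) h6 (Real.exp_pos _).le hM0
      _ = _ := by ring
  refine hx_of hf (((Kr_int (a := 7 / (8 * e ^ 2)) (by positivity) X).1).const_mul _) hdom ?_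
  intro z hz
  set a := 1 / e ^ 2 - 1 / 4 with ha
  have hae : 3 / 4 ≤ e ^ 2 * a := by
    have h1 : e ^ 2 * a = 1 - e ^ 2 / 4 := by
      rw [ha]
      field_simp
    rw [h1]
    have : e ^ 2 ≤ 1 := pow_le_one₀ he.le he1
    linarith
  have ha0 : 0 < a := by
    by_contra h
    push Not at h
    have := mul_nonpos_of_nonneg_of_nonpos he2.le h
    linarith
  obtain ⟨hi1, hi2⟩ := Kr_int ha0 (z.1.re, z.2.re)
  have him := im_le hz
  have hpt : ∀ Y, ‖Hk e f z Y‖ ≤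
      M * Real.exp (1 / e ^ 2) * (Real.exp (-(a * Bh (z.1.re, z.2.re) Y)) * Real.exp Y.1) := by
    intro Y
    have h1 := hI X hX z (Metric.ball_subset_ball hrad hz) Y
    have hB1 := Bh_one (z.1.re, z.2.re) Y
    have h2 : C0 * max |z.1.im| |z.2.im| ^ 2 ≤ e ^ 2 / 4 := by
      have h3 : max |z.1.im| |z.2.im| ^ 2 ≤ (e / C) ^ 2 :=
        pow_le_pow_left₀ (le_max_of_le_left (abs_nonneg _)) him 2
      calc C0 * max |z.1.im| |z.2.im| ^ 2 ≤ C0 * (e / C) ^ 2 :=
            mul_le_mul_of_nonneg_left h3 (by linarith)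
        _ = C0 * e ^ 2 / C ^ 2 := by rw [div_pow]; ring
        _ ≤ e ^ 2 / 4 := by
          rw [div_le_div_iff₀ (by positivity) (by norm_num)]
          have h5 : 4 * C0 ≤ C ^ 2 := by nlinarith
          nlinarith
    have h3 : (1 - e ^ 2 / 4) * Bh (z.1.re, z.2.re) Y ≤ (Bc z Y).re := by
      refine le_trans ?_ h1
      exact mul_le_mul_of_nonneg_right (by linarith) (by linarith)
    rw [Hk_norm]
    have h6 : Real.exp (-(((Bc z Y).re - 1) / e ^ 2)) ≤
        Real.exp (1 / e ^ 2) * Real.exp (-(a * Bh (z.1.re, z.2.re) Y)) := by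
      rw [← Real.exp_add]
      apply Real.exp_le_exp.2
      have h7 : 1 / e ^ 2 + -(a * Bh (z.1.re, z.2.re) Y) =
          -(((1 - e ^ 2 / 4) * Bh (z.1.re, z.2.re) Y - 1) / e ^ 2) := by
        rw [ha]
        field_simp
        ring
      rw [h7]
      apply neg_le_neg
      apply div_le_div_of_nonneg_right _ he2.le
      linarith
    calc |f Y| * Real.exp (-(((Bc z Y).re - 1) / e ^ 2)) * Real.exp Y.1
        ≤ M * (Real.exp (1 / e ^ 2) * Real.exp (-(a * Bh (z.1.re, z.2.re) Y))) * Real.exp Y.1 := by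
          apply mul_le_mul_of_nonneg_right _ (Real.exp_pos _).le
          exact mul_le_mul (hM Y) h6 (Real.exp_pos _).le hM0
      _ = _ := by ring
  have h1 : ∫ Y : Pl, ‖Hk e f z Y‖ ≤ M * Real.exp (1 / e ^ 2) * (4 * Real.pi / a * Real.exp (-a)) := by
    calc ∫ Y : Pl, ‖Hk e f z Y‖ ≤ ∫ Y : Pl, M * Real.exp (1 / e ^ 2) *
          (Real.exp (-(a * Bh (z.1.re, z.2.re) Y)) * Real.exp Y.1) :=
          integral_mono_of_nonneg (Eventually.of_forall fun Y => norm_nonneg _)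
            (hi1.const_mul _) (Eventually.of_forall hpt)
      _ = M * Real.exp (1 / e ^ 2) * ∫ Y : Pl,
          (Real.exp (-(a * Bh (z.1.re, z.2.re) Y)) * Real.exp Y.1) := integral_const_mul _ _
      _ ≤ _ := mul_le_mul_of_nonneg_left hi2 (by positivity)
  have e14 : Real.exp (1 / 4) ≤ 4 / 3 := by
    have := Real.exp_bound_div_one_sub_of_interval (x := 1 / 4) (by norm_num) (by norm_num)
    norm_num at this ⊢
    exact this
  calc (2 * Real.pi * e ^ 2)⁻¹ * ∫ Y : Pl, ‖Hk e f z Y‖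
      ≤ (2 * Real.pi * e ^ 2)⁻¹ * (M * Real.exp (1 / e ^ 2) * (4 * Real.pi / a * Real.exp (-a))) :=
        mul_le_mul_of_nonneg_left h1 (by positivity)
    _ = 2 * M / (e ^ 2 * a) * (Real.exp (1 / e ^ 2) * Real.exp (-a)) := by
        field_simp
        ring
    _ = 2 * M / (e ^ 2 * a) * Real.exp (1 / 4) := by
        rw [← Real.exp_add]
        congr 2
        rw [ha]
        ring
    _ ≤ 2 * M / (3 / 4) * (4 / 3) := by
        apply mul_le_mul _ e14 (Real.exp_pos _).le (by positivity)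
        exact div_le_div_of_nonneg_left (by positivity) (by norm_num) hae
    _ ≤ 4 * M := by
        have : 2 * M / (3 / 4) * (4 / 3) = 32 / 9 * M := by ring
        rw [this]
        nlinarith
    _ ≤ C * M := mul_le_mul_of_nonneg_right (by linarith) hM0

theorem Kr_far {K : Set Pl} (hK : IsCompact K) : ∃ r C : ℝ, 0 < r ∧ r ≤ 1 ∧ 1 ≤ C ∧ ∀ e : ℝ, 0 < e →
    e ≤ 1 → ∀ f : Pl → ℝ, Continuous f → ∀ M : ℝ, (∀ Y, |f Y| ≤ M) →
    (∀ X ∈ K, ∀ Y, Bh X Y ≤ 3 → f Y = 0) → ∀ X ∈ K,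
      HX (Kr e f) X r (C * M * Real.exp (-(1 / (4 * e ^ 2)))) := by
  obtain ⟨C1, hC1, hL⟩ := Bc_lip hK
  have hC1p : 0 < C1 := by linarith
  have hr1 : 1 / (8 * C1) ≤ 1 := by
    rw [div_le_one (by positivity)]
    linarith
  refine ⟨1 / (8 * C1), 8, by positivity, hr1, by norm_num, fun e he he1 f hf M hM hz3 X hX => ?_⟩
  have hM0 : 0 ≤ M := M_nonneg hM
  have he2 : 0 < e ^ 2 := by positivity
  have hpi := Real.pi_pos
  have hdom : ∀ z ∈ Metric.ball (H36.j X : ℂ × ℂ) (1 / (8 * C1)), ∀ Y, ‖Hk e f z Y‖ ≤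
      M * Real.exp (-(3 / (4 * e ^ 2))) *
        (Real.exp (-(1 / (4 * e ^ 2) * Bh X Y)) * Real.exp Y.1) := by
    intro z hz Y
    rw [Hk_norm]
    by_cases h3 : Bh X Y ≤ 3
    · rw [hz3 X hX Y h3, abs_zero, zero_mul, zero_mul]
      positivity
    push Not at h3
    have h1 := hL X hX z (Metric.ball_subset_ball hr1 hz) Y
    rw [mem_ball_iff_norm] at hz
    have h2 : C1 * ‖z - H36.j X‖ ≤ 1 / 8 := by
      calc C1 * ‖z - H36.j X‖ ≤ C1 * (1 / (8 * C1)) := mul_le_mul_of_nonneg_left hz.le hC1p.le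
        _ = 1 / 8 := by field_simp
    have h3' : 7 / 8 * Bh X Y ≤ (Bc z Y).re := by
      have h4 := (Complex.abs_re_le_norm _).trans h1
      rw [Complex.sub_re, Complex.ofReal_re, abs_le] at h4
      have h5 : C1 * ‖z - H36.j X‖ * Bh X Y ≤ 1 / 8 * Bh X Y :=
        mul_le_mul_of_nonneg_right h2 (by linarith)
      linarith [h4.1]
    have h6 : Real.exp (-(((Bc z Y).re - 1) / e ^ 2)) ≤
        Real.exp (-(3 / (4 * e ^ 2))) * Real.exp (-(1 / (4 * e ^ 2) * Bh X Y)) := by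
      rw [← Real.exp_add]
      apply Real.exp_le_exp.2
      have h7 : -(3 / (4 * e ^ 2)) + -(1 / (4 * e ^ 2) * Bh X Y) =
          -((3 / 4 + Bh X Y / 4) / e ^ 2) := by
        field_simp
        ring
      rw [h7]
      apply neg_le_neg
      apply div_le_div_of_nonneg_right _ he2.le
      linarith
    calc |f Y| * Real.exp (-(((Bc z Y).re - 1) / e ^ 2)) * Real.exp Y.1
        ≤ M * (Real.exp (-(3 / (4 * e ^ 2))) * Real.exp (-(1 / (4 * e ^ 2) * Bh X Y))) *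
          Real.exp Y.1 := by
          apply mul_le_mul_of_nonneg_right _ (Real.exp_pos _).le
          exact mul_le_mul (hM Y) h6 (Real.exp_pos _).le hM0
      _ = _ := by ring
  have ha0 : 0 < 1 / (4 * e ^ 2) := by positivity
  obtain ⟨hi1, hi2⟩ := Kr_int ha0 X
  refine hx_of hf (hi1.const_mul _) hdom ?_
  intro z hz
  have h1 : ∫ Y : Pl, ‖Hk e f z Y‖ ≤ M * Real.exp (-(3 / (4 * e ^ 2))) *
      (4 * Real.pi / (1 / (4 * e ^ 2)) * Real.exp (-(1 / (4 * e ^ 2)))) := by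
    calc ∫ Y : Pl, ‖Hk e f z Y‖ ≤ ∫ Y : Pl, M * Real.exp (-(3 / (4 * e ^ 2))) *
          (Real.exp (-(1 / (4 * e ^ 2) * Bh X Y)) * Real.exp Y.1) :=
          integral_mono_of_nonneg (Eventually.of_forall fun Y => norm_nonneg _)
            (hi1.const_mul _) (Eventually.of_forall (hdom z hz))
      _ = M * Real.exp (-(3 / (4 * e ^ 2))) * ∫ Y : Pl,
          (Real.exp (-(1 / (4 * e ^ 2) * Bh X Y)) * Real.exp Y.1) := integral_const_mul _ _
      _ ≤ _ := mul_le_mul_of_nonneg_left hi2 (by positivity)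
  have e1 : Real.exp (-(3 / (4 * e ^ 2))) ≤ 1 := by
    apply Real.exp_le_one_iff.2
    have : 0 < 3 / (4 * e ^ 2) := by positivity
    linarith
  calc (2 * Real.pi * e ^ 2)⁻¹ * ∫ Y : Pl, ‖Hk e f z Y‖
      ≤ (2 * Real.pi * e ^ 2)⁻¹ * (M * Real.exp (-(3 / (4 * e ^ 2))) *
        (4 * Real.pi / (1 / (4 * e ^ 2)) * Real.exp (-(1 / (4 * e ^ 2))))) :=
        mul_le_mul_of_nonneg_left h1 (by positivity)
    _ = 8 * M * Real.exp (-(1 / (4 * e ^ 2))) * Real.exp (-(3 / (4 * e ^ 2))) := by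
        field_simp
        ring
    _ ≤ 8 * M * Real.exp (-(1 / (4 * e ^ 2))) * 1 :=
        mul_le_mul_of_nonneg_left e1 (by positivity)
    _ = _ := mul_one _

/-- The average is smooth. -/
theorem Kr_smooth {e : ℝ} (he : 0 < e) {f : Pl → ℝ} (hf : Continuous f) {M : ℝ}
    (hM : ∀ Y, |f Y| ≤ M) : ContDiff ℝ ∞ (Kr e f) := by
  apply HX_smooth
  intro X
  obtain ⟨C1, hC1, hL⟩ := Bc_lip (isCompact_singleton (x := X))
  have hC1p : 0 < C1 := by linarith
  have hr1 : 1 / (8 * C1) ≤ 1 := by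
    rw [div_le_one (by positivity)]
    linarith
  have hM0 : 0 ≤ M := M_nonneg hM
  have he2 : 0 < e ^ 2 := by positivity
  have hpi := Real.pi_pos
  have hdom : ∀ z ∈ Metric.ball (H36.j X : ℂ × ℂ) (1 / (8 * C1)), ∀ Y, ‖Hk e f z Y‖ ≤
      M * Real.exp (1 / e ^ 2) * (Real.exp (-(7 / (8 * e ^ 2) * Bh X Y)) * Real.exp Y.1) := by
    intro z hz Y
    have h1 := hL X rfl z (Metric.ball_subset_ball hr1 hz) Y
    rw [mem_ball_iff_norm] at hz
    have hB1 := Bh_one X Y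
    have h2 : C1 * ‖z - H36.j X‖ ≤ 1 / 8 := by
      calc C1 * ‖z - H36.j X‖ ≤ C1 * (1 / (8 * C1)) := mul_le_mul_of_nonneg_left hz.le hC1p.le
        _ = 1 / 8 := by field_simp
    have h3 : 7 / 8 * Bh X Y ≤ (Bc z Y).re := by
      have h4 := (Complex.abs_re_le_norm _).trans h1
      rw [Complex.sub_re, Complex.ofReal_re, abs_le] at h4
      have h5 : C1 * ‖z - H36.j X‖ * Bh X Y ≤ 1 / 8 * Bh X Y :=
        mul_le_mul_of_nonneg_right h2 (by linarith)
      linarith [h4.1]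
    rw [Hk_norm]
    have h6 : Real.exp (-(((Bc z Y).re - 1) / e ^ 2)) ≤
        Real.exp (1 / e ^ 2) * Real.exp (-(7 / (8 * e ^ 2) * Bh X Y)) := by
      rw [← Real.exp_add]
      apply Real.exp_le_exp.2
      have h7 : 1 / e ^ 2 + -(7 / (8 * e ^ 2) * Bh X Y) = -((7 / 8 * Bh X Y - 1) / e ^ 2) := by
        field_simp
        ring
      rw [h7]
      apply neg_le_neg
      apply div_le_div_of_nonneg_right _ he2.le
      linarith
    calc |f Y| * Real.exp (-(((Bc z Y).re - 1) / e ^ 2)) * Real.exp Y.1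
        ≤ M * (Real.exp (1 / e ^ 2) * Real.exp (-(7 / (8 * e ^ 2) * Bh X Y))) * Real.exp Y.1 := by
          apply mul_le_mul_of_nonneg_right _ (Real.exp_pos _).le
          exact mul_le_mul (hM Y) h6 (Real.exp_pos _).le hM0
      _ = _ := by ring
  have hb := ((Kr_int (a := 7 / (8 * e ^ 2)) (by positivity) X).1).const_mul
    (M * Real.exp (1 / e ^ 2))
  refine ⟨1 / (8 * C1), _, by positivity, hx_of hf hb hdom fun z hz =>
    mul_le_mul_of_nonneg_left (integral_mono_of_nonneg (Eventually.of_forall fun Y => norm_nonneg _)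
      hb (Eventually.of_forall (hdom z hz))) (by positivity)⟩

end B36
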