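import Pool.Agent.LibBE36M.M6c
import Pool.Agent.LibBE36M.M1b
import Pool.Agent.LibB35.FA0

/-! ROW M7 : functions on the surface. SHORT/MEDIUM.
PLAN. `Kr_test`: smooth by `Kr_smooth`; invariance: `Bh (γ • X) Y = Bh (γ • X) (γ • γ⁻¹ • Y)`, `mH_area` with `f Y = u (γ⁻¹ ..)`: `∫ u(Y) k(Bh (γ X) Y) e^(Y.1) dY = ∫ u(γ Y) k(Bh (γ X) (γ Y)) e^(Y.1) dY`.
`test_bdd`: every point is `γ • z`, `z ∈ D`. `test_K`: finitely many `γ` move a point of `K` to `D` (`hX.proper` on the compact `K ∪ closure D`); `u = u ∘ (γ • ·)`, chain rule with uniform constants: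
calculus of `EB0` families (FA0.lean `EB0_of`, `EB0_bd`; `EB_comp`, `EB_compact` of LibBR70, see the proof of `CF_gen` in FA0.lean), index set = all `(u, M, z, γ)`; `M ≤ 0` by `M + δ`. -/

open MeasureTheory Set Filter Topology
open scoped ContDiff

namespace B36

open BGS BR

variable {Γ : Type} [Group Γ] [MulAction Γ Pl] {D : Set Pl}

theorem test_bdd (hX : Surface Γ D) {u : Pl → ℝ} (hu : u ∈ Test Γ) {M : ℝ}
    (hM : ∀ z ∈ closure D, |u z| ≤ M) (z : Pl) : |u z| ≤ M := by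
  obtain ⟨γ, hγ, -⟩ := hX.orbit z
  rw [← hu.2 γ z]
  exact hM _ (subset_closure hγ)

private theorem M7_unif (hX : Surface Γ D) {K : Set Pl} (hK : IsCompact K) (k : ℕ) (S : Finset Γ) :
    ∃ A : ℝ, 1 ≤ A ∧ ∀ γ ∈ S, ∀ i ≤ k, ∀ z ∈ K, ‖iteratedFDeriv ℝ i (fun w : Pl => γ • w) z‖ ≤ A := by
  have h1 : ∀ (γ : Γ) (i : ℕ), ∃ C : ℝ, ∀ z ∈ K, ‖iteratedFDeriv ℝ i (fun w : Pl => γ • w) z‖ ≤ C := fun γ i =>
    hK.exists_bound_of_continuousOn
      (((hX.smooth γ).continuous_iteratedFDeriv (m := i) (by exact_mod_cast le_top)).continuousOn)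
  choose C hC using h1
  refine ⟨1 + ∑ γ ∈ S, ∑ i ∈ Finset.range (k + 1), |C γ i|, ?_, fun γ hγ i hi z hz => ?_⟩
  · have : 0 ≤ ∑ γ ∈ S, ∑ i ∈ Finset.range (k + 1), |C γ i| :=
      Finset.sum_nonneg fun _ _ => Finset.sum_nonneg fun _ _ => abs_nonneg _
    linarith
  · have h2 : |C γ i| ≤ ∑ i ∈ Finset.range (k + 1), |C γ i| :=
      Finset.single_le_sum (f := fun i => |C γ i|) (fun _ _ => abs_nonneg _) (Finset.mem_range.2 (by omega))
    have h3 : ∑ i ∈ Finset.range (k + 1), |C γ i| ≤ ∑ γ ∈ S, ∑ i ∈ Finset.range (k + 1), |C γ i| :=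
      Finset.single_le_sum (f := fun γ => ∑ i ∈ Finset.range (k + 1), |C γ i|)
        (fun _ _ => Finset.sum_nonneg fun _ _ => abs_nonneg _) hγ
    have h4 := (hC γ i z hz).trans (le_abs_self _)
    linarith

theorem test_K (hX : Surface Γ D) {K : Set Pl} (hK : IsCompact K) (k : ℕ) : ∃ C : ℝ, 1 ≤ C ∧
    ∀ u ∈ Test Γ, ∀ M : ℝ, (∀ j ≤ k, ∀ z ∈ closure D, ‖iteratedFDeriv ℝ j u z‖ ≤ M) →
    ∀ j ≤ k, ∀ z ∈ K, ‖iteratedFDeriv ℝ j u z‖ ≤ C * M := by
  have hcl : IsCompact (closure D) := hX.bdd.isCompact_closure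
  have hfin : {γ : Γ | ∃ z ∈ K ∪ closure D, γ • z ∈ K ∪ closure D}.Finite := hX.proper _ (hK.union hcl)
  obtain ⟨A, hA1, hA⟩ := M7_unif hX hK k hfin.toFinset
  have hkf : (1 : ℝ) ≤ (k.factorial : ℝ) := by exact_mod_cast Nat.one_le_iff_ne_zero.2 (Nat.factorial_ne_zero k)
  refine ⟨(k.factorial : ℝ) * A ^ k, one_le_mul_of_one_le_of_one_le hkf (one_le_pow₀ hA1), ?_⟩
  intro u hu M hM j hj z hz
  obtain ⟨γ, hγ, -⟩ := hX.orbit z
  have hγS : γ ∈ hfin.toFinset := by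
    rw [Set.Finite.mem_toFinset]
    exact ⟨z, Or.inl hz, Or.inr (subset_closure hγ)⟩
  have hM0 : 0 ≤ M := (norm_nonneg _).trans (hM 0 (Nat.zero_le _) _ (subset_closure hγ))
  have e : u = u ∘ fun w : Pl => γ • w := by
    funext w
    exact (hu.2 γ w).symm
  have h1 := norm_iteratedFDeriv_comp_le (g := u) (f := fun w : Pl => γ • w) (n := j) (N := ∞) hu.1 (hX.smooth γ)
    (by exact_mod_cast le_top) z (C := M) (D := A) (fun i hi => hM i (hi.trans hj) _ (subset_closure hγ))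
    (fun i hi1 hi2 => (hA γ hγS i (hi2.trans hj) z hz).trans (le_self_pow₀ hA1 (by omega)))
  rw [← e] at h1
  refine h1.trans ?_
  have h2 : (j.factorial : ℝ) ≤ k.factorial := by exact_mod_cast Nat.factorial_le hj
  have h3 : A ^ j ≤ A ^ k := pow_le_pow_right₀ hA1 hj
  calc (j.factorial : ℝ) * M * A ^ j = (j.factorial : ℝ) * A ^ j * M := by ring
    _ ≤ (k.factorial : ℝ) * A ^ k * M :=
        mul_le_mul_of_nonneg_right (mul_le_mul h2 h3 (by positivity) (by positivity)) hM0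

theorem Kr_test (hX : Surface Γ D) (hH : Hyp Γ) {e : ℝ} (he : 0 < e) {u : Pl → ℝ}
    (hu : u ∈ Test Γ) : Kr e u ∈ Test Γ := by
  have hcl : IsCompact (closure D) := hX.bdd.isCompact_closure
  obtain ⟨M, hM⟩ := hcl.exists_bound_of_continuousOn (f := u) hu.1.continuous.continuousOn
  refine ⟨Kr_smooth he hu.1.continuous (M := M) (test_bdd hX hu fun z hz => ?_), fun γ X => ?_⟩
  · exact hM z hz
  · unfold Kr
    congr 1
    have h1 := mH_area hX hH γ (fun Y => u Y * Real.exp (-((Bh (γ • X) Y - 1) / e ^ 2)))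
    refine h1.symm.trans ?_
    refine integral_congr_ae (Eventually.of_forall fun Y => ?_)
    simp only
    rw [hu.2 γ Y, hH γ X Y]

end B36
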