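import Pool.Agent.LibBE36M.M7
import Pool.Agent.LibBE36M.M4
import Pool.Agent.LibBE36M.M5

/-! ROW M8a : the derivatives of the average. MEDIUM.
PLAN. `Ct_exists` for `K`; `u = χ u + (1 - χ) u`, `Kr_add`; near part: `Kr_near`, `Ga_bd`, `Gn_bd` (its hypothesis on `tsupport χ`, compact, from `test_K`); far part: `Kr_far` for `f = (1 - χ) u`
(`|f| ≤ M'`, `test_bdd`), `HX_iter` (`Kr_smooth`). `Kr_bd`: sum. `Mo_bd0` needs `∑ |rc P i| ≤ 3` (`rc_abs`), `2 ^ i e ≤ 1`. `Mo_close`: near part: `Ga_rich_iter` and `Gn_zero` (near `X ∈ K` the function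
`Gn χ η u (·, 0)` is `χ u`), far part: `∑ rc P i Kr (2^i e) f - f`, `f = 0` near `X` (`Bh X X = 1 < 3`, so `Bh X Y < 3` near `X`, there `χ = 1`), and
`exp(-1 / (4 · 4^i e²)) ≤ exp(-1 / (4^(P+1) e²)) ≤ C_P e^(2P)` (`exp (-x) ≤ n! / x^n`). The case `M < 0` is empty (`closure D` is not empty; or `C * M` with the norm `≥ 0` at `k = 0`). -/

open MeasureTheory Set Filter Topology
open scoped ContDiff

namespace B36

open BGS BR

variable {Γ : Type} [Group Γ] [MulAction Γ Pl] {D : Set Pl}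

/-- the average is smooth (works for both forms of the upstream statement) -/
private theorem M8a_ks {e : ℝ} (he : 0 < e) (he1 : e ≤ 1) {f : Pl → ℝ} (hf : Continuous f) {M : ℝ}
    (hM : ∀ Y, |f Y| ≤ M) : ContDiff ℝ ∞ (Kr e f) := by
  first
  | exact Kr_smooth he he1 hf hM
  | exact Kr_smooth he hf hM

private theorem M8a_nonneg (hX : Surface Γ D) {k : ℕ} {u : Pl → ℝ} {M : ℝ}
    (h : ∀ j ≤ k, ∀ z ∈ closure D, ‖iteratedFDeriv ℝ j u z‖ ≤ M) : 0 ≤ M := by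
  obtain ⟨γ, hγ, -⟩ := hX.orbit 0
  exact (norm_nonneg _).trans (h 0 (Nat.zero_le _) _ (subset_closure hγ))

private theorem M8a_zero {k : ℕ} {u : Pl → ℝ} {M : ℝ}
    (h : ∀ j ≤ k, ∀ z ∈ closure D, ‖iteratedFDeriv ℝ j u z‖ ≤ M) : ∀ z ∈ closure D, |u z| ≤ M := by
  intro z hz
  have := h 0 (Nat.zero_le _) z hz
  rwa [norm_iteratedFDeriv_zero, Real.norm_eq_abs] at this

/-- the far part is at most `M` -/
private theorem M8a_f {χ u : Pl → ℝ} {M : ℝ} (hχ : ∀ Y, χ Y ∈ Icc (0 : ℝ) 1)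
    (hu : ∀ Y, |u Y| ≤ M) (Y : Pl) : |(1 - χ Y) * u Y| ≤ M ∧ |χ Y * u Y| ≤ M := by
  have h := hχ Y
  have hM : 0 ≤ M := (abs_nonneg _).trans (hu Y)
  constructor
  · rw [abs_mul, abs_of_nonneg (by linarith [h.2])]
    calc (1 - χ Y) * |u Y| ≤ 1 * M := mul_le_mul (by linarith [h.1]) (hu Y) (abs_nonneg _) zero_le_one
      _ = M := one_mul _
  · rw [abs_mul, abs_of_nonneg h.1]
    calc χ Y * |u Y| ≤ 1 * M := mul_le_mul h.2 (hu Y) (abs_nonneg _) zero_le_one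
      _ = M := one_mul _

private theorem M8a_split {χ u : Pl → ℝ} {M e : ℝ} (he : 0 < e) (hχc : Continuous χ)
    (hχ : ∀ Y, χ Y ∈ Icc (0 : ℝ) 1) (huc : Continuous u) (hu : ∀ Y, |u Y| ≤ M) (X : Pl) :
    Kr e u X = Kr e (fun Y => χ Y * u Y) X + Kr e (fun Y => (1 - χ Y) * u Y) X := by
  rw [← Kr_add (u := fun Y => χ Y * u Y) (v := fun Y => (1 - χ Y) * u Y) he (hχc.mul huc)
    ((continuous_const.sub hχc).mul huc) (fun Y => (M8a_f hχ hu Y).2)
    (fun Y => (M8a_f hχ hu Y).1)]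
  congr 1
  ext Y
  ring

/-- the near part near a point of `K` -/
private theorem M8a_near {K : Set Pl} {χ η u : Pl → ℝ} (h : Ct K χ η) {X : Pl} (hX : X ∈ K) {e : ℝ}
    (he : 0 < e) (k : ℕ) :
    iteratedFDeriv ℝ k (Kr e fun Z => χ Z * u Z) X = iteratedFDeriv ℝ k (Ga e (Gn χ η u)) X :=
  (Filter.EventuallyEq.iteratedFDeriv ℝ (Kr_near (u := u) h hX he) k).self_of_nhds

/-- the derivatives of the far part -/
private theorem M8a_far {K : Set Pl} {χ η : Pl → ℝ} (h : Ct K χ η) (hK : IsCompact K) (k : ℕ) :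
    ∃ C : ℝ, 0 ≤ C ∧ ∀ e : ℝ, 0 < e → e ≤ 1 → ∀ u : Pl → ℝ, Continuous u → ∀ M : ℝ,
    (∀ Y, |u Y| ≤ M) → ∀ z ∈ K, ‖iteratedFDeriv ℝ k (Kr e fun Y => (1 - χ Y) * u Y) z‖ ≤
      C * M * Real.exp (-(1 / (4 * e ^ 2))) := by
  obtain ⟨r, C3, hr, hr1, hC3, hfar⟩ := Kr_far hK
  refine ⟨(k + 1 : ℝ) ^ k * C3 * (2 / r) ^ k, by positivity, fun e he he1 u hu M hM z hz => ?_⟩
  have hM0 : 0 ≤ M := (abs_nonneg _).trans (hM z)
  have hfc : Continuous fun Y => (1 - χ Y) * u Y :=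
    (continuous_const.sub h.smooth.continuous).mul hu
  have hfM : ∀ Y, |(fun Y => (1 - χ Y) * u Y) Y| ≤ M := fun Y => (M8a_f h.mem hM Y).1
  have h1 := hfar e he he1 _ hfc M hfM (fun X hX Y hY => by
    show (1 - χ Y) * u Y = 0
    rw [h.one X hX Y hY]
    ring) z hz
  have h2 := HX_iter (M8a_ks he he1 hfc hfM) hr hr1 (by positivity) h1 k
  refine h2.trans (le_of_eq ?_)
  ring

theorem Kr_bd (hX : Surface Γ D) {K : Set Pl} (hK : IsCompact K) (k : ℕ) : ∃ C : ℝ, 1 ≤ C ∧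
    ∀ e : ℝ, 0 < e → e ≤ 1 → ∀ u ∈ Test Γ, ∀ M : ℝ,
    (∀ j ≤ k, ∀ z ∈ closure D, ‖iteratedFDeriv ℝ j u z‖ ≤ M) →
    ∀ z ∈ K, ‖iteratedFDeriv ℝ k (Kr e u) z‖ ≤ C * M := by
  obtain ⟨χ, η, h⟩ := Ct_exists hK
  obtain ⟨C1, hC1, hG⟩ := Gn_bd h k
  obtain ⟨C2, hC2, hT⟩ := test_K hX (K := tsupport χ) h.comp k
  obtain ⟨C3, hC3, hF⟩ := M8a_far h hK k
  refine ⟨C1 * C2 + C3 + 1, by nlinarith, fun e he he1 u hu M hM z hz => ?_⟩
  have hM0 := M8a_nonneg hX hM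
  have hub : ∀ Y, |u Y| ≤ M := test_bdd hX hu (M8a_zero hM)
  have huc : Continuous u := hu.1.continuous
  have hχc := h.smooth.continuous
  have hK1 := M8a_ks he he1 (hχc.mul huc) (fun Y => (M8a_f h.mem hub Y).2)
  have hK2 := M8a_ks he he1 ((continuous_const.sub hχc).mul huc)
    (fun Y => (M8a_f h.mem hub Y).1)
  have hs : Kr e u = fun X => Kr e (fun Y => χ Y * u Y) X + Kr e (fun Y => (1 - χ Y) * u Y) X :=
    funext fun X => M8a_split he hχc h.mem huc hub X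
  have hi : iteratedFDeriv ℝ k (Kr e u) z = iteratedFDeriv ℝ k (Kr e fun Y => χ Y * u Y) z +
      iteratedFDeriv ℝ k (Kr e fun Y => (1 - χ Y) * u Y) z := by
    rw [hs]
    exact fun_iteratedFDeriv_add_apply (hK1.contDiffAt.of_le (by exact_mod_cast le_top))
      (hK2.contDiffAt.of_le (by exact_mod_cast le_top))
  have b1 : ‖iteratedFDeriv ℝ k (Kr e fun Y => χ Y * u Y) z‖ ≤ C1 * (C2 * M) := by
    rw [M8a_near h hz he k]
    exact Ga_bd (Gn_smooth h hu.1) (Gn_cpt h u) k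
      (hG u hu.1 (C2 * M) fun j hj w hw => hT u hu M hM j hj w hw) e z
  have b2 := hF e he he1 u huc M hub z hz
  have b3 : C3 * M * Real.exp (-(1 / (4 * e ^ 2))) ≤ C3 * M * 1 := by
    apply mul_le_mul_of_nonneg_left _ (by positivity)
    rw [Real.exp_le_one_iff, neg_nonpos]
    positivity
  rw [hi]
  refine (norm_add_le _ _).trans ?_
  have b4 : 0 ≤ M := hM0
  linarith

/-- The mollified function is close to the function. -/
theorem Mo_close (hX : Surface Γ D) {K : Set Pl} (hK : IsCompact K) (k : ℕ) {P : ℕ} (hP : 1 ≤ P) :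
    ∃ C : ℝ, 1 ≤ C ∧ ∀ e : ℝ, 0 < e → 2 ^ P * e ≤ 1 → ∀ u ∈ Test Γ, ∀ M : ℝ,
    (∀ j ≤ k + 2 * P, ∀ z ∈ closure D, ‖iteratedFDeriv ℝ j u z‖ ≤ M) →
    ∀ z ∈ K, ‖iteratedFDeriv ℝ k (fun y => Mo P e u y - u y) z‖ ≤ C * M * e ^ (2 * P) := by
  obtain ⟨χ, η, h⟩ := Ct_exists hK
  obtain ⟨C1, hC1, hG⟩ := Gn_bd h (k + 2 * P)
  obtain ⟨C2, hC2, hT⟩ := test_K hX (K := tsupport χ) h.comp (k + 2 * P)
  obtain ⟨C3, hC3, hF⟩ := M8a_far h hK k
  obtain ⟨C4, hC4, hR⟩ := Ga_rich_iter hP k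
  obtain ⟨Q, hQ⟩ : ∃ Q : ℝ, Q = (P.factorial : ℝ) * (4 ^ P) ^ P := ⟨_, rfl⟩
  have hQ0 : 0 < Q := by
    rw [hQ]
    positivity
  refine ⟨C4 * (C1 * C2) + 3 * (C3 * Q) + 1, by
    have : 0 ≤ C4 * (C1 * C2) := by positivity
    have : 0 ≤ 3 * (C3 * Q) := by positivity
    linarith, fun e he he1 u hu M hM z hz => ?_⟩
  have hM0 := M8a_nonneg hX hM
  have hub : ∀ Y, |u Y| ≤ M := test_bdd hX hu (M8a_zero hM)
  have huc : Continuous u := hu.1.continuous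
  have hχc := h.smooth.continuous
  have hei : ∀ i ∈ Finset.range P, 0 < 2 ^ i * e ∧ 2 ^ i * e ≤ 1 := by
    intro i hi
    refine ⟨by positivity, le_trans ?_ he1⟩
    exact mul_le_mul_of_nonneg_right
      (pow_le_pow_right₀ (by norm_num) (Finset.mem_range.1 hi).le) he.le
  have hK2 : ∀ i ∈ Finset.range P,
      ContDiff ℝ ∞ (Kr (2 ^ i * e) fun Y => (1 - χ Y) * u Y) := fun i hi =>
    M8a_ks (hei i hi).1 (hei i hi).2 ((continuous_const.sub hχc).mul huc)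
      (fun Y => (M8a_f h.mem hub Y).1)
  have hGs := Gn_smooth h hu.1
  have hGc := Gn_cpt h u
  -- the point near which `χ = 1`
  have hone : ∀ᶠ Y in 𝓝 z, χ Y = 1 := by
    have hc : Continuous fun Y : Pl => Bh z Y := Bh_cont.comp (continuous_const.prodMk continuous_id)
    have hz1 : Bh z z < 3 := by
      have := Bh_tp z 0
      rw [psi_zero, tr_zero] at this
      rw [this]
      norm_num
    filter_upwards [hc.continuousAt.eventually (gt_mem_nhds hz1)] with Y hY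
    exact h.one z hz Y (le_of_lt hY)
  have hev : (fun y => Mo P e u y - u y) =ᶠ[𝓝 z] fun Y =>
      (∑ i ∈ Finset.range P, rc P i * Ga (2 ^ i * e) (Gn χ η u) Y - Gn χ η u (Y, 0)) +
        ∑ i ∈ Finset.range P, rc P i * Kr (2 ^ i * e) (fun Y => (1 - χ Y) * u Y) Y := by
    have hall : ∀ᶠ Y in 𝓝 z, ∀ i ∈ Finset.range P,
        Kr (2 ^ i * e) (fun Z => χ Z * u Z) Y = Ga (2 ^ i * e) (Gn χ η u) Y := by
      rw [Filter.eventually_all_finset]
      intro i hi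
      exact Kr_near h hz (hei i hi).1
    filter_upwards [hall, hone, Gn_zero h u hz] with Y h1 h2 h3
    rw [h3, h2, mul_one]
    unfold Mo
    have h4 : ∑ i ∈ Finset.range P, rc P i * Kr (2 ^ i * e) u Y =
        ∑ i ∈ Finset.range P, rc P i * Ga (2 ^ i * e) (Gn χ η u) Y +
          ∑ i ∈ Finset.range P, rc P i * Kr (2 ^ i * e) (fun Y => (1 - χ Y) * u Y) Y := by
      rw [← Finset.sum_add_distrib]
      refine Finset.sum_congr rfl fun i hi => ?_
      rw [M8a_split (hei i hi).1 hχc h.mem huc hub Y, h1 i hi]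
      ring
    rw [h4]
    ring
  rw [(hev.iteratedFDeriv ℝ k).self_of_nhds]
  have hs1 : ContDiff ℝ ∞ fun Y : Pl =>
      ∑ i ∈ Finset.range P, rc P i * Ga (2 ^ i * e) (Gn χ η u) Y - Gn χ η u (Y, 0) := by
    refine ContDiff.sub (ContDiff.sum fun i _ => contDiff_const.mul (Ga_smooth hGs hGc _)) ?_
    exact hGs.comp (contDiff_id.prodMk contDiff_const)
  have hs2i : ∀ i ∈ Finset.range P, ContDiff ℝ ∞ fun Y : Pl =>
      rc P i * Kr (2 ^ i * e) (fun Y => (1 - χ Y) * u Y) Y := fun i hi =>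
    contDiff_const.mul (hK2 i hi)
  have hs2 : ContDiff ℝ ∞ fun Y : Pl =>
      ∑ i ∈ Finset.range P, rc P i * Kr (2 ^ i * e) (fun Y => (1 - χ Y) * u Y) Y :=
    ContDiff.sum hs2i
  have hle : ((k : ℕ) : WithTop ℕ∞) ≤ ∞ := by exact_mod_cast le_top
  rw [fun_iteratedFDeriv_add_apply (hs1.contDiffAt.of_le hle) (hs2.contDiffAt.of_le hle)]
  refine (norm_add_le _ _).trans ?_
  have b1 := hR (Gn χ η u) hGs hGc (C1 * (C2 * M))
    (hG u hu.1 (C2 * M) fun j hj w hw => hT u hu M hM j hj w hw) e he.le z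
  have b2 : ‖iteratedFDeriv ℝ k (fun Y : Pl =>
      ∑ i ∈ Finset.range P, rc P i * Kr (2 ^ i * e) (fun Y => (1 - χ Y) * u Y) Y) z‖ ≤
      3 * (C3 * M * (Q * e ^ (2 * P))) := by
    rw [iteratedFDeriv_fun_sum_apply fun i hi => (hs2i i hi).contDiffAt.of_le hle]
    refine (norm_sum_le _ _).trans ?_
    have hterm : ∀ i ∈ Finset.range P, ‖iteratedFDeriv ℝ k (fun Y : Pl =>
        rc P i * Kr (2 ^ i * e) (fun Y => (1 - χ Y) * u Y) Y) z‖ ≤
        |rc P i| * (C3 * M * (Q * e ^ (2 * P))) := by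
      intro i hi
      have e1 : iteratedFDeriv ℝ k (fun Y : Pl =>
          rc P i * Kr (2 ^ i * e) (fun Y => (1 - χ Y) * u Y) Y) z =
          rc P i • iteratedFDeriv ℝ k (Kr (2 ^ i * e) fun Y => (1 - χ Y) * u Y) z :=
        iteratedFDeriv_const_smul_apply' (a := rc P i) ((hK2 i hi).contDiffAt.of_le hle)
      rw [e1, norm_smul, Real.norm_eq_abs]
      apply mul_le_mul_of_nonneg_left _ (abs_nonneg _)
      refine (hF (2 ^ i * e) (hei i hi).1 (hei i hi).2 u huc M hub z hz).trans ?_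
      apply mul_le_mul_of_nonneg_left _ (by positivity)
      -- `exp (-x) ≤ P! / x ^ P`
      have hx0 : 0 < 1 / (4 ^ P * e ^ 2) := by positivity
      have hx1 : 1 / (4 ^ P * e ^ 2) ≤ 1 / (4 * (2 ^ i * e) ^ 2) := by
        apply one_div_le_one_div_of_le (by positivity)
        have hi' : i + 1 ≤ P := Finset.mem_range.1 hi
        have e2 : (4 : ℝ) ^ (i + 1) ≤ 4 ^ P := pow_le_pow_right₀ (by norm_num) hi'
        have e3 : 4 * (2 ^ i * e) ^ 2 = 4 ^ (i + 1) * e ^ 2 := by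
          rw [mul_pow, ← pow_mul, mul_comm i 2, pow_mul]
          norm_num
          ring
        rw [e3]
        exact mul_le_mul_of_nonneg_right e2 (by positivity)
      have hx2 : Real.exp (-(1 / (4 * (2 ^ i * e) ^ 2))) ≤ Real.exp (-(1 / (4 ^ P * e ^ 2))) :=
        Real.exp_le_exp.2 (neg_le_neg hx1)
      refine hx2.trans ?_
      rw [Real.exp_neg]
      have h5 := Real.pow_div_factorial_le_exp (x := 1 / (4 ^ P * e ^ 2)) hx0.le P
      rw [inv_le_comm₀ (Real.exp_pos _) (by positivity)]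
      refine le_trans (le_of_eq ?_) h5
      rw [hQ, one_div, inv_pow, mul_pow, ← pow_mul e 2 P]
      rw [mul_inv, mul_inv, mul_inv, div_eq_mul_inv]
      ring
    refine (Finset.sum_le_sum hterm).trans ?_
    rw [← Finset.sum_mul]
    exact mul_le_mul_of_nonneg_right (rc_abs P) (by positivity)
  have b3 : 0 ≤ M * e ^ (2 * P) := by positivity
  calc _ ≤ C4 * (C1 * (C2 * M)) * e ^ (2 * P) + 3 * (C3 * M * (Q * e ^ (2 * P))) :=
        add_le_add b1 b2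
    _ ≤ C4 * (C1 * (C2 * M)) * e ^ (2 * P) + 3 * (C3 * M * (Q * e ^ (2 * P))) +
        M * e ^ (2 * P) := by linarith
    _ = (C4 * (C1 * C2) + 3 * (C3 * Q) + 1) * M * e ^ (2 * P) := by ring

end B36
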