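import Pool.Agent.LibBE36M.M8b

/-! ROW M9 : the path of metrics of area one is holomorphic. MEDIUM.
PLAN. `area_hol`: for real `p` with `|p| < 4` `thd p = p`. The extension is `F ζ = Complex.log (∫_D exp (B w + ζ δ w) √dt)` on a ball of a fixed radius `r0 ≤ 1`: `A ζ = ∫_D exp (B + ζ δ) √dt` is entire
(`hasDerivAt_integral_of_dominated_loc_of_deriv_le` on `volume.restrict D`, everything bounded on the compact `closure D`), `|A ζ - A p| ≤ |ζ - p| C e^(4C) area`, `A p ≥ e^(-2C) area`, `area = ∫_D √dt > 0`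
(FA0.lean: `AR_pos`, `AR_zero_pos`, `Cmp_int`, `Cmp_compact`; `AR D m f = ∫_D exp f √dt`), so `Re (A ζ) ≥ A p / 2 > 0` for `|ζ - p| < r0`: `Complex.log` is holomorphic there and bounded by
`|log |A ζ|| + π`; at real points `Complex.ofReal_log`. `path_hol`: extension `g_B (z) + ζ g_δ (z) - F ζ`. `path_Mo`: `Mo_hol`, `Mo_le`. -/

open MeasureTheory Set Filter Topology
open scoped ContDiff

namespace B36

open BGS BR

variable {Γ : Type} [Group Γ] [MulAction Γ Pl] {D : Set Pl}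

theorem thd_smooth : ContDiff ℝ ∞ thd := by
  unfold thd
  exact contDiff_id.mul (B35.cut.contDiff.comp (contDiff_id.div_const 4))

theorem thd_id {t : ℝ} (ht : |t| ≤ 4) : thd t = t := by
  unfold thd
  rw [B35.cut.one_of_mem_closedBall, mul_one]
  rw [mem_closedBall_zero_iff, Real.norm_eq_abs, abs_div, abs_of_pos (by norm_num : (0 : ℝ) < 4)]
  show |t| / 4 ≤ 1
  linarith

theorem thd_le (t : ℝ) : |thd t| ≤ 8 := by
  unfold thd
  rw [abs_mul]
  by_cases h : |t| ≤ 8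
  · rw [abs_of_nonneg B35.cut.nonneg]
    calc |t| * B35.cut (t / 4) ≤ 8 * 1 :=
          mul_le_mul h B35.cut.le_one B35.cut.nonneg (by norm_num)
      _ = 8 := mul_one _
  · rw [B35.cut.zero_of_le_dist, abs_zero, mul_zero]
    · norm_num
    · rw [dist_zero_right, Real.norm_eq_abs, abs_div, abs_of_pos (by norm_num : (0 : ℝ) < 4)]
      show (2 : ℝ) ≤ |t| / 4
      linarith

private theorem M9_s (w : Pl) : 0 < √(dt (mH w)) := by
  rw [mH_sqrt]
  exact Real.exp_pos _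

private theorem M9_sc : Continuous fun w : Pl => √(dt (mH w)) := by
  have h : (fun w : Pl => √(dt (mH w))) = fun w => Real.exp w.1 := funext mH_sqrt
  rw [h]
  fun_prop

/-- the area at a complex value of the parameter -/
private noncomputable def M9_A (D : Set Pl) (B δ : Pl → ℝ) (ζ : ℂ) : ℂ :=
  ∫ w in D, Complex.exp ((B w : ℂ) + ζ * (δ w : ℂ)) * ((√(dt (mH w)) : ℝ) : ℂ)

private theorem M9_int (hX : Surface Γ D) {B δ : Pl → ℝ} (hB : Continuous B) (hδ : Continuous δ)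
    (ζ : ℂ) : IntegrableOn (fun w =>
      Complex.exp ((B w : ℂ) + ζ * (δ w : ℂ)) * ((√(dt (mH w)) : ℝ) : ℂ)) D := by
  have hc : Continuous fun w =>
      Complex.exp ((B w : ℂ) + ζ * (δ w : ℂ)) * ((√(dt (mH w)) : ℝ) : ℂ) := by
    have h1 := M9_sc
    fun_prop
  exact (hc.continuousOn.integrableOn_compact (Cmp_compact hX)).mono_set subset_closure

private theorem M9_real (hX : Surface Γ D) {B δ : Pl → ℝ} (hB : Continuous B) (hδ : Continuous δ)
    (y : ℝ) : M9_A D B δ (y : ℂ) =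
      ((∫ w in D, Real.exp (B w + y * δ w) * √(dt (mH w)) : ℝ) : ℂ) := by
  unfold M9_A
  rw [← integral_complex_ofReal]
  congr 1
  ext w
  push_cast
  rfl

private theorem M9_pos (hX : Surface Γ D) {B δ : Pl → ℝ} (hB : Continuous B) (hδ : Continuous δ)
    (y : ℝ) : 0 < ∫ w in D, Real.exp (B w + y * δ w) * √(dt (mH w)) := by
  have hc : Continuous fun w => Real.exp (B w + y * δ w) * √(dt (mH w)) := by
    have h1 := M9_sc
    fun_prop
  have hp : ∀ w, 0 < Real.exp (B w + y * δ w) * √(dt (mH w)) := fun w =>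
    mul_pos (Real.exp_pos _) (M9_s w)
  rw [setIntegral_pos_iff_support_of_nonneg_ae (Filter.Eventually.of_forall fun z => (hp z).le)
    (Cmp_int hX hc)]
  have hs : Function.support (fun w => Real.exp (B w + y * δ w) * √(dt (mH w))) = univ := by
    rw [eq_univ_iff_forall]
    intro z
    exact (hp z).ne'
  rw [hs, univ_inter]
  exact B35.F0_vol hX

/-- the area is an entire function -/
private theorem M9_diff (hX : Surface Γ D) {B δ : Pl → ℝ} {C : ℝ} (hC : 0 ≤ C)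
    (hB : Continuous B) (hδ : Continuous δ) (hBC : ∀ z ∈ closure D, |B z| ≤ C)
    (hδC : ∀ z ∈ closure D, |δ z| ≤ C) : Differentiable ℂ (M9_A D B δ) := by
  intro ζ0
  have hsi : IntegrableOn (fun w => √(dt (mH w))) D := Cmp_int hX M9_sc
  have h := hasDerivAt_integral_of_dominated_loc_of_deriv_le (μ := volume.restrict D) (𝕜 := ℂ)
    (F := fun (ζ : ℂ) (w : Pl) =>
      Complex.exp ((B w : ℂ) + ζ * (δ w : ℂ)) * ((√(dt (mH w)) : ℝ) : ℂ))
    (F' := fun (ζ : ℂ) (w : Pl) =>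
      (Complex.exp ((B w : ℂ) + ζ * (δ w : ℂ)) * (δ w : ℂ)) * ((√(dt (mH w)) : ℝ) : ℂ))
    (x₀ := ζ0) (s := Metric.ball ζ0 1)
    (bound := fun w => (Real.exp (C + (‖ζ0‖ + 1) * C) * C) * √(dt (mH w)))
    (Metric.ball_mem_nhds _ one_pos)
    (Eventually.of_forall fun ζ => (M9_int hX hB hδ ζ).1)
    (M9_int hX hB hδ ζ0)
    (by
      have h1 := M9_sc
      exact (by fun_prop : Continuous fun w : Pl =>
        (Complex.exp ((B w : ℂ) + ζ0 * (δ w : ℂ)) * (δ w : ℂ)) *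
          ((√(dt (mH w)) : ℝ) : ℂ)).aestronglyMeasurable)
    ((ae_restrict_iff' hX.meas).2 (Eventually.of_forall fun w hw ζ hζ => by
      have hb := hBC w (subset_closure hw)
      have hd := hδC w (subset_closure hw)
      rw [norm_mul, norm_mul, Complex.norm_exp, Complex.norm_real, Complex.norm_real,
        Real.norm_eq_abs, Real.norm_eq_abs, abs_of_nonneg (Real.sqrt_nonneg _)]
      apply mul_le_mul_of_nonneg_right _ (Real.sqrt_nonneg _)
      apply mul_le_mul _ hd (abs_nonneg _) (Real.exp_pos _).le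
      apply Real.exp_le_exp.2
      have h2 : ‖ζ‖ ≤ ‖ζ0‖ + 1 := by
        rw [Metric.mem_ball, dist_eq_norm] at hζ
        have := norm_sub_norm_le ζ ζ0
        linarith
      have h3 : (ζ * (δ w : ℂ)).re ≤ (‖ζ0‖ + 1) * C := by
        refine (Complex.re_le_norm _).trans ?_
        rw [norm_mul, Complex.norm_real, Real.norm_eq_abs]
        exact mul_le_mul h2 hd (abs_nonneg _) (by positivity)
      rw [Complex.add_re, Complex.ofReal_re]
      linarith [le_abs_self (B w)]))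
    (hsi.const_mul _)
    (Eventually.of_forall fun w ζ _ => by
      have h1 : HasDerivAt (fun ζ : ℂ => (B w : ℂ) + ζ * (δ w : ℂ)) (δ w : ℂ) ζ := by
        have := ((hasDerivAt_id ζ).mul_const (δ w : ℂ)).const_add (B w : ℂ)
        rwa [one_mul] at this
      exact h1.cexp.mul_const _)
  exact h.2.differentiableAt

/-- the area near a real point -/
private theorem M9_near (hX : Surface Γ D) {B δ : Pl → ℝ} {C : ℝ} (hC : 0 ≤ C)
    (hB : Continuous B) (hδ : Continuous δ) (hδC : ∀ z ∈ closure D, |δ z| ≤ C) {p : ℝ} {ζ : ℂ}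
    (hζ : ‖ζ - p‖ ≤ 1 / (4 * (C + 1))) :
    ‖M9_A D B δ ζ - M9_A D B δ (p : ℂ)‖ ≤
      1 / 2 * ∫ w in D, Real.exp (B w + p * δ w) * √(dt (mH w)) := by
  have hc : Continuous fun w => Real.exp (B w + p * δ w) * √(dt (mH w)) := by
    have h1 := M9_sc
    fun_prop
  unfold M9_A
  rw [← integral_sub (M9_int hX hB hδ ζ) (M9_int hX hB hδ p), ← integral_const_mul]
  refine norm_integral_le_of_norm_le ((Cmp_int hX hc).const_mul _)
    ((ae_restrict_iff' hX.meas).2 (Eventually.of_forall fun w hw => ?_))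
  have hd := hδC w (subset_closure hw)
  have e1 : Complex.exp ((B w : ℂ) + ζ * (δ w : ℂ)) * ((√(dt (mH w)) : ℝ) : ℂ) -
      Complex.exp ((B w : ℂ) + (p : ℂ) * (δ w : ℂ)) * ((√(dt (mH w)) : ℝ) : ℂ) =
      Complex.exp ((B w : ℂ) + (p : ℂ) * (δ w : ℂ)) *
        (Complex.exp ((ζ - p) * (δ w : ℂ)) - 1) * ((√(dt (mH w)) : ℝ) : ℂ) := by
    have e2 : Complex.exp ((B w : ℂ) + ζ * (δ w : ℂ)) =
        Complex.exp ((B w : ℂ) + (p : ℂ) * (δ w : ℂ)) * Complex.exp ((ζ - p) * (δ w : ℂ)) := by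
      rw [← Complex.exp_add]
      congr 1
      ring
    rw [e2]
    ring
  have h1 : ‖(ζ - p) * (δ w : ℂ)‖ ≤ 1 / 4 := by
    rw [norm_mul, Complex.norm_real, Real.norm_eq_abs]
    calc ‖ζ - p‖ * |δ w| ≤ 1 / (4 * (C + 1)) * (C + 1) :=
          mul_le_mul hζ (by linarith) (abs_nonneg _) (by positivity)
      _ = 1 / 4 := by
          have : C + 1 ≠ 0 := by positivity
          field_simp
  have h2 := Complex.norm_exp_sub_one_le (x := (ζ - p) * (δ w : ℂ)) (by linarith)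
  rw [e1, norm_mul, norm_mul, Complex.norm_exp, Complex.norm_real, Real.norm_eq_abs,
    abs_of_nonneg (Real.sqrt_nonneg _)]
  have h3 : ((B w : ℂ) + (p : ℂ) * (δ w : ℂ)).re = B w + p * δ w := by
    rw [Complex.add_re, Complex.re_ofReal_mul, Complex.ofReal_re, Complex.ofReal_re]
  rw [h3]
  calc Real.exp (B w + p * δ w) * ‖Complex.exp ((ζ - p) * (δ w : ℂ)) - 1‖ * √(dt (mH w))
      ≤ Real.exp (B w + p * δ w) * (1 / 2) * √(dt (mH w)) := by
        apply mul_le_mul_of_nonneg_right _ (Real.sqrt_nonneg _)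
        apply mul_le_mul_of_nonneg_left _ (Real.exp_pos _).le
        linarith
    _ = 1 / 2 * (Real.exp (B w + p * δ w) * √(dt (mH w))) := by ring

/-- the area at a real point -/
private theorem M9_bd (hX : Surface Γ D) {B δ : Pl → ℝ} {C : ℝ} (hC : 0 ≤ C)
    (hB : Continuous B) (hδ : Continuous δ) (hBC : ∀ z ∈ closure D, |B z| ≤ C)
    (hδC : ∀ z ∈ closure D, |δ z| ≤ C) {p : ℝ} (hp : |p| ≤ 1) :
    Real.exp (-(2 * C)) * (∫ w in D, √(dt (mH w))) ≤
        ∫ w in D, Real.exp (B w + p * δ w) * √(dt (mH w)) ∧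
      ∫ w in D, Real.exp (B w + p * δ w) * √(dt (mH w)) ≤
        Real.exp (2 * C) * ∫ w in D, √(dt (mH w)) := by
  have hc : Continuous fun w => Real.exp (B w + p * δ w) * √(dt (mH w)) := by
    have h1 := M9_sc
    fun_prop
  have hpd : ∀ w ∈ D, |B w + p * δ w| ≤ 2 * C := by
    intro w hw
    have hb := hBC w (subset_closure hw)
    have hd := hδC w (subset_closure hw)
    refine (abs_add_le _ _).trans ?_
    rw [abs_mul]
    have : |p| * |δ w| ≤ 1 * C := mul_le_mul hp hd (abs_nonneg _) zero_le_one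
    linarith
  rw [← integral_const_mul, ← integral_const_mul]
  constructor
  · refine setIntegral_mono_on ((Cmp_int hX M9_sc).const_mul _) (Cmp_int hX hc) hX.meas
      fun w hw => ?_
    apply mul_le_mul_of_nonneg_right _ (Real.sqrt_nonneg _)
    apply Real.exp_le_exp.2
    exact (abs_le.1 (hpd w hw)).1
  · refine setIntegral_mono_on (Cmp_int hX hc) ((Cmp_int hX M9_sc).const_mul _) hX.meas
      fun w hw => ?_
    apply mul_le_mul_of_nonneg_right _ (Real.sqrt_nonneg _)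
    apply Real.exp_le_exp.2
    exact (abs_le.1 (hpd w hw)).2

/-- the extension of the logarithm of the area -/
private theorem M9_log (hX : Surface Γ D) (C : ℝ) : ∃ B0 : ℝ, 2 ≤ B0 ∧ ∀ B δ : Pl → ℝ,
    Continuous B → Continuous δ → (∀ z ∈ closure D, |B z| ≤ C) → (∀ z ∈ closure D, |δ z| ≤ C) →
    ∀ p : ℝ, |p| ≤ 1 → DifferentiableOn ℂ (fun ζ => Complex.log (M9_A D B δ ζ))
        (Metric.ball (p : ℂ) (1 / B0)) ∧
      (∀ ζ ∈ Metric.ball (p : ℂ) (1 / B0), ‖Complex.log (M9_A D B δ ζ)‖ ≤ B0) ∧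
      ∀ y : ℝ, (y : ℂ) ∈ Metric.ball (p : ℂ) (1 / B0) → Complex.log (M9_A D B δ y) =
        ((Real.log (∫ w in D, Real.exp (B w + thd y * δ w) * √(dt (mH w))) : ℝ) : ℂ) := by
  obtain ⟨V, hV⟩ : ∃ V, V = ∫ w in D, √(dt (mH w)) := ⟨_, rfl⟩
  have hV0 : 0 < V := by
    have := M9_pos hX (B := fun _ => 0) (δ := fun _ => 0) continuous_const continuous_const 0
    simp only [mul_zero, add_zero, Real.exp_zero, one_mul] at this
    rw [hV]
    exact this
  have hC0 : 0 ≤ |C| := abs_nonneg C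
  have hlV : 0 ≤ |Real.log V| := abs_nonneg _
  have hpi := Real.pi_pos
  obtain ⟨B0, hB0⟩ : ∃ B0, B0 = |Real.log V| + 2 * |C| + 1 + Real.pi + 4 * (|C| + 1) := ⟨_, rfl⟩
  have hB01 : 4 * (|C| + 1) ≤ B0 := by
    rw [hB0]
    linarith
  have hB02 : 2 ≤ B0 := by linarith
  refine ⟨B0, hB02, fun B δ hB hδ hBC hδC p hp => ?_⟩
  have hBC' : ∀ z ∈ closure D, |B z| ≤ |C| := fun z hz => (hBC z hz).trans (le_abs_self C)
  have hδC' : ∀ z ∈ closure D, |δ z| ≤ |C| := fun z hz => (hδC z hz).trans (le_abs_self C)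
  obtain ⟨S, hS⟩ : ∃ S, S = ∫ w in D, Real.exp (B w + p * δ w) * √(dt (mH w)) := ⟨_, rfl⟩
  have hS0 : 0 < S := by
    rw [hS]
    exact M9_pos hX hB hδ p
  have hbd := M9_bd hX hC0 hB hδ hBC' hδC' hp
  rw [← hS, ← hV] at hbd
  have hr0 : 1 / B0 ≤ 1 / (4 * (|C| + 1)) := one_div_le_one_div_of_le (by positivity) hB01
  have hr1 : 1 / B0 ≤ 1 / 2 := one_div_le_one_div_of_le (by norm_num) hB02
  have hn : ∀ ζ ∈ Metric.ball (p : ℂ) (1 / B0), ‖M9_A D B δ ζ - (S : ℂ)‖ ≤ 1 / 2 * S := by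
    intro ζ hζ
    rw [Metric.mem_ball, dist_eq_norm] at hζ
    have := M9_near hX hC0 hB hδ hδC' (p := p) (ζ := ζ) (by linarith)
    rw [M9_real hX hB hδ, ← hS] at this
    exact this
  have hre : ∀ ζ ∈ Metric.ball (p : ℂ) (1 / B0), S / 2 ≤ (M9_A D B δ ζ).re := by
    intro ζ hζ
    have h1 := (Complex.abs_re_le_norm _).trans (hn ζ hζ)
    rw [Complex.sub_re, Complex.ofReal_re, abs_le] at h1
    linarith [h1.1]
  refine ⟨?_, ?_, ?_⟩
  · intro ζ hζ
    have h1 : M9_A D B δ ζ ∈ Complex.slitPlane := Or.inl (by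
      have := hre ζ hζ
      linarith)
    exact ((M9_diff hX hC0 hB hδ hBC' hδC' ζ).clog h1).differentiableWithinAt
  · intro ζ hζ
    have h1 := hre ζ hζ
    have h2 := hn ζ hζ
    have h3 : S / 2 ≤ ‖M9_A D B δ ζ‖ := h1.trans (Complex.re_le_norm _)
    have h4 : ‖M9_A D B δ ζ‖ ≤ 3 / 2 * S := by
      have h5 : ‖(S : ℂ)‖ = S := by rw [Complex.norm_real, Real.norm_eq_abs, abs_of_pos hS0]
      have h6 := norm_sub_norm_le (M9_A D B δ ζ) (S : ℂ)
      rw [h5] at h6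
      linarith
    have hA0 : 0 < ‖M9_A D B δ ζ‖ := by linarith
    have hl1 : Real.log ‖M9_A D B δ ζ‖ ≤ |Real.log V| + 2 * |C| + 1 := by
      have e1 : Real.log ‖M9_A D B δ ζ‖ ≤ Real.log (3 / 2 * (Real.exp (2 * |C|) * V)) :=
        Real.log_le_log hA0 (h4.trans (mul_le_mul_of_nonneg_left hbd.2 (by norm_num)))
      rw [Real.log_mul (by norm_num) (by positivity), Real.log_mul (Real.exp_pos _).ne' hV0.ne',
        Real.log_exp] at e1
      have e2 : Real.log (3 / 2) ≤ 1 := by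
        have := Real.log_le_sub_one_of_pos (by norm_num : (0 : ℝ) < 3 / 2)
        linarith
      have e3 := le_abs_self (Real.log V)
      linarith
    have hl2 : -(|Real.log V| + 2 * |C| + 1) ≤ Real.log ‖M9_A D B δ ζ‖ := by
      have e0 : 1 / 2 * (Real.exp (-(2 * |C|)) * V) ≤ ‖M9_A D B δ ζ‖ := by
        refine le_trans ?_ h3
        have := hbd.1
        linarith
      have e1 : Real.log (1 / 2 * (Real.exp (-(2 * |C|)) * V)) ≤ Real.log ‖M9_A D B δ ζ‖ :=
        Real.log_le_log (by positivity) e0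
      rw [Real.log_mul (by norm_num) (by positivity), Real.log_mul (Real.exp_pos _).ne' hV0.ne',
        Real.log_exp] at e1
      have e2 : -1 ≤ Real.log (1 / 2) := by
        rw [one_div, Real.log_inv]
        have := Real.log_le_sub_one_of_pos (by norm_num : (0 : ℝ) < 2)
        linarith
      have e3 := neg_abs_le (Real.log V)
      linarith
    have h5 : ‖Complex.log (M9_A D B δ ζ)‖ ≤
        |Real.log ‖M9_A D B δ ζ‖| + Real.pi := by
      refine (Complex.norm_le_abs_re_add_abs_im _).trans ?_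
      rw [Complex.log_re, Complex.log_im]
      exact add_le_add le_rfl (Complex.abs_arg_le_pi _)
    have h6 : |Real.log ‖M9_A D B δ ζ‖| ≤ |Real.log V| + 2 * |C| + 1 := abs_le.2 ⟨hl2, hl1⟩
    rw [hB0]
    linarith
  · intro y hy
    have hy1 : |y - p| < 1 / 2 := by
      rw [Metric.mem_ball, dist_eq_norm, ← Complex.ofReal_sub, Complex.norm_real,
        Real.norm_eq_abs] at hy
      linarith
    have hy2 : |y| ≤ 4 := by
      have := abs_sub_abs_le_abs_sub y p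
      linarith
    rw [thd_id hy2, M9_real hX hB hδ, Complex.ofReal_log (M9_pos hX hB hδ y).le]

theorem area_hol (hX : Surface Γ D) (C : ℝ) : ∃ B0 : ℝ, 2 ≤ B0 ∧ ∀ B δ : Pl → ℝ, Continuous B →
    Continuous δ → (∀ z ∈ closure D, |B z| ≤ C) → (∀ z ∈ closure D, |δ z| ≤ C) →
    ∀ p : ℝ, |p| ≤ 1 → H36.Hol (fun p : ℝ =>
      Real.log (∫ w in D, Real.exp (B w + thd p * δ w) * √(dt (mH w)))) p B0 := by
  obtain ⟨B0, hB0, h⟩ := M9_log hX C
  refine ⟨B0, hB0, fun B δ hB hδ hBC hδC p hp => ?_⟩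
  obtain ⟨h1, h2, h3⟩ := h B δ hB hδ hBC hδC p hp
  exact ⟨fun ζ => Complex.log (M9_A D B δ ζ), h1, h2, h3⟩

theorem path_hol (hX : Surface Γ D) (C : ℝ) : ∃ B0 : ℝ, 2 ≤ B0 ∧ ∀ B δ : Pl → ℝ, Continuous B →
    Continuous δ → (∀ z ∈ closure D, |B z| ≤ C) → (∀ z ∈ closure D, |δ z| ≤ C) →
    ∀ (X : Pl) (r : ℝ), 0 < r → r ≤ 1 → HX B X r C → HX δ X r C → ∀ p : ℝ, |p| ≤ 1 →
    H36.Hol (fun x : ℝ × Pl => B35.nx D mH (fun w => B w + thd x.1 * δ w) x.2) (p, X) (B0 / r) := by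
  obtain ⟨B1, hB1, h⟩ := M9_log hX C
  have hC0 : 0 ≤ |C| := abs_nonneg C
  refine ⟨3 * |C| + B1, by linarith, fun B δ hB hδ hBC hδC X r hr hr1 hXB hXδ p hp => ?_⟩
  obtain ⟨h1, h2, h3⟩ := h B δ hB hδ hBC hδC p hp
  obtain ⟨gB, gB1, gB2, gB3⟩ := hXB
  obtain ⟨gD, gD1, gD2, gD3⟩ := hXδ
  have hB2 : 2 ≤ 3 * |C| + B1 := by linarith
  have hrad : 1 / ((3 * |C| + B1) / r) = r / (3 * |C| + B1) := one_div_div _ _
  have hrr : r / (3 * |C| + B1) ≤ r := div_le_self hr.le (by linarith)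
  have hrB : r / (3 * |C| + B1) ≤ 1 / B1 := by
    rw [div_le_div_iff₀ (by linarith) (by linarith)]
    nlinarith
  have hr2 : r / (3 * |C| + B1) ≤ 1 / 2 := by
    rw [div_le_div_iff₀ (by linarith) (by norm_num)]
    linarith
  -- the two components of a point of the ball
  have hball : ∀ z : ℂ × (ℂ × ℂ), z ∈ Metric.ball (H36.j ((p, X) : ℝ × Pl) : ℂ × (ℂ × ℂ))
      (1 / ((3 * |C| + B1) / r)) → z.1 ∈ Metric.ball (p : ℂ) (1 / B1) ∧
        z.2 ∈ Metric.ball (H36.j X : ℂ × ℂ) r ∧ ‖z.1 - p‖ < 1 / 2 := by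
    intro z hz
    rw [hrad, Metric.mem_ball, dist_eq_norm] at hz
    have e1 : ‖z.1 - (p : ℂ)‖ ≤ ‖z - H36.j ((p, X) : ℝ × Pl)‖ :=
      norm_fst_le (z - H36.j ((p, X) : ℝ × Pl))
    have e2 : ‖z.2 - H36.j X‖ ≤ ‖z - H36.j ((p, X) : ℝ × Pl)‖ :=
      norm_snd_le (z - H36.j ((p, X) : ℝ × Pl))
    refine ⟨?_, ?_, by linarith⟩
    · rw [Metric.mem_ball, dist_eq_norm]
      linarith
    · rw [Metric.mem_ball, dist_eq_norm]
      linarith
  refine ⟨fun z => gB z.2 + z.1 * gD z.2 - Complex.log (M9_A D B δ z.1), ?_, ?_, ?_⟩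
  · have m1 : MapsTo (fun z : ℂ × (ℂ × ℂ) => z.1)
        (Metric.ball (H36.j ((p, X) : ℝ × Pl) : ℂ × (ℂ × ℂ)) (1 / ((3 * |C| + B1) / r)))
        (Metric.ball (p : ℂ) (1 / B1)) := fun z hz => (hball z hz).1
    have m2 : MapsTo (fun z : ℂ × (ℂ × ℂ) => z.2)
        (Metric.ball (H36.j ((p, X) : ℝ × Pl) : ℂ × (ℂ × ℂ)) (1 / ((3 * |C| + B1) / r)))
        (Metric.ball (H36.j X : ℂ × ℂ) r) := fun z hz => (hball z hz).2.1
    have d1 := gB1.comp (differentiable_snd.differentiableOn) m2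
    have d2 := gD1.comp (differentiable_snd.differentiableOn) m2
    have d3 := h1.comp (differentiable_fst.differentiableOn) m1
    exact (d1.add ((differentiable_fst.differentiableOn).mul d2)).sub d3
  · intro z hz
    obtain ⟨b1, b2, b3⟩ := hball z hz
    have c1 := gB2 z.2 b2
    have c2 := gD2 z.2 b2
    have c3 := h2 z.1 b1
    have c4 : ‖z.1‖ ≤ 2 := by
      have e1 := norm_sub_norm_le z.1 (p : ℂ)
      have e2 : ‖(p : ℂ)‖ ≤ 1 := by
        rw [Complex.norm_real, Real.norm_eq_abs]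
        exact hp
      linarith
    have c5 : ‖z.1 * gD z.2‖ ≤ 2 * |C| := by
      rw [norm_mul]
      exact mul_le_mul c4 (c2.trans (le_abs_self C)) (norm_nonneg _) (by norm_num)
    have c6 : 3 * |C| + B1 ≤ (3 * |C| + B1) / r := by
      rw [le_div_iff₀ hr]
      nlinarith
    have c7 := le_abs_self C
    calc ‖gB z.2 + z.1 * gD z.2 - Complex.log (M9_A D B δ z.1)‖
        ≤ ‖gB z.2 + z.1 * gD z.2‖ + ‖Complex.log (M9_A D B δ z.1)‖ := norm_sub_le _ _
      _ ≤ ‖gB z.2‖ + ‖z.1 * gD z.2‖ + ‖Complex.log (M9_A D B δ z.1)‖ := by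
          have := norm_add_le (gB z.2) (z.1 * gD z.2)
          linarith
      _ ≤ 3 * |C| + B1 := by linarith
      _ ≤ _ := c6
  · intro y hy
    obtain ⟨b1, b2, b3⟩ := hball _ hy
    have e1 := gB3 y.2 b2
    have e2 := gD3 y.2 b2
    have e3 := h3 y.1 b1
    have hy2 : |y.1| ≤ 4 := by
      have e4 : ‖((y.1 : ℝ) : ℂ) - (p : ℂ)‖ < 1 / 2 := b3
      rw [← Complex.ofReal_sub, Complex.norm_real, Real.norm_eq_abs] at e4
      have := abs_sub_abs_le_abs_sub y.1 p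
      linarith
    show gB (H36.j y.2) + ((y.1 : ℝ) : ℂ) * gD (H36.j y.2) -
      Complex.log (M9_A D B δ ((y.1 : ℝ) : ℂ)) =
        ((B35.nx D mH (fun w => B w + thd y.1 * δ w) y.2 : ℝ) : ℂ)
    rw [e1, e2, e3]
    show ((B y.2 : ℝ) : ℂ) + ((y.1 : ℝ) : ℂ) * ((δ y.2 : ℝ) : ℂ) -
      ((Real.log (∫ w in D, Real.exp (B w + thd y.1 * δ w) * √(dt (mH w))) : ℝ) : ℂ) = _
    unfold B35.nx
    rw [thd_id hy2]
    push_cast
    ring

/-- the average is smooth (works for both forms of the upstream statement) -/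
private theorem M9_ks {e : ℝ} (he : 0 < e) (he1 : e ≤ 1) {f : Pl → ℝ} (hf : Continuous f) {M : ℝ}
    (hM : ∀ Y, |f Y| ≤ M) : ContDiff ℝ ∞ (Kr e f) := by
  first
  | exact Kr_smooth he he1 hf hM
  | exact Kr_smooth he hf hM

private theorem M9_HX_mono {f : Pl → ℝ} {X : Pl} {r B B' : ℝ} (h : HX f X r B) (hB : B ≤ B') :
    HX f X r B' := by
  obtain ⟨g, g1, g2, g3⟩ := h
  exact ⟨g, g1, fun z hz => (g2 z hz).trans hB, g3⟩

theorem path_Mo (hX : Surface Γ D) {K : Set Pl} (hK : IsCompact K) (C : ℝ) : ∃ A : ℝ, 2 ≤ A ∧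
    ∀ (P : ℕ) (e : ℝ), 0 < e → 2 ^ P * e ≤ 1 → ∀ b ∈ Test Γ, ∀ d ∈ Test Γ,
    (∀ z ∈ closure D, |b z| ≤ C) → (∀ z ∈ closure D, |d z| ≤ C) → ∀ X ∈ K, ∀ p : ℝ, |p| ≤ 1 →
    H36.Hol (fun x : ℝ × Pl => B35.nx D mH (fun w => Mo P e b w + thd x.1 * Mo P e d w) x.2) (p, X)
      (A / e) := by
  obtain ⟨C1, hC1, hMo⟩ := Mo_hol hX hK
  have hC0 : 0 ≤ |C| := abs_nonneg C
  obtain ⟨B0, hB0, h⟩ := path_hol hX (C1 * |C| + 3 * |C|)
  have hC1C : 0 ≤ C1 * |C| := by positivity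
  refine ⟨B0 * C1, by nlinarith, fun P e he hPe b hb d hd hbC hdC X hXK p hp => ?_⟩
  have he1 : e ≤ 1 := by
    have : 1 * e ≤ 2 ^ P * e := mul_le_mul_of_nonneg_right (one_le_pow₀ (by norm_num)) he.le
    linarith
  have hcont : ∀ u ∈ Test Γ, (∀ z ∈ closure D, |u z| ≤ C) → Continuous (Mo P e u) := by
    intro u hu huC
    unfold Mo
    refine continuous_finsetSum _ fun i hi => continuous_const.mul ?_
    refine (M9_ks (by positivity) ?_ hu.1.continuous (test_bdd hX hu huC)).continuous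
    refine le_trans ?_ hPe
    exact mul_le_mul_of_nonneg_right
      (pow_le_pow_right₀ (by norm_num) (Finset.mem_range.1 hi).le) he.le
  have hle : ∀ u ∈ Test Γ, (∀ z ∈ closure D, |u z| ≤ C) →
      ∀ z ∈ closure D, |Mo P e u z| ≤ C1 * |C| + 3 * |C| := by
    intro u hu huC z _
    have h1 := Mo_le hX P he hu huC z
    have h2 := le_abs_self C
    linarith
  have hHX : ∀ u ∈ Test Γ, (∀ z ∈ closure D, |u z| ≤ C) →
      HX (Mo P e u) X (e / C1) (C1 * |C| + 3 * |C|) := by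
    intro u hu huC
    refine M9_HX_mono (hMo P e he hPe u hu C huC X hXK) ?_
    have h2 : C1 * C ≤ C1 * |C| := mul_le_mul_of_nonneg_left (le_abs_self C) (by linarith)
    linarith
  have hfin := h (Mo P e b) (Mo P e d) (hcont b hb hbC) (hcont d hd hdC) (hle b hb hbC)
    (hle d hd hdC) X (e / C1) (by positivity) (by
      rw [div_le_one (by linarith)]
      linarith) (hHX b hb hbC) (hHX d hd hdC) p hp
  have e1 : B0 / (e / C1) = B0 * C1 / e := by
    rw [div_div_eq_mul_div]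
  rw [e1] at hfin
  exact hfin

end B36
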